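import Pool.Agent.Helper252_Cover.Defs

set_option autoImplicit false

open scoped commutatorElement

namespace Pool.Agent.Helper252_Cover

namespace J_coeff_mem

open Finset fwdDiff

theorem diff_pow (D j : ℕ) (hj : j < D) :
    ∑ i ∈ range (D + 1), ((-1 : ℤ) ^ (D - i) * D.choose i) * ((i : ℤ) ^ j) = 0 := by
  have h1 := fwdDiff_iter_eq_sum_shift (1 : ℤ) (fun x : ℤ => x ^ j) D 0
  have h2 : (fwdDiff (1 : ℤ))^[D] (fun x : ℤ => x ^ j) 0 = 0 := by
    have := fwdDiff_iter_pow_eq_zero_of_lt (R := ℤ) hj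
    exact congrFun this 0
  rw [h2] at h1
  rw [h1]
  refine sum_congr rfl (fun i _ => ?_)
  simp

theorem diff_top (D : ℕ) :
    ∑ i ∈ range (D + 1), ((-1 : ℤ) ^ (D - i) * D.choose i) * ((i : ℤ) ^ D) = D.factorial := by
  have h1 := fwdDiff_iter_eq_sum_shift (1 : ℤ) (fun x : ℤ => x ^ D) D 0
  have h2 : (fwdDiff (1 : ℤ))^[D] (fun x : ℤ => x ^ D) 0 = (D.factorial : ℤ) := by
    have := fwdDiff_iter_eq_factorial (R := ℤ) (n := D)
    exact congrFun this 0
  rw [h2] at h1
  rw [h1]
  refine sum_congr rfl (fun i _ => ?_)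
  simp

theorem top_mem {A : Type} [AddCommGroup A] (p N D : ℕ) (hp : p.Prime) (hD : D < p)
    (hA : ∀ x : A, (p ^ N) • x = 0) (C : AddSubgroup A) (a f : ℕ → A) (h : HasCoeff D a f)
    (hC : ∀ t, f t ∈ C) : a D ∈ C := by
  -- the finite difference
  have h1 : ∑ i ∈ range (D + 1), ((-1 : ℤ) ^ (D - i) * D.choose i) • f i =
      (D.factorial : ℤ) • a D := by
    have e1 : ∀ i ∈ range (D + 1), ((-1 : ℤ) ^ (D - i) * D.choose i) • f i =
        ∑ j ∈ range (D + 1), (((-1 : ℤ) ^ (D - i) * D.choose i) * ((i : ℤ) ^ j)) • a j := by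
      intro i _
      rw [h i, smul_sum]
      refine sum_congr rfl (fun j _ => ?_)
      rw [mul_smul ((-1 : ℤ) ^ (D - i) * D.choose i) ((i : ℤ) ^ j), ← Nat.cast_pow,
        natCast_zsmul (a j) (i ^ j)]
    rw [sum_congr rfl e1, sum_comm]
    simp only [← sum_smul]
    rw [sum_range_succ, diff_top]
    rw [sum_eq_zero, zero_add]
    intro j hj
    rw [diff_pow D j (mem_range.mp hj), zero_smul]
  have h2 : (D.factorial : ℤ) • a D ∈ C := by
    rw [← h1]
    exact C.sum_mem (fun i _ => C.zsmul_mem (hC i) _)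
  have h3 : Nat.Coprime D.factorial (p ^ N) := by
    apply Nat.Coprime.pow_right
    exact (hp.coprime_iff_not_dvd.mpr (fun hd => by
      have := (hp.dvd_factorial).mp hd
      omega)).symm
  have h4 : IsCoprime (D.factorial : ℤ) ((p ^ N : ℕ) : ℤ) := Nat.isCoprime_iff_coprime.mpr h3
  obtain ⟨u, v, huv⟩ := h4
  have h5 : a D = u • ((D.factorial : ℤ) • a D) + v • (((p ^ N : ℕ) : ℤ) • a D) := by
    rw [← mul_smul, ← mul_smul, ← add_smul, huv, one_smul]
  rw [h5]
  refine C.add_mem (C.zsmul_mem h2 _) ?_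
  rw [natCast_zsmul, hA, smul_zero]
  exact C.zero_mem

end J_coeff_mem

/-- TARGET -/
theorem coeff_mem {A : Type} [AddCommGroup A] (p N D : ℕ) (hp : p.Prime) (hD : D < p)
    (hA : ∀ x : A, (p ^ N) • x = 0) (C : AddSubgroup A) (a f : ℕ → A) (h : HasCoeff D a f)
    (hC : ∀ t, f t ∈ C) : ∀ j, j ≤ D → a j ∈ C := by
  induction D generalizing f with
  | zero =>
    intro j hj
    obtain rfl : j = 0 := by omega
    exact J_coeff_mem.top_mem p N 0 hp hD hA C a f h hC
  | succ D ih =>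
    intro j hj
    have htop := J_coeff_mem.top_mem p N (D + 1) hp hD hA C a f h hC
    rcases Nat.lt_or_ge D j with hlt | hle
    · obtain rfl : j = D + 1 := by omega
      exact htop
    · refine ih (by omega) (fun t => f t - (t ^ (D + 1)) • a (D + 1)) ?_ ?_ j hle
      · intro t
        simp only
        rw [h t, Finset.sum_range_succ]
        simp
      · intro t
        exact C.sub_mem (hC t) (C.nsmul_mem htop _)

end Pool.Agent.Helper252_Cover
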