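import Pool.Agent.Helper252_Cover.Defs

set_option autoImplicit false

open scoped commutatorElement

namespace Pool.Agent.Helper252_Cover

/-
PROOF OF THE TARGET.
c k = Σ over i <= D, j <= E with i + j = k of a i * b j; (t^i • x) * (t^j • y) = t^(i+j) • (x * y).
-/

/-- TARGET -/
theorem coeff_mul {A : Type} [Ring A] (D E : ℕ) (hD : 1 ≤ D) (hE : 1 ≤ E) (a b f g : ℕ → A)
    (hf : HasCoeff D a f) (hg : HasCoeff E b g) :
    ∃ c : ℕ → A, HasCoeff (D + E) c (fun t => f t * g t) ∧ c 0 = a 0 * b 0 ∧
      c 1 = a 0 * b 1 + a 1 * b 0 := by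
  refine ⟨fun k => ∑ p ∈ ((Finset.range (D + 1)) ×ˢ (Finset.range (E + 1))).filter
    (fun p => p.1 + p.2 = k), a p.1 * b p.2, ?_, ?_, ?_⟩
  · intro t
    simp only
    rw [hf t, hg t, Finset.sum_mul_sum, ← Finset.sum_product',
      ← Finset.sum_fiberwise_of_maps_to (s := (Finset.range (D + 1)) ×ˢ (Finset.range (E + 1)))
        (t := Finset.range (D + E + 1)) (g := fun p : ℕ × ℕ => p.1 + p.2)]
    · apply Finset.sum_congr rfl
      intro k _
      rw [Finset.smul_sum]
      apply Finset.sum_congr rfl
      intro p hp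
      rw [Finset.mem_filter] at hp
      rw [smul_mul_smul_comm, ← pow_add, hp.2]
    · intro p hp
      rw [Finset.mem_product, Finset.mem_range, Finset.mem_range] at hp
      rw [Finset.mem_range]
      omega
  · simp only
    have h : ((Finset.range (D + 1)) ×ˢ (Finset.range (E + 1))).filter
        (fun p => p.1 + p.2 = 0) = {(0, 0)} := by
      ext ⟨i, j⟩
      simp only [Finset.mem_filter, Finset.mem_product, Finset.mem_range, Finset.mem_singleton,
        Prod.mk.injEq]
      omega
    rw [h, Finset.sum_singleton]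
  · simp only
    have h : ((Finset.range (D + 1)) ×ˢ (Finset.range (E + 1))).filter
        (fun p => p.1 + p.2 = 1) = {(0, 1), (1, 0)} := by
      ext ⟨i, j⟩
      simp only [Finset.mem_filter, Finset.mem_product, Finset.mem_range, Finset.mem_insert,
        Finset.mem_singleton, Prod.mk.injEq]
      omega
    rw [h, Finset.sum_pair (by simp)]

end Pool.Agent.Helper252_Cover
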