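import Pool.Agent.Helper252_Cover.Defs

set_option autoImplicit false

open scoped commutatorElement

namespace Pool.Agent.Helper252_Cover

/-
PROOF OF THE TARGET.
c j = if j <= D then a j else 0.
-/

/-- TARGET -/
theorem coeff_mono {A : Type} [AddCommGroup A] (D E : ℕ) (hD : 1 ≤ D) (hDE : D ≤ E)
    (a f : ℕ → A) (hf : HasCoeff D a f) :
    ∃ c : ℕ → A, HasCoeff E c f ∧ c 0 = a 0 ∧ c 1 = a 1 := by
  refine ⟨fun j => if j ≤ D then a j else 0, ?_, by simp, by simp [hD]⟩
  intro t
  rw [hf t, ← Finset.sum_subset (Finset.range_mono (by omega : D + 1 ≤ E + 1))]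
  · refine Finset.sum_congr rfl fun j hj => ?_
    rw [Finset.mem_range] at hj
    simp only [if_pos (show j ≤ D by omega)]
  · intro j _ hj
    rw [Finset.mem_range] at hj
    simp only [if_neg (show ¬ j ≤ D by omega), smul_zero]

end Pool.Agent.Helper252_Cover
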