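import Pool.Agent.Helper252_Cover.Defs

set_option autoImplicit false

open scoped commutatorElement

namespace Pool.Agent.Helper252_Cover

/-
PROOF OF THE TARGET.
Let s = t^j. (1+u)^s = Σ_{i<=c} (s choose i) • u^i (Commute.add_pow / add_pow_of_commute; u^i = 0 for i > c). For 1 <= i <= c < p let e_i be an integer with e_i * i! ≡ 1 mod p^N; as p^N • x = 0: (s choose i) • u^i = e_i • (s (s-1) ... (s-i+1)) • u^i, where s(s-1)...(s-i+1) = Σ_m σ(i,m) s^m is an integer polynomial in s of degree i with zero constant term and with linear coefficient (-1)^(i-1) (i-1)!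
(descPochhammer ℤ i, or build it by recursion). So (1+u)^(t^j) = 1 + Σ_{m=1}^{c} t^(j m) • (Σ_{i} e_i σ(i,m) • u^i), a polynomial in t of degree <= c j with constant coefficient 1; its coefficient at t^1 is 0 when j >= 2 and, for j = 1, Σ_i e_i (-1)^(i-1) (i-1)! • u^i = Σ_i (-1)^(i+1) iv p N i • u^i = lg p N c u because e_i (i-1)! i ≡ 1 ≡ iv p N i * i mod p^N
(iv p N i = Int.gcdA i (p^N), Int.gcd_eq_gcd_ab; i is coprime to p). At t = 0 the exponent 0^j is 0 (j >= 1), consistent.
-/

namespace J_pow_coeff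

theorem zsmul_zero' {A : Type} [Ring A] {p N : ℕ} (hA : ∀ x : A, (p ^ N) • x = 0) (k : ℤ) (x : A) :
    ((((p ^ N : ℕ) : ℤ)) * k) • x = 0 := by
  rw [mul_smul, natCast_zsmul]
  exact hA _

/-- integers congruent to one modulo `p ^ N` act trivially -/
theorem act_one {A : Type} [Ring A] {p N : ℕ} (hA : ∀ x : A, (p ^ N) • x = 0) {m : ℕ}
    (hm : Nat.Coprime m (p ^ N)) (x : A) :
    (Int.gcdA (m : ℤ) ((p ^ N : ℕ) : ℤ) * (m : ℤ)) • x = x := by
  have h := Int.gcd_eq_gcd_ab (m : ℤ) ((p ^ N : ℕ) : ℤ)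
  have h1 : ((Int.gcd (m : ℤ) ((p ^ N : ℕ) : ℤ) : ℕ) : ℤ) = 1 := by
    have : Int.gcd (m : ℤ) ((p ^ N : ℕ) : ℤ) = 1 := by
      rw [Int.gcd_natCast_natCast]
      exact hm
    rw [this]; rfl
  rw [h1] at h
  have h2 : Int.gcdA (m : ℤ) ((p ^ N : ℕ) : ℤ) * (m : ℤ) =
      1 - (((p ^ N : ℕ) : ℤ)) * Int.gcdB (m : ℤ) ((p ^ N : ℕ) : ℤ) := by
    rw [h]; ring
  rw [h2, sub_smul, one_smul, zsmul_zero' hA, sub_zero]

theorem coeff_zero_desc (i : ℕ) (hi : 1 ≤ i) : (descPochhammer ℤ i).coeff 0 = 0 := by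
  obtain ⟨k, rfl⟩ := Nat.exists_eq_add_of_le hi
  rw [add_comm, descPochhammer_succ_left, Polynomial.coeff_X_mul_zero]

theorem coeff_one_desc (k : ℕ) :
    (descPochhammer ℤ (k + 1)).coeff 1 = (-1) ^ k * (k.factorial : ℤ) := by
  induction k with
  | zero => simp
  | succ k ih =>
    rw [descPochhammer_succ_right, mul_sub, Polynomial.coeff_sub, Polynomial.coeff_mul_X,
      coeff_zero_desc (k + 1) (by omega)]
    have : ((k + 1 : ℕ) : Polynomial ℤ) = Polynomial.C ((k + 1 : ℕ) : ℤ) := by simp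
    rw [this, Polynomial.coeff_mul_C, ih, Nat.factorial_succ]
    push_cast
    ring

theorem binom {A : Type} [Ring A] (c : ℕ) (u : A) (hu : u ^ (c + 1) = 0) (s : ℕ) :
    (1 + u) ^ s = ∑ i ∈ Finset.range (c + 1), (s.choose i) • u ^ i := by
  have h1 : (1 + u) ^ s = ∑ i ∈ Finset.range (s + 1), (s.choose i) • u ^ i := by
    rw [add_comm 1 u, (Commute.one_right u).add_pow]
    refine Finset.sum_congr rfl fun i _ => ?_
    rw [one_pow, mul_one, nsmul_eq_mul]
    exact (Nat.cast_commute _ _).eq.symm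
  have h2 : ∀ M, s ≤ M → ∑ i ∈ Finset.range (s + 1), (s.choose i) • u ^ i =
      ∑ i ∈ Finset.range (M + 1), (s.choose i) • u ^ i := by
    intro M hM
    refine Finset.sum_subset (Finset.range_subset_range.2 (by omega)) fun i _ hi => ?_
    rw [Finset.mem_range] at hi
    rw [Nat.choose_eq_zero_of_lt (by omega), zero_smul]
  have h3 : ∀ M, c ≤ M → ∑ i ∈ Finset.range (c + 1), (s.choose i) • u ^ i =
      ∑ i ∈ Finset.range (M + 1), (s.choose i) • u ^ i := by
    intro M hM
    refine Finset.sum_subset (Finset.range_subset_range.2 (by omega)) fun i _ hi => ?_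
    rw [Finset.mem_range] at hi
    obtain ⟨k, rfl⟩ := Nat.exists_eq_add_of_le (show c + 1 ≤ i by omega)
    rw [pow_add, hu, zero_mul, smul_zero]
  rw [h1, h2 (max s c) (le_max_left _ _), h3 (max s c) (le_max_right _ _)]

/-- the inverse of `i!` -/
def e (p N i : ℕ) : ℤ := Int.gcdA ((i.factorial : ℕ) : ℤ) ((p ^ N : ℕ) : ℤ)

/-- coefficients in powers of the exponent -/
noncomputable def b {A : Type} [Ring A] (p N c : ℕ) (u : A) (m : ℕ) : A :=
  ∑ i ∈ Finset.range (c + 1), (e p N i * (descPochhammer ℤ i).coeff m) • u ^ i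

theorem cop {p N c i : ℕ} (hp : p.Prime) (hc : c < p) (hi : i ≤ c) :
    Nat.Coprime i.factorial (p ^ N) := by
  apply Nat.Coprime.pow_right
  apply Nat.Coprime.symm
  rw [Nat.Prime.coprime_iff_not_dvd hp, hp.dvd_factorial]
  omega

theorem expand {A : Type} [Ring A] (p N c : ℕ) (hp : p.Prime) (hc : c < p)
    (hA : ∀ x : A, (p ^ N) • x = 0) (u : A) (hu : u ^ (c + 1) = 0) (s : ℕ) :
    (1 + u) ^ s = ∑ m ∈ Finset.range (c + 1), (s ^ m) • b p N c u m := by
  rw [binom c u hu s]
  have h1 : ∀ m ∈ Finset.range (c + 1), (s ^ m) • b p N c u m =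
      ∑ i ∈ Finset.range (c + 1), (e p N i * ((descPochhammer ℤ i).coeff m * (s : ℤ) ^ m)) • u ^ i := by
    intro m _
    rw [b, Finset.smul_sum]
    refine Finset.sum_congr rfl fun i _ => ?_
    rw [← natCast_zsmul, smul_smul]
    congr 1
    push_cast
    ring
  rw [Finset.sum_congr rfl h1, Finset.sum_comm]
  refine Finset.sum_congr rfl fun i hi => ?_
  rw [Finset.mem_range] at hi
  rw [← Finset.sum_smul, ← Finset.mul_sum, ← Polynomial.eval_eq_sum_range' (n := c + 1)
    (by rw [descPochhammer_natDegree]; exact hi), descPochhammer_eval_eq_descFactorial,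
    Nat.descFactorial_eq_factorial_mul_choose]
  have h2 := act_one hA (cop (N := N) hp hc (show i ≤ c by omega)) ((s.choose i) • u ^ i)
  rw [← natCast_zsmul, smul_smul] at h2
  rw [← natCast_zsmul, ← h2]
  congr 1
  rw [e]
  push_cast
  ring

theorem b_zero {A : Type} [Ring A] (p N c : ℕ) (hp : p.Prime) (hc : c < p)
    (hA : ∀ x : A, (p ^ N) • x = 0) (u : A) : b p N c u 0 = 1 := by
  rw [b, Finset.sum_eq_single 0]
  · have h := act_one hA (cop (N := N) hp hc (Nat.zero_le c)) (1 : A)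
    simpa [e] using h
  · intro i _ hi
    rw [coeff_zero_desc i (by omega), mul_zero, zero_smul]
  · intro h
    exact absurd (Finset.mem_range.2 (by omega)) h

theorem b_one {A : Type} [Ring A] (p N c : ℕ) (hp : p.Prime) (hc : c < p)
    (hA : ∀ x : A, (p ^ N) • x = 0) (u : A) : b p N c u 1 = lg p N c u := by
  rw [b, lg]
  symm
  refine Finset.sum_subset_zero_on_sdiff ?_ ?_ ?_
  · intro i hi
    rw [Finset.mem_Icc] at hi
    rw [Finset.mem_range]
    omega
  · intro i hi
    rw [Finset.mem_sdiff, Finset.mem_range, Finset.mem_Icc] at hi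
    obtain rfl : i = 0 := by omega
    simp [Polynomial.coeff_one]
  · intro i hi
    rw [Finset.mem_Icc] at hi
    obtain ⟨k, rfl⟩ := Nat.exists_eq_add_of_le hi.1
    have hcop1 : Nat.Coprime (1 + k) (p ^ N) := by
      apply Nat.Coprime.pow_right
      apply Nat.Coprime.symm
      rw [Nat.Prime.coprime_iff_not_dvd hp]
      intro hd
      have := Nat.le_of_dvd (by omega) hd
      omega
    have hcop2 : Nat.Coprime (1 + k).factorial (p ^ N) := cop hp hc hi.2
    have h1 := act_one hA hcop1 ((e p N (1 + k) * (descPochhammer ℤ (1 + k)).coeff 1) • u ^ (1 + k))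
    have h2 := act_one hA hcop2 (((-1 : ℤ) ^ (1 + k + 1) * iv p N (1 + k)) • u ^ (1 + k))
    rw [← h1, ← h2, smul_smul, smul_smul]
    congr 1
    rw [add_comm 1 k, coeff_one_desc, Nat.factorial_succ, e, iv, Nat.factorial_succ]
    push_cast
    ring

end J_pow_coeff

/-- TARGET -/
theorem pow_coeff {A : Type} [Ring A] (p N c : ℕ) (hp : p.Prime) (hc : c < p) (hc1 : 1 ≤ c)
    (hA : ∀ x : A, (p ^ N) • x = 0) (u : A) (hu : u ^ (c + 1) = 0) (j : ℕ) (hj : 1 ≤ j) :
    ∃ a : ℕ → A, HasCoeff (c * j) a (fun t => (1 + u) ^ (t ^ j)) ∧ a 0 = 1 ∧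
      a 1 = if j = 1 then lg p N c u else 0 := by
  refine ⟨fun k => if j ∣ k then J_pow_coeff.b p N c u (k / j) else 0, ?_, ?_, ?_⟩
  · intro t
    show (1 + u) ^ (t ^ j) = _
    rw [J_pow_coeff.expand p N c hp hc hA u hu (t ^ j)]
    have h1 : ∑ k ∈ (Finset.range (c + 1)).image (fun m => j * m),
        (t ^ k) • (if j ∣ k then J_pow_coeff.b p N c u (k / j) else 0) =
        ∑ k ∈ Finset.range (c * j + 1),
        (t ^ k) • (if j ∣ k then J_pow_coeff.b p N c u (k / j) else 0) := by
      refine Finset.sum_subset ?_ ?_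
      · intro k hk
        rw [Finset.mem_image] at hk
        obtain ⟨m, hm, rfl⟩ := hk
        rw [Finset.mem_range] at hm ⊢
        have : m ≤ c := by omega
        have := Nat.mul_le_mul_left j this
        rw [mul_comm c j]
        omega
      · intro k hk hk'
        rw [if_neg, smul_zero]
        rintro ⟨m, rfl⟩
        apply hk'
        rw [Finset.mem_image]
        refine ⟨m, ?_, rfl⟩
        rw [Finset.mem_range] at hk ⊢
        by_contra hlt
        have h2 : c + 1 ≤ m := by omega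
        have h3 := Nat.mul_le_mul_left j h2
        rw [mul_add, mul_comm j c] at h3
        omega
    rw [← h1, Finset.sum_image]
    · refine Finset.sum_congr rfl fun m _ => ?_
      rw [if_pos (Dvd.intro m rfl), Nat.mul_div_cancel_left m (by omega), pow_mul]
    · intro x _ y _ hxy
      exact Nat.eq_of_mul_eq_mul_left (by omega) hxy
  · show (if j ∣ 0 then _ else _) = _
    rw [if_pos (dvd_zero j), Nat.zero_div]
    exact J_pow_coeff.b_zero p N c hp hc hA u
  · show (if j ∣ 1 then _ else _) = _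
    by_cases h : j = 1
    · subst h
      rw [if_pos (dvd_refl 1), if_pos rfl]
      exact J_pow_coeff.b_one p N c hp hc hA u
    · rw [if_neg h, if_neg]
      rw [Nat.dvd_one]
      exact h

end Pool.Agent.Helper252_Cover
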