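import Pool.Agent.Helper252_Cover.Defs

set_option autoImplicit false

open scoped commutatorElement

namespace Pool.Agent.Helper252_Cover

/-
PROOF OF THE TARGET.
(1+u)^(p^N) = Σ_i (p^N choose i) • u^i, u^i = 0 for i > c, and for 1 <= i <= c < p the number p^N divides (p^N choose i) (i (p^N choose i) = p^N (p^N - 1 choose i - 1), i coprime to p).
-/

namespace J_pow_eq_one

theorem dvd_choose (p N i : ℕ) (hp : p.Prime) (hi : 0 < i) (hip : i < p) :
    p ^ N ∣ (p ^ N).choose i := by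
  have hpos : 0 < p ^ N := pow_pos hp.pos N
  obtain ⟨m, hm⟩ : ∃ m, p ^ N = m + 1 := ⟨p ^ N - 1, by omega⟩
  obtain ⟨k, rfl⟩ : ∃ k, i = k + 1 := ⟨i - 1, by omega⟩
  have h1 : (m + 1) * m.choose k = (m + 1).choose (k + 1) * (k + 1) :=
    Nat.add_one_mul_choose_eq m k
  have h2 : p ^ N ∣ (p ^ N).choose (k + 1) * (k + 1) := by
    rw [hm, ← h1]
    exact dvd_mul_right _ _
  have h3 : Nat.Coprime (p ^ N) (k + 1) := by
    apply Nat.Coprime.pow_left
    rw [Nat.Prime.coprime_iff_not_dvd hp]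
    intro h
    exact absurd (Nat.le_of_dvd (by omega) h) (by omega)
  exact h3.dvd_of_dvd_mul_right h2

end J_pow_eq_one

/-- TARGET -/
theorem pow_eq_one {A : Type} [Ring A] (p N c : ℕ) (hp : p.Prime) (hc : c < p)
    (hA : ∀ x : A, (p ^ N) • x = 0) (u : A) (hu : u ^ (c + 1) = 0) : (1 + u) ^ (p ^ N) = 1 := by
  rw [add_comm, (Commute.one_right u).add_pow]
  rw [Finset.sum_eq_single 0]
  · simp
  · intro i _ hi0
    rcases Nat.lt_or_ge c i with hi | hi
    · have : u ^ i = 0 := pow_eq_zero_of_le hi hu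
      simp [this]
    · obtain ⟨d, hd⟩ := J_pow_eq_one.dvd_choose p N i hp (Nat.pos_of_ne_zero hi0)
        (lt_of_le_of_lt hi hc)
      have h1 := hA (u ^ i * (d : A))
      rw [nsmul_eq_mul] at h1
      rw [hd, one_pow, mul_one]
      push_cast at h1 ⊢
      rw [← h1, ← mul_assoc, ← mul_assoc]
      congr 1
      exact ((Nat.cast_commute p (u ^ i)).pow_left N).eq.symm
  · intro h
    exact absurd (Finset.mem_range.2 (Nat.succ_pos _)) h

end Pool.Agent.Helper252_Cover
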