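import Pool.Agent.Helper252_Cover.Defs

set_option autoImplicit false

open scoped commutatorElement

namespace Pool.Agent.Helper252_Cover

/-
PROOF OF THE TARGET.
Show u - v ∈ Φ.F k for all 1 <= k <= c+1 by induction. If u - v ∈ F k: 0 = lg u - lg v = (iv 1) • (u - v) + Σ_{i=2}^c ± iv i • (u^i - v^i) and u^i - v^i = Σ_{a+b=i-1} u^a (u - v) v^b ∈ F (k+1) for i >= 2 (u^a ∈ F a, v^b ∈ F b, a + b >= 1, Φ.mul, Φ.anti). So (iv p N 1) • (u-v) ∈ F (k+1) and iv p N 1 ≡ 1 mod p^N, p^N • x = 0, so u - v ∈ F (k+1). F (c+1) = ⊥.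
-/

namespace J_lg_inj

variable {A : Type} [Ring A] {c : ℕ} (Φ : Filt A c)

theorem anti' {i j : ℕ} (h : i ≤ j) : Φ.F j ≤ Φ.F i := by
  induction h with
  | refl => exact le_rfl
  | step _ ih => exact (Φ.anti _).trans ih

theorem pow_mem' {u : A} (hu : u ∈ Φ.F 1) (a : ℕ) : u ^ a ∈ Φ.F a := by
  induction a with
  | zero => rw [Φ.top]; exact AddSubgroup.mem_top _
  | succ a ih => rw [pow_succ]; exact Φ.mul a 1 _ _ ih hu

theorem diff_mem {u v : A} (hu : u ∈ Φ.F 1) (hv : v ∈ Φ.F 1) {k : ℕ} (h : u - v ∈ Φ.F k) (i : ℕ) :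
    u ^ (i + 2) - v ^ (i + 2) ∈ Φ.F (k + 1) := by
  induction i with
  | zero =>
    have e : u ^ (0 + 2) - v ^ (0 + 2) = u * (u - v) + (u - v) * v := by
      rw [zero_add, pow_two, pow_two]; noncomm_ring
    rw [e]
    refine AddSubgroup.add_mem _ ?_ (Φ.mul k 1 _ _ h hv)
    have := Φ.mul 1 k _ _ hu h
    rwa [add_comm 1 k] at this
  | succ i ih =>
    have e : u ^ (i + 1 + 2) - v ^ (i + 1 + 2) = u ^ (i + 2) * (u - v) +
        (u ^ (i + 2) - v ^ (i + 2)) * v + (v ^ (i + 2) * v - v ^ (i + 1 + 2)) +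
        (u ^ (i + 1 + 2) - u ^ (i + 2) * u) := by
      noncomm_ring
    have e1 : v ^ (i + 2) * v - v ^ (i + 1 + 2) = 0 := by
      rw [← pow_succ, show i + 1 + 2 = i + 2 + 1 by ring, sub_self]
    have e2 : u ^ (i + 1 + 2) - u ^ (i + 2) * u = 0 := by
      rw [← pow_succ, show i + 1 + 2 = i + 2 + 1 by ring, sub_self]
    rw [e, e1, e2, add_zero, add_zero]
    refine AddSubgroup.add_mem _ ?_ ?_
    · exact anti' Φ (by omega) (Φ.mul (i + 2) k _ _ (pow_mem' Φ hu _) h)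
    · exact anti' Φ (by omega) (Φ.mul (k + 1) 1 _ _ ih hv)

theorem iv_one (p N : ℕ) (hA : ∀ x : A, (p ^ N) • x = 0) (x : A) : iv p N 1 • x = x := by
  have h1 := Int.gcd_eq_gcd_ab ((1 : ℕ) : ℤ) ((p ^ N : ℕ) : ℤ)
  have h2 : (Int.gcd ((1 : ℕ) : ℤ) ((p ^ N : ℕ) : ℤ) : ℤ) = 1 := by
    rw [Int.gcd_natCast_natCast]; simp
  rw [h2] at h1
  have h3 : iv p N 1 = 1 - Int.gcdB ((1 : ℕ) : ℤ) ((p ^ N : ℕ) : ℤ) * ((p ^ N : ℕ) : ℤ) := by
    have h4 : iv p N 1 = Int.gcdA ((1 : ℕ) : ℤ) ((p ^ N : ℕ) : ℤ) := rfl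
    rw [h4]
    push_cast at h1 ⊢
    linarith
  rw [h3, sub_smul, one_smul, mul_smul, natCast_zsmul, hA, smul_zero, sub_zero]

theorem step (p N : ℕ) (hA : ∀ x : A, (p ^ N) • x = 0) {u v : A} (hu : u ∈ Φ.F 1) (hv : v ∈ Φ.F 1)
    (hc : 1 ≤ c) (h : lg p N c u = lg p N c v) {k : ℕ} (hk : u - v ∈ Φ.F k) : u - v ∈ Φ.F (k + 1) := by
  have h1 : ∑ i ∈ Finset.Icc 1 c, ((-1 : ℤ) ^ (i + 1) * iv p N i) • (u ^ i - v ^ i) = 0 := by
    simp only [smul_sub, Finset.sum_sub_distrib]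
    exact sub_eq_zero.2 h
  rw [← Finset.add_sum_erase _ _ (Finset.mem_Icc.2 ⟨le_rfl, hc⟩)] at h1
  have h2 : ((-1 : ℤ) ^ (1 + 1) * iv p N 1) • (u ^ 1 - v ^ 1) = u - v := by
    rw [show ((-1 : ℤ) ^ (1 + 1)) = 1 by norm_num, one_mul, pow_one, pow_one, iv_one p N hA]
  rw [h2] at h1
  rw [eq_neg_of_add_eq_zero_left h1]
  refine AddSubgroup.neg_mem _ (AddSubgroup.sum_mem _ fun i hi => AddSubgroup.zsmul_mem _ ?_ _)
  rw [Finset.mem_erase, Finset.mem_Icc] at hi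
  obtain ⟨j, rfl⟩ : ∃ j, i = j + 2 := ⟨i - 2, by omega⟩
  exact diff_mem Φ hu hv hk j

end J_lg_inj

/-- TARGET -/
theorem lg_inj {A : Type} [Ring A] {c : ℕ} (Φ : Filt A c) (p N : ℕ) (hp : p.Prime) (hc : c < p)
    (hA : ∀ x : A, (p ^ N) • x = 0) (u v : A) (hu : u ∈ Φ.F 1) (hv : v ∈ Φ.F 1)
    (h : lg p N c u = lg p N c v) : u = v := by
  have key : ∀ k : ℕ, k ≤ c + 1 → u - v ∈ Φ.F k := by
    intro k
    induction k with
    | zero => intro _; rw [Φ.top]; exact AddSubgroup.mem_top _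
    | succ k ih =>
      intro hk
      rcases Nat.eq_zero_or_pos c with h0 | h0
      · have hk0 : k = 0 := by omega
        subst hk0
        exact AddSubgroup.sub_mem _ hu hv
      · exact J_lg_inj.step Φ p N hA hu hv h0 h (ih (by omega))
  have h1 := key (c + 1) le_rfl
  rw [Φ.bot, AddSubgroup.mem_bot] at h1
  exact sub_eq_zero.1 h1

end Pool.Agent.Helper252_Cover
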