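import Pool.Agent.Helper252_Cover.C02_coeff_mul
import Pool.Agent.Helper252_Cover.C03_coeff_mono
import Pool.Agent.Helper252_Cover.C04_pow_coeff

set_option autoImplicit false

open scoped commutatorElement

namespace Pool.Agent.Helper252_Cover

/-
PROOF OF THE TARGET.
Induction on D: tp g t (D+1) = tp g t D * (g (D+1))^(t^(D+1)); (g j : A) = 1 + u_j with u_j ∈ F 1, u_j^(c+1) ∈ F (c+1) = ⊥. pow_coeff gives coefficients of degree c j, constant term 1 and linear term lg u_1 for j = 1, 0 for j >= 2. coeff_mul adds degrees: c (1 + 2 + ... + D) <= c D D; the linear coefficient of a product of polynomials with constant term 1 is the sum. coeff_mono to enlarge the degree.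
For the inverse: (tp g t (D+1))⁻¹ = ((g (D+1))⁻¹)^(t^(D+1)) * (tp g t D)⁻¹ and (g j)⁻¹ = 1 + u'_j with u'_j = -(g j)⁻¹ u_j ∈ F 1 (Φ.top, Φ.mul).
-/

namespace J_tp_coeff

theorem pow_mem {A : Type} [Ring A] {c : ℕ} (Φ : Filt A c) {u : A} (hu : u ∈ Φ.F 1) (k : ℕ) :
    u ^ k ∈ Φ.F k := by
  induction k with
  | zero => rw [Φ.top]; exact AddSubgroup.mem_top _
  | succ k ih => rw [pow_succ]; exact Φ.mul k 1 _ _ ih hu

theorem pow_zero' {A : Type} [Ring A] {c : ℕ} (Φ : Filt A c) {u : A} (hu : u ∈ Φ.F 1) :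
    u ^ (c + 1) = 0 := by
  have := pow_mem Φ hu (c + 1)
  rw [Φ.bot] at this
  exact (AddSubgroup.mem_bot).1 this

theorem inv_mem {A : Type} [Ring A] {c : ℕ} (Φ : Filt A c) (g : Aˣ) (hg : (g : A) - 1 ∈ Φ.F 1) :
    ((g⁻¹ : Aˣ) : A) - 1 ∈ Φ.F 1 := by
  have e : ((g⁻¹ : Aˣ) : A) - 1 = -(((g⁻¹ : Aˣ) : A) * ((g : A) - 1)) := by
    rw [mul_sub, Units.inv_mul, mul_one]
    abel
  rw [e]
  apply AddSubgroup.neg_mem
  have := Φ.mul 0 1 ((g⁻¹ : Aˣ) : A) ((g : A) - 1) (by rw [Φ.top]; exact AddSubgroup.mem_top _) hg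
  simpa using this

theorem one_fac {A : Type} [Ring A] {c : ℕ} (Φ : Filt A c) (p N : ℕ) (hp : p.Prime) (hc : c < p)
    (hc1 : 1 ≤ c) (hA : ∀ x : A, (p ^ N) • x = 0) (g : Aˣ) (hg : (g : A) - 1 ∈ Φ.F 1) (j : ℕ)
    (hj : 1 ≤ j) : ∃ a : ℕ → A, HasCoeff (c * j) a (fun t => (g : A) ^ (t ^ j)) ∧ a 0 = 1 ∧
      a 1 = if j = 1 then lg p N c ((g : A) - 1) else 0 := by
  have := pow_coeff p N c hp hc hc1 hA ((g : A) - 1) (pow_zero' Φ hg) j hj
  simpa using this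

end J_tp_coeff

/-- TARGET -/
theorem tp_coeff {A : Type} [Ring A] {c : ℕ} (Φ : Filt A c) (p N : ℕ) (hp : p.Prime) (hc : c < p)
    (hc1 : 1 ≤ c) (hA : ∀ x : A, (p ^ N) • x = 0) (g : ℕ → Aˣ)
    (hg : ∀ j, ((g j : Aˣ) : A) - 1 ∈ Φ.F 1) (D : ℕ) (hD : 1 ≤ D) :
    ∃ a b : ℕ → A, HasCoeff (c * D * D) a (fun t => ((tp g t D : Aˣ) : A)) ∧ a 0 = 1 ∧
      a 1 = lg p N c (((g 1 : Aˣ) : A) - 1) ∧
      HasCoeff (c * D * D) b (fun t => (((tp g t D)⁻¹ : Aˣ) : A)) ∧ b 0 = 1 := by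
  induction D, hD using Nat.le_induction with
  | base =>
    obtain ⟨a, ha, ha0, ha1⟩ := J_tp_coeff.one_fac Φ p N hp hc hc1 hA (g 1) (hg 1) 1 le_rfl
    obtain ⟨b, hb, hb0, -⟩ := J_tp_coeff.one_fac Φ p N hp hc hc1 hA (g 1)⁻¹
      (J_tp_coeff.inv_mem Φ _ (hg 1)) 1 le_rfl
    refine ⟨a, b, ?_, ha0, by simpa using ha1, ?_, hb0⟩
    · intro t
      have := ha t
      simpa [tp] using this
    · intro t
      have := hb t
      simpa [tp] using this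
  | succ D hD ih =>
    obtain ⟨a, b, ha, ha0, ha1, hb, hb0⟩ := ih
    obtain ⟨a', ha', ha0', ha1'⟩ := J_tp_coeff.one_fac Φ p N hp hc hc1 hA (g (D + 1))
      (hg (D + 1)) (D + 1) (by omega)
    obtain ⟨b', hb', hb0', -⟩ := J_tp_coeff.one_fac Φ p N hp hc hc1 hA (g (D + 1))⁻¹
      (J_tp_coeff.inv_mem Φ _ (hg (D + 1))) (D + 1) (by omega)
    have h1 : 1 ≤ c * D * D := Nat.mul_pos (Nat.mul_pos hc1 hD) hD
    have h2 : 1 ≤ c * (D + 1) := Nat.mul_pos hc1 (by omega)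
    obtain ⟨r, hr, hr0, hr1⟩ := coeff_mul _ _ h1 h2 a a' _ _ ha ha'
    obtain ⟨s, hs, hs0, -⟩ := coeff_mul _ _ h2 h1 b' b _ _ hb' hb
    have h3 : c * D * D + c * (D + 1) ≤ c * (D + 1) * (D + 1) := by nlinarith
    have h4 : c * (D + 1) + c * D * D ≤ c * (D + 1) * (D + 1) := by nlinarith
    obtain ⟨r', hr', hr0', hr1'⟩ := coeff_mono _ _ (by omega) h3 _ _ hr
    obtain ⟨s', hs', hs0', -⟩ := coeff_mono _ _ (by omega) h4 _ _ hs
    refine ⟨r', s', ?_, ?_, ?_, ?_, ?_⟩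
    · intro t
      rw [← hr' t]
      simp [tp]
    · rw [hr0', hr0, ha0, ha0', one_mul]
    · rw [hr1', hr1, ha0, ha0', ha1, ha1', if_neg (by omega)]
      simp
    · intro t
      rw [← hs' t]
      simp [tp, mul_inv_rev]
    · rw [hs0', hs0, hb0, hb0', one_mul]

end Pool.Agent.Helper252_Cover
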