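import Pool.Agent.Helper252_Cover.C01_coeff_mem
import Pool.Agent.Helper252_Cover.C02_coeff_mul
import Pool.Agent.Helper252_Cover.C03_coeff_mono
import Pool.Agent.Helper252_Cover.C07_tp_coeff

set_option autoImplicit false

open scoped commutatorElement

namespace Pool.Agent.Helper252_Cover

/-
PROOF OF THE TARGET.
Let D_1 = 1, D_(k+1) = c D_k^2 + D₀ + c, D = D_(c+1) (so c < D, D_k <= D). Claim by induction on k (1 <= k <= c+1): there are g j ∈ G (all j) with φ(t) - tp g t D_k ∈ F k (as elements of A) for all t. k = 1: g = 1, φ(t) - 1 ∈ F 1.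
Step: let χ(t) = (tp g t D_k)⁻¹ φ(t) ∈ G, χ(t) - 1 = (tp g t D_k)⁻¹ (φ t - tp g t D_k) ∈ F k. By tp_coeff and coeff_mul χ has coefficients b of degree E = c D_k^2 + D₀ (<= D_(k+1) < p), and b 0 = χ(0) = 1. coeff_mem applied to χ - 1 (coefficients b with b 0 replaced by 0): b_j ∈ F k for j >= 1.
Let C = {x ∈ F k | ∃ g ∈ G, (g : A) - 1 - x ∈ F (k+1)}: an additive subgroup (gh - 1 = (g-1) + (h-1) + (g-1)(h-1), where (g-1)(h-1) ∈ F (2k) ≤ F (k+1) when g - 1, h - 1 ∈ F k; inverse similar: g⁻¹ - 1 = -(g-1) + g⁻¹ (g-1)^2). χ(t) - 1 ∈ C, so by coeff_mem b_j ∈ C for 1 <= j <= E: there is u_j ∈ G with u_j - 1 - b_j ∈ F (k+1), so u_j - 1 ∈ F k.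
Put g'_j = g_j u_j for 1 <= j <= D_(k+1), where g_j := 1 for j > D_k and u_j := 1 for j > E, g'_0 = 1. Elements 1 + y with y ∈ F k commute with every h such that h - 1 ∈ F 1 modulo F (k+1), so tp g' t D_(k+1) ≡ tp g t D_k * ∏_j u_j^(t^j) ≡ tp g t D_k * (1 + Σ_j t^j • b_j) = tp g t D_k * χ(t) = φ(t) modulo F (k+1)
(u_j^s ≡ 1 + s • b_j). For k = c+1: F (c+1) = ⊥. Note 0 < ... the statement only needs D < p. Note also that changing g_j for j > D_k to 1 does not change tp g t D_k, and tp g t D' = tp g t D_k for D' >= D_k then.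
-/

namespace J_taylor

lemma Fle {A : Type} [Ring A] {c : ℕ} (Φ : Filt A c) {i j : ℕ} (h : i ≤ j) : Φ.F j ≤ Φ.F i :=
  antitone_nat_of_succ_le Φ.anti h

lemma exists_quot {A : Type} [Ring A] (I : AddSubgroup A) (hl : ∀ x y, y ∈ I → x * y ∈ I)
    (hr : ∀ x y, x ∈ I → x * y ∈ I) :
    ∃ (B : Type) (_ : Ring B) (π : A →+* B), ∀ x y, π x = π y ↔ x - y ∈ I := by
  let J : TwoSidedIdeal A := TwoSidedIdeal.mk' (I : Set A) I.zero_mem (fun hx hy => I.add_mem hx hy)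
    (fun hx => I.neg_mem hx) (fun {x y} hy => hl x y hy) (fun {x y} hx => hr x y hx)
  refine ⟨J.ringCon.Quotient, inferInstance, J.ringCon.mk', fun x y => ?_⟩
  have h1 : J.ringCon.mk' x = J.ringCon.mk' y ↔ J.ringCon x y := RingCon.eq _
  rw [h1, TwoSidedIdeal.rel_iff]
  exact TwoSidedIdeal.mem_mk' _ _ _ _ _ _ _

lemma pow_one_add {B : Type} [Ring B] (g b : B) (h1 : g * b = b) (h2 : b * g = b)
    (h3 : b * b = 0) (s : ℕ) : (g * (1 + b)) ^ s = g ^ s + s • b := by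
  have h4 : ∀ s : ℕ, g ^ s * b = b := by
    intro s
    induction s with
    | zero => simp
    | succ s ih => rw [pow_succ, mul_assoc, h1, ih]
  induction s with
  | zero => simp
  | succ s ih =>
    rw [pow_succ, ih, mul_add, mul_one, h1, add_mul, mul_add, mul_add, h4, smul_mul_assoc,
      smul_mul_assoc, h2, h3, smul_zero, add_zero, add_smul, one_smul, pow_succ]
    abel

lemma tp_mem {G : Type} [Group G] (H : Subgroup G) (g : ℕ → G) (hg : ∀ j, g j ∈ H) (t : ℕ) :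
    ∀ D, tp g t D ∈ H := by
  intro D
  induction D with
  | zero => exact H.one_mem
  | succ D ih => exact H.mul_mem ih (H.pow_mem (hg _) _)

lemma tp_zero {G : Type} [Group G] (g : ℕ → G) : ∀ D, tp g 0 D = 1 := by
  intro D
  induction D with
  | zero => rfl
  | succ D ih =>
    show tp g 0 D * g (D + 1) ^ (0 ^ (D + 1)) = 1
    rw [ih, zero_pow (by omega), pow_zero, one_mul]

lemma tp_one {G : Type} [Group G] (t : ℕ) : ∀ D, tp (fun _ => (1 : G)) t D = 1 := by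
  intro D
  induction D with
  | zero => rfl
  | succ D ih =>
    show tp (fun _ => (1 : G)) t D * (1 : G) ^ (t ^ (D + 1)) = 1
    rw [ih, one_pow, one_mul]

lemma tp_trunc {G : Type} [Group G] (g : ℕ → G) (t D₁ : ℕ) :
    ∀ D, D₁ ≤ D → tp (fun j => if j ≤ D₁ then g j else 1) t D = tp g t D₁ := by
  have h1 : ∀ D, D ≤ D₁ → tp (fun j => if j ≤ D₁ then g j else 1) t D = tp g t D := by
    intro D hD
    induction D with
    | zero => rfl
    | succ D ih =>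
      show tp _ t D * (if D + 1 ≤ D₁ then g (D + 1) else 1) ^ (t ^ (D + 1)) =
        tp g t D * g (D + 1) ^ (t ^ (D + 1))
      rw [ih (by omega), if_pos hD]
  intro D hD
  induction D, hD using Nat.le_induction with
  | base => exact h1 _ le_rfl
  | succ D hD ih =>
    show tp _ t D * (if D + 1 ≤ D₁ then g (D + 1) else 1) ^ (t ^ (D + 1)) = tp g t D₁
    rw [ih, if_neg (by omega), one_pow, mul_one]

/-- the multiplication step modulo an ideal -/
lemma tp_mod {A B : Type} [Ring A] [Ring B] (π : A →+* B) (g u : ℕ → Aˣ) (b : ℕ → B)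
    (h1 : ∀ i j, π (g i : A) * b j = b j) (h2 : ∀ i j, b j * π (g i : A) = b j)
    (h3 : ∀ i j, b i * b j = 0) (h4 : ∀ j, π (u j : A) = 1 + b j) (t : ℕ) :
    ∀ D, π (tp (fun j => g j * u j) t D : Aˣ) =
      π (tp g t D : Aˣ) + ∑ j ∈ Finset.Icc 1 D, (t ^ j) • b j := by
  have h5 : ∀ D j, π (tp g t D : Aˣ) * b j = b j := by
    intro D j
    induction D with
    | zero => simp [tp]
    | succ D ih =>
      have e : tp g t (D + 1) = tp g t D * g (D + 1) ^ (t ^ (D + 1)) := rfl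
      have h6 : ∀ s : ℕ, π (g (D + 1) : A) ^ s * b j = b j := by
        intro s
        induction s with
        | zero => simp
        | succ s ih => rw [pow_succ, mul_assoc, h1, ih]
      rw [e]
      push_cast
      rw [map_mul, map_pow, mul_assoc, h6, ih]
  intro D
  induction D with
  | zero => simp [tp]
  | succ D ih =>
    have e1 : tp (fun j => g j * u j) t (D + 1) =
      tp (fun j => g j * u j) t D * (g (D + 1) * u (D + 1)) ^ (t ^ (D + 1)) := rfl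
    have e2 : tp g t (D + 1) = tp g t D * g (D + 1) ^ (t ^ (D + 1)) := rfl
    have h6 : ∀ s : ℕ, (∑ j ∈ Finset.Icc 1 D, (t ^ j) • b j) * π (g (D + 1) : A) ^ s =
        ∑ j ∈ Finset.Icc 1 D, (t ^ j) • b j := by
      intro s
      induction s with
      | zero => simp
      | succ s ih =>
        rw [pow_succ, ← mul_assoc, ih, Finset.sum_mul]
        apply Finset.sum_congr rfl
        intro j _
        rw [smul_mul_assoc, h2]
    have h7 : (∑ j ∈ Finset.Icc 1 D, (t ^ j) • b j) * b (D + 1) = 0 := by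
      rw [Finset.sum_mul]
      apply Finset.sum_eq_zero
      intro j _
      rw [smul_mul_assoc, h3, smul_zero]
    rw [e1, e2]
    push_cast
    rw [map_mul, map_mul, map_pow, map_pow, map_mul, ih, h4,
      pow_one_add _ _ (h1 _ _) (h2 _ _) (h3 _ _), add_mul, mul_add, mul_add, mul_smul_comm,
      mul_smul_comm, h5, h6, h7, smul_zero, add_zero, Finset.sum_Icc_succ_top (by omega)]
    abel

/-- The leading terms of elements of `G` in `F (k + 1)`. -/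
def lead {A : Type} [Ring A] {c : ℕ} (Φ : Filt A c) (G : Subgroup Aˣ) (k : ℕ) : AddSubgroup A where
  carrier := {x | x ∈ Φ.F (k + 1) ∧ ∃ g ∈ G, ((g : Aˣ) : A) - 1 - x ∈ Φ.F (k + 2)}
  zero_mem' := ⟨(Φ.F _).zero_mem, 1, G.one_mem, by simp⟩
  add_mem' := by
    rintro x y ⟨hx, g, hg, hgx⟩ ⟨hy, h, hh, hhy⟩
    refine ⟨(Φ.F _).add_mem hx hy, g * h, G.mul_mem hg hh, ?_⟩
    have h1 : (g : A) - 1 ∈ Φ.F (k + 1) := by
      have := (Φ.F (k + 1)).add_mem (Fle Φ (by omega) hgx : _ ∈ Φ.F (k + 1)) hx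
      simpa using this
    have h2 : (h : A) - 1 ∈ Φ.F (k + 1) := by
      have := (Φ.F (k + 1)).add_mem (Fle Φ (by omega) hhy : _ ∈ Φ.F (k + 1)) hy
      simpa using this
    have h3 : ((g : A) - 1) * ((h : A) - 1) ∈ Φ.F (k + 2) :=
      Fle Φ (by omega) (Φ.mul _ _ _ _ h1 h2)
    have e : ((g * h : Aˣ) : A) - 1 - (x + y) =
        ((g : A) - 1 - x) + ((h : A) - 1 - y) + ((g : A) - 1) * ((h : A) - 1) := by
      push_cast
      noncomm_ring
    rw [e]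
    exact (Φ.F _).add_mem ((Φ.F _).add_mem hgx hhy) h3
  neg_mem' := by
    rintro x ⟨hx, g, hg, hgx⟩
    refine ⟨(Φ.F _).neg_mem hx, g⁻¹, G.inv_mem hg, ?_⟩
    have h1 : (g : A) - 1 ∈ Φ.F (k + 1) := by
      have := (Φ.F (k + 1)).add_mem (Fle Φ (by omega) hgx : _ ∈ Φ.F (k + 1)) hx
      simpa using this
    have h3 : ((g : A) - 1) * ((g : A) - 1) ∈ Φ.F (k + 2) :=
      Fle Φ (by omega) (Φ.mul _ _ _ _ h1 h1)
    have h4 : ((g⁻¹ : Aˣ) : A) * (((g : A) - 1) * ((g : A) - 1)) ∈ Φ.F (k + 2) := by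
      have h5 : ((g⁻¹ : Aˣ) : A) ∈ Φ.F 0 := by rw [Φ.top]; trivial
      have := Φ.mul _ _ _ _ h5 h3
      simpa using this
    have e0 : ((g⁻¹ : Aˣ) : A) * (g : A) = 1 := Units.inv_mul g
    have e : ((g⁻¹ : Aˣ) : A) - 1 - (-x) =
        -((g : A) - 1 - x) + ((g⁻¹ : Aˣ) : A) * (((g : A) - 1) * ((g : A) - 1)) := by
      have e1 : ((g⁻¹ : Aˣ) : A) * (((g : A) - 1) * ((g : A) - 1)) =
          (((g⁻¹ : Aˣ) : A) * (g : A)) * (g : A) - ((g⁻¹ : Aˣ) : A) * (g : A) -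
          ((g⁻¹ : Aˣ) : A) * (g : A) + ((g⁻¹ : Aˣ) : A) := by noncomm_ring
      rw [e1, e0]
      noncomm_ring
    rw [e]
    exact (Φ.F _).add_mem ((Φ.F _).neg_mem hgx) h4

def Dk (c D₀ : ℕ) : ℕ → ℕ
  | 0 => 1
  | k + 1 => c * Dk c D₀ k * Dk c D₀ k + D₀ + c

lemma Dk_pos (c D₀ : ℕ) (hc1 : 1 ≤ c) : ∀ k, 1 ≤ Dk c D₀ k := by
  intro k
  induction k with
  | zero => exact le_rfl
  | succ k ih => show 1 ≤ c * Dk c D₀ k * Dk c D₀ k + D₀ + c; omega

lemma Dk_mono (c D₀ : ℕ) (hc1 : 1 ≤ c) (k : ℕ) : Dk c D₀ k ≤ Dk c D₀ (k + 1) := by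
  show Dk c D₀ k ≤ c * Dk c D₀ k * Dk c D₀ k + D₀ + c
  have h := Dk_pos c D₀ hc1 k
  have h1 : 1 * Dk c D₀ k ≤ (c * Dk c D₀ k) * Dk c D₀ k := by
    apply Nat.mul_le_mul_right
    calc 1 = 1 * 1 := rfl
      _ ≤ c * Dk c D₀ k := Nat.mul_le_mul hc1 h
  omega

lemma step {A : Type} [Ring A] {c D₀ : ℕ} (hc1 : 1 ≤ c) (hD₀ : 1 ≤ D₀) (p N : ℕ) (hp : p.Prime)
    (Φ : Filt A c) (hA : ∀ x : A, (p ^ N) • x = 0) (G : Subgroup Aˣ)
    (hG : ∀ g ∈ G, ((g : Aˣ) : A) - 1 ∈ Φ.F 1)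
    (φ : ℕ → Aˣ) (a : ℕ → A) (ha : HasCoeff D₀ a (fun t => ((φ t : Aˣ) : A))) (hφ0 : φ 0 = 1)
    (hφ : ∀ t, φ t ∈ G) (k : ℕ) (hcp : c < p) (hDp : Dk c D₀ (k + 1) < p)
    (g : ℕ → Aˣ) (hg : ∀ j, g j ∈ G)
    (hgt : ∀ t, (φ t : A) - ((tp g t (Dk c D₀ k) : Aˣ) : A) ∈ Φ.F (k + 1)) :
    ∃ g' : ℕ → Aˣ, (∀ j, g' j ∈ G) ∧
      ∀ t, (φ t : A) - ((tp g' t (Dk c D₀ (k + 1)) : Aˣ) : A) ∈ Φ.F (k + 2) := by
  have hDk1 := Dk_pos c D₀ hc1 k
  have hmono := Dk_mono c D₀ hc1 k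
  obtain ⟨D₁, hD₁⟩ : ∃ D₁, D₁ = Dk c D₀ k := ⟨_, rfl⟩
  have hD₂ : Dk c D₀ (k + 1) = c * D₁ * D₁ + D₀ + c := by rw [hD₁]; rfl
  rw [← hD₁] at hDk1 hmono hgt
  obtain ⟨D₂, hD₂'⟩ : ∃ D₂, D₂ = Dk c D₀ (k + 1) := ⟨_, rfl⟩
  rw [← hD₂'] at hD₂ hDp hmono ⊢
  have hgF : ∀ j, ((g j : Aˣ) : A) - 1 ∈ Φ.F 1 := fun j => hG _ (hg j)
  obtain ⟨a', b', _, _, _, hb', _⟩ := tp_coeff Φ p N hp hcp hc1 hA g hgF D₁ hDk1
  have hpos : 1 ≤ c * D₁ * D₁ := by
    have : 1 * 1 * 1 ≤ c * D₁ * D₁ := Nat.mul_le_mul (Nat.mul_le_mul hc1 hDk1) hDk1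
    simpa using this
  obtain ⟨b, hb, _, _⟩ := coeff_mul (c * D₁ * D₁) D₀ hpos hD₀ b' a _ _ hb' ha
  obtain ⟨E, hE⟩ : ∃ E, E = c * D₁ * D₁ + D₀ := ⟨_, rfl⟩
  rw [← hE] at hb
  have hED : E ≤ D₂ := by omega
  -- the function χ
  let χ : ℕ → Aˣ := fun t => (tp g t D₁)⁻¹ * φ t
  have hχG : ∀ t, χ t ∈ G := fun t => G.mul_mem (G.inv_mem (tp_mem G g hg t D₁)) (hφ t)
  have hχb : ∀ t, (χ t : A) = ∑ j ∈ Finset.range (E + 1), (t ^ j) • b j := by
    intro t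
    have := hb t
    simpa [χ] using this
  have hχ0 : χ 0 = 1 := by simp [χ, tp_zero, hφ0]
  have hb0 : b 0 = 1 := by
    have h := hχb 0
    rw [hχ0, Finset.sum_range_succ'] at h
    have h2 : ∑ j ∈ Finset.range E, (0 ^ (j + 1)) • b (j + 1) = 0 := by
      apply Finset.sum_eq_zero
      intro j _
      rw [zero_pow (by omega), zero_smul]
    rw [h2] at h
    simpa using h.symm
  have hχF : ∀ t, (χ t : A) - 1 ∈ Φ.F (k + 1) := by
    intro t
    have e : (χ t : A) - 1 =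
        (((tp g t D₁)⁻¹ : Aˣ) : A) * ((φ t : A) - ((tp g t D₁ : Aˣ) : A)) := by
      rw [mul_sub, Units.inv_mul]
      simp [χ]
    rw [e]
    have h5 : (((tp g t D₁)⁻¹ : Aˣ) : A) ∈ Φ.F 0 := by rw [Φ.top]; trivial
    have := Φ.mul _ _ _ _ h5 (hgt t)
    simpa using this
  -- coefficients
  let bb : ℕ → A := fun j => if j = 0 ∨ E < j then 0 else b j
  have hbb : HasCoeff E bb (fun t => (χ t : A) - 1) := by
    intro t
    show (χ t : A) - 1 = _
    rw [hχb t, Finset.sum_range_succ', Finset.sum_range_succ', hb0]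
    have e1 : bb 0 = 0 := by simp [bb]
    rw [e1, smul_zero, add_zero, pow_zero, one_smul, add_sub_cancel_right]
    apply Finset.sum_congr rfl
    intro j hj
    have hj' := Finset.mem_range.mp hj
    have e2 : bb (j + 1) = b (j + 1) := by
      simp only [bb]
      rw [if_neg (by omega)]
    rw [e2]
  have hC : ∀ t, (χ t : A) - 1 ∈ lead Φ G k := by
    intro t
    refine ⟨hχF t, χ t, hχG t, ?_⟩
    rw [sub_self]
    exact (Φ.F _).zero_mem
  have hmem : ∀ j, bb j ∈ lead Φ G k := by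
    intro j
    by_cases hj : j ≤ E
    · exact coeff_mem p N E hp (by omega) hA (lead Φ G k) bb _ hbb hC j hj
    · have : bb j = 0 := by simp only [bb]; rw [if_pos (by omega)]
      rw [this]
      exact (lead Φ G k).zero_mem
  have hbbF : ∀ j, bb j ∈ Φ.F (k + 1) := fun j => (hmem j).1
  choose u hu huF using fun j => (hmem j).2
  -- the quotient
  obtain ⟨B, _, π, hπ⟩ := exists_quot (Φ.F (k + 2))
    (fun x y hy => by
      have h5 : x ∈ Φ.F 0 := by rw [Φ.top]; trivial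
      have := Φ.mul _ _ _ _ h5 hy
      simpa using this)
    (fun x y hx => by
      have h5 : y ∈ Φ.F 0 := by rw [Φ.top]; trivial
      have := Φ.mul _ _ _ _ hx h5
      simpa using this)
  have hπ0 : ∀ x, x ∈ Φ.F (k + 2) → π x = 0 := by
    intro x hx
    have := (hπ x 0).mpr (by simpa using hx)
    simpa using this
  let g₁ : ℕ → Aˣ := fun j => if j ≤ D₁ then g j else 1
  have hg₁ : ∀ j, g₁ j ∈ G := by
    intro j
    simp only [g₁]
    split_ifs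
    · exact hg j
    · exact G.one_mem
  have k1 : ∀ x ∈ G, ∀ j, π ((x : Aˣ) : A) * π (bb j) = π (bb j) := by
    intro x hx j
    have h6 := hπ0 _ (Fle Φ (by omega : k + 2 ≤ 1 + (k + 1)) (Φ.mul _ _ _ _ (hG x hx) (hbbF j)))
    rw [map_mul, map_sub, map_one, sub_mul, one_mul, sub_eq_zero] at h6
    exact h6
  have k2 : ∀ x ∈ G, ∀ j, π (bb j) * π ((x : Aˣ) : A) = π (bb j) := by
    intro x hx j
    have h6 := hπ0 _ (Fle Φ (by omega : k + 2 ≤ (k + 1) + 1) (Φ.mul _ _ _ _ (hbbF j) (hG x hx)))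
    rw [map_mul, map_sub, map_one, mul_sub, mul_one, sub_eq_zero] at h6
    exact h6
  have k3 : ∀ i j, π (bb i) * π (bb j) = 0 := by
    intro i j
    have h6 := hπ0 _ (Fle Φ (by omega : k + 2 ≤ (k + 1) + (k + 1))
      (Φ.mul _ _ _ _ (hbbF i) (hbbF j)))
    rw [map_mul] at h6
    exact h6
  have k4 : ∀ j, π ((u j : Aˣ) : A) = 1 + π (bb j) := by
    intro j
    have h6 := hπ0 _ (huF j)
    rw [map_sub, map_sub, map_one, sub_eq_zero, sub_eq_iff_eq_add] at h6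
    rw [h6, add_comm]
  refine ⟨fun j => g₁ j * u j, fun j => G.mul_mem (hg₁ j) (hu j), fun t => ?_⟩
  rw [← hπ]
  rw [tp_mod π g₁ u (fun j => π (bb j)) (fun i j => k1 _ (hg₁ i) j) (fun i j => k2 _ (hg₁ i) j)
    k3 k4 t D₂]
  have e1 : tp g₁ t D₂ = tp g t D₁ := tp_trunc g t D₁ D₂ hmono
  rw [e1]
  have e2 : (φ t : A) = ((tp g t D₁ : Aˣ) : A) * (χ t : A) := by
    simp [χ]
  have e3 : π (χ t : A) = 1 + ∑ j ∈ Finset.Icc 1 D₂, (t ^ j) • π (bb j) := by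
    have h7 := hbb t
    have h8 : (χ t : A) = 1 + ∑ j ∈ Finset.range (E + 1), (t ^ j) • bb j := by
      rw [← h7]
      exact (add_sub_cancel _ _).symm
    rw [h8, map_add, map_one, map_sum, Finset.sum_range_succ']
    have e4 : bb 0 = 0 := by simp [bb]
    rw [e4, smul_zero, map_zero, add_zero]
    congr 1
    have e5 : ∑ j ∈ Finset.Icc 1 D₂, (t ^ j) • π (bb j) =
        ∑ j ∈ Finset.range D₂, (t ^ (j + 1)) • π (bb (j + 1)) := by
      rw [Finset.range_eq_Ico, Finset.sum_Ico_add' (fun j => (t ^ j) • π (bb j)) 0 D₂ 1]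
      apply Finset.sum_congr _ (fun _ _ => rfl)
      ext j
      simp only [Finset.mem_Icc, Finset.mem_Ico]
      omega
    rw [e5]
    have e6 : ∑ j ∈ Finset.range D₂, (t ^ (j + 1)) • π (bb (j + 1)) =
        ∑ j ∈ Finset.range E, (t ^ (j + 1)) • π (bb (j + 1)) := by
      symm
      apply Finset.sum_subset
      · intro j hj
        simp only [Finset.mem_range] at hj ⊢
        omega
      · intro j _ hj
        have : bb (j + 1) = 0 := by
          simp only [bb, Finset.mem_range] at hj ⊢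
          rw [if_pos (by omega)]
        rw [this, map_zero, smul_zero]
    rw [e6]
    apply Finset.sum_congr rfl
    intro j _
    rw [map_nsmul]
  rw [e2, map_mul, e3, mul_add, mul_one, Finset.mul_sum]
  congr 1
  apply Finset.sum_congr rfl
  intro j _
  rw [mul_smul_comm, k1 _ (tp_mem G g hg t D₁) j]

end J_taylor

/-- TARGET -/
theorem taylor (c D₀ : ℕ) (hc1 : 1 ≤ c) (hD₀ : 1 ≤ D₀) : ∃ D : ℕ, 1 ≤ D ∧
    ∀ (p N : ℕ), p.Prime → D < p → ∀ (A : Type) [Ring A] (Φ : Filt A c),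
    (∀ x : A, (p ^ N) • x = 0) → ∀ (G : Subgroup Aˣ), (∀ g ∈ G, ((g : Aˣ) : A) - 1 ∈ Φ.F 1) →
    ∀ (φ : ℕ → Aˣ) (a : ℕ → A), HasCoeff D₀ a (fun t => ((φ t : Aˣ) : A)) → φ 0 = 1 →
    (∀ t, φ t ∈ G) → ∃ g : ℕ → Aˣ, (∀ j, g j ∈ G) ∧ ∀ t, φ t = tp g t D := by
  refine ⟨J_taylor.Dk c D₀ c, J_taylor.Dk_pos c D₀ hc1 c, ?_⟩
  intro p N hp hDp A _ Φ hA G hG φ a ha hφ0 hφ
  have hmono : Monotone (J_taylor.Dk c D₀) := monotone_nat_of_le_succ (J_taylor.Dk_mono c D₀ hc1)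
  have hcp : c < p := by
    obtain ⟨c', rfl⟩ : ∃ c', c = c' + 1 := ⟨c - 1, by omega⟩
    have e : J_taylor.Dk (c' + 1) D₀ (c' + 1) = (c' + 1) * J_taylor.Dk (c' + 1) D₀ c' *
      J_taylor.Dk (c' + 1) D₀ c' + D₀ + (c' + 1) := rfl
    omega
  have key : ∀ k, k ≤ c → ∃ g : ℕ → Aˣ, (∀ j, g j ∈ G) ∧
      ∀ t, (φ t : A) - ((tp g t (J_taylor.Dk c D₀ k) : Aˣ) : A) ∈ Φ.F (k + 1) := by
    intro k
    induction k with
    | zero =>
      intro _
      refine ⟨fun _ => 1, fun _ => G.one_mem, fun t => ?_⟩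
      rw [J_taylor.tp_one]
      simpa using hG _ (hφ t)
    | succ k ih =>
      intro hk
      obtain ⟨g, hg, hgt⟩ := ih (by omega)
      exact J_taylor.step hc1 hD₀ p N hp Φ hA G hG φ a ha hφ0 hφ k hcp
        (lt_of_le_of_lt (hmono hk) hDp) g hg hgt
  obtain ⟨g, hg, hgt⟩ := key c le_rfl
  refine ⟨g, hg, fun t => ?_⟩
  have h := hgt t
  rw [Φ.bot, AddSubgroup.mem_bot, sub_eq_zero] at h
  exact Units.ext h

end Pool.Agent.Helper252_Cover
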