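import Pool.Agent.Helper252_Cover.C01_coeff_mem
import Pool.Agent.Helper252_Cover.C02_coeff_mul
import Pool.Agent.Helper252_Cover.C03_coeff_mono
import Pool.Agent.Helper252_Cover.C04_pow_coeff
import Pool.Agent.Helper252_Cover.C07_tp_coeff
import Pool.Agent.Helper252_Cover.C08_taylor

set_option autoImplicit false

open scoped commutatorElement

namespace Pool.Agent.Helper252_Cover

namespace J_lg_add

theorem coeff_unique {A : Type} [AddCommGroup A] (p N D : ℕ) (hp : p.Prime) (hD : D < p)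
    (hA : ∀ x : A, (p ^ N) • x = 0) (a b f : ℕ → A) (ha : HasCoeff D a f)
    (hb : HasCoeff D b f) (j : ℕ) (hj : j ≤ D) : a j = b j := by
  have h0 : HasCoeff D (fun j => a j - b j) (fun _ => 0) := by
    intro t
    have h1 := ha t
    have h2 := hb t
    have : ∑ j ∈ Finset.range (D + 1), (t ^ j) • (a j - b j)
        = ∑ j ∈ Finset.range (D + 1), (t ^ j) • a j
          - ∑ j ∈ Finset.range (D + 1), (t ^ j) • b j := by
      rw [← Finset.sum_sub_distrib]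
      refine Finset.sum_congr rfl (fun i _ => ?_)
      rw [smul_sub]
    show (0 : A) = ∑ j ∈ Finset.range (D + 1), (t ^ j) • (a j - b j)
    rw [this, ← h1, ← h2, sub_self]
  have h := coeff_mem p N D hp hD hA (⊥ : AddSubgroup A) (fun j => a j - b j) (fun _ => 0) h0
    (fun t => AddSubgroup.mem_bot.mpr rfl) j hj
  have h' : a j - b j = 0 := AddSubgroup.mem_bot.mp h
  exact sub_eq_zero.mp h'

theorem pow_mem {A : Type} [Ring A] {c : ℕ} (Φ : Filt A c) (u : A) (hu : u ∈ Φ.F 1) :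
    ∀ n : ℕ, u ^ n ∈ Φ.F n := by
  intro n
  induction n with
  | zero =>
    rw [Φ.top]
    exact AddSubgroup.mem_top _
  | succ n ih =>
    rw [pow_succ]
    exact Φ.mul n 1 _ _ ih hu

theorem pow_zero' {A : Type} [Ring A] {c : ℕ} (Φ : Filt A c) (u : A) (hu : u ∈ Φ.F 1) :
    u ^ (c + 1) = 0 := by
  have h := pow_mem Φ u hu (c + 1)
  rw [Φ.bot] at h
  exact AddSubgroup.mem_bot.mp h

theorem unit_coeff {A : Type} [Ring A] {c : ℕ} (Φ : Filt A c) (p N : ℕ) (hp : p.Prime)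
    (hc : c < p) (hc1 : 1 ≤ c) (hA : ∀ x : A, (p ^ N) • x = 0) (g : Aˣ)
    (hg : ((g : Aˣ) : A) - 1 ∈ Φ.F 1) :
    ∃ a : ℕ → A, HasCoeff c a (fun t => ((g ^ t : Aˣ) : A)) ∧ a 0 = 1 ∧
      a 1 = lg p N c (((g : Aˣ) : A) - 1) := by
  obtain ⟨a, h1, h2, h3⟩ := pow_coeff p N c hp hc hc1 hA (((g : Aˣ) : A) - 1)
    (pow_zero' Φ _ hg) 1 le_rfl
  refine ⟨a, ?_, h2, ?_⟩
  · intro t
    have := h1 t
    simp only [mul_one, pow_one, add_sub_cancel] at this
    simpa using this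
  · simpa using h3

/-- The product formula: `lg (k - 1) = lg (g - 1) + lg (h - 1)` for some `k ∈ G`, where `D` is
the constant of the theorem `taylor`. -/
theorem key (c D : ℕ) (hc1 : 1 ≤ c) (hD : 1 ≤ D)
    (T : ∀ (p N : ℕ), p.Prime → D < p → ∀ (A : Type) [Ring A] (Φ : Filt A c),
      (∀ x : A, (p ^ N) • x = 0) → ∀ (G : Subgroup Aˣ), (∀ g ∈ G, ((g : Aˣ) : A) - 1 ∈ Φ.F 1) →
      ∀ (φ : ℕ → Aˣ) (a : ℕ → A), HasCoeff (2 * c) a (fun t => ((φ t : Aˣ) : A)) → φ 0 = 1 →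
      (∀ t, φ t ∈ G) → ∃ g : ℕ → Aˣ, (∀ j, g j ∈ G) ∧ ∀ t, φ t = tp g t D)
    (p N : ℕ) (hp : p.Prime) (hp1 : D < p) (hp2 : c * D * D < p) (hp3 : 2 * c < p)
    (A : Type) [Ring A] (Φ : Filt A c) (hA : ∀ x : A, (p ^ N) • x = 0)
    (G : Subgroup Aˣ) (hG : ∀ g ∈ G, ((g : Aˣ) : A) - 1 ∈ Φ.F 1) (g : Aˣ) (hg : g ∈ G)
    (h : Aˣ) (hh : h ∈ G) :
    ∃ k ∈ G, lg p N c (((k : Aˣ) : A) - 1) =
      lg p N c (((g : Aˣ) : A) - 1) + lg p N c (((h : Aˣ) : A) - 1) := by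
  have hcp : c < p := by omega
  obtain ⟨a, ha, ha0, ha1⟩ := unit_coeff Φ p N hp hcp hc1 hA g (hG g hg)
  obtain ⟨b, hb, hb0, hb1⟩ := unit_coeff Φ p N hp hcp hc1 hA h (hG h hh)
  obtain ⟨e, he, he0, he1⟩ := coeff_mul c c hc1 hc1 a b _ _ ha hb
  have he' : HasCoeff (2 * c) e (fun t => ((g ^ t * h ^ t : Aˣ) : A)) := by
    intro t
    have := he t
    rw [two_mul]
    rw [← this]
    push_cast
    rfl
  obtain ⟨k, hk, hkt⟩ := T p N hp hp1 A Φ hA G hG (fun t => g ^ t * h ^ t) e he' (by simp)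
    (fun t => G.mul_mem (G.pow_mem hg t) (G.pow_mem hh t))
  obtain ⟨u, v, hu, hu0, hu1, -, -⟩ := tp_coeff Φ p N hp hcp hc1 hA k (fun j => hG _ (hk j)) D hD
  have hu' : HasCoeff (c * D * D) u (fun t => ((g ^ t * h ^ t : Aˣ) : A)) := by
    intro t
    have h1 := hu t
    have h2 : g ^ t * h ^ t = tp k t D := hkt t
    show ((g ^ t * h ^ t : Aˣ) : A) = _
    rw [h2]
    exact h1
  have hE1 : 1 ≤ c * D * D := Nat.mul_pos (Nat.mul_pos hc1 hD) hD
  obtain ⟨r, hr, hr0, hr1⟩ := coeff_mono (2 * c) (max (2 * c) (c * D * D)) (by omega)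
    (le_max_left _ _) e _ he'
  obtain ⟨s, hs, hs0, hs1⟩ := coeff_mono (c * D * D) (max (2 * c) (c * D * D)) hE1
    (le_max_right _ _) u _ hu'
  have hEp : max (2 * c) (c * D * D) < p := max_lt hp3 hp2
  have hrs := coeff_unique p N _ hp hEp hA r s _ hr hs 1
    (le_trans (by omega : 1 ≤ 2 * c) (le_max_left _ _))
  refine ⟨k 1, hk 1, ?_⟩
  rw [← hu1, ← hs1, ← hrs, hr1, he1, ha0, hb0, ha1, hb1, one_mul, mul_one, add_comm]

end J_lg_add

/-- TARGET -/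
theorem lg_add (c : ℕ) (hc1 : 1 ≤ c) : ∃ K : ℕ, c ≤ K ∧ ∀ (p N : ℕ), p.Prime → K < p →
    ∀ (A : Type) [Ring A] (Φ : Filt A c), (∀ x : A, (p ^ N) • x = 0) →
    ∀ (G : Subgroup Aˣ), (∀ g ∈ G, ((g : Aˣ) : A) - 1 ∈ Φ.F 1) → ∀ g ∈ G, ∀ h ∈ G,
    ∃ k ∈ G, lg p N c (((k : Aˣ) : A) - 1) =
      lg p N c (((g : Aˣ) : A) - 1) - lg p N c (((h : Aˣ) : A) - 1) := by
  obtain ⟨D, hD, T⟩ := taylor c (2 * c) hc1 (by omega)
  refine ⟨max D (max (c * D * D) (2 * c)), ?_, ?_⟩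
  · exact le_trans (by omega : c ≤ 2 * c) (le_trans (le_max_right _ _) (le_max_right _ _))
  · intro p N hp hK A _ Φ hA G hG g hg h hh
    have hp1 : D < p := lt_of_le_of_lt (le_max_left _ _) hK
    have hp2 : c * D * D < p :=
      lt_of_le_of_lt (le_trans (le_max_left _ _) (le_max_right _ _)) hK
    have hp3 : 2 * c < p :=
      lt_of_le_of_lt (le_trans (le_max_right _ _) (le_max_right _ _)) hK
    have hcp : c < p := by omega
    -- the additive inverse: `lg (h⁻¹ - 1) = - lg (h - 1)`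
    have hinv : lg p N c (((h : Aˣ) : A) - 1) + lg p N c (((h⁻¹ : Aˣ) : A) - 1) = 0 := by
      obtain ⟨a, ha, ha0, ha1⟩ := J_lg_add.unit_coeff Φ p N hp hcp hc1 hA h (hG h hh)
      obtain ⟨b, hb, hb0, hb1⟩ := J_lg_add.unit_coeff Φ p N hp hcp hc1 hA h⁻¹
        (hG _ (G.inv_mem hh))
      obtain ⟨e, he, he0, he1⟩ := coeff_mul c c hc1 hc1 a b _ _ ha hb
      have hz : HasCoeff (c + c) (fun j => if j = 0 then (1 : A) else 0)
          (fun t => ((h ^ t : Aˣ) : A) * ((h⁻¹ ^ t : Aˣ) : A)) := by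
        intro t
        show ((h ^ t : Aˣ) : A) * ((h⁻¹ ^ t : Aˣ) : A)
          = ∑ j ∈ Finset.range (c + c + 1), (t ^ j) • (if j = 0 then (1 : A) else 0)
        rw [← Units.val_mul, ← (Commute.refl h).inv_right.mul_pow t, mul_inv_cancel, one_pow,
          Units.val_one]
        rw [Finset.sum_eq_single_of_mem 0 (Finset.mem_range.mpr (Nat.succ_pos _))]
        · simp
        · intro j _ hj
          simp [hj]
      have := J_lg_add.coeff_unique p N (c + c) hp (by omega) hA e _ _ he hz 1 (by omega)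
      rw [he1, ha0, hb0, ha1, hb1, one_mul, mul_one] at this
      simp only [one_ne_zero, if_false] at this
      rw [add_comm]
      exact this
    obtain ⟨k, hk, hk'⟩ := J_lg_add.key c D hc1 hD T p N hp hp1 hp2 hp3 A Φ hA G hG g hg h⁻¹
      (G.inv_mem hh)
    refine ⟨k, hk, ?_⟩
    rw [hk', eq_neg_of_add_eq_zero_right hinv]
    exact (sub_eq_add_neg _ _).symm

end Pool.Agent.Helper252_Cover
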