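import Pool.Agent.Helper252_Cover.Defs

set_option autoImplicit false

open scoped commutatorElement

namespace Pool.Agent.Helper252_Cover

/-
PROOF OF THE TARGET.
Let W = {l : List (Fin n) // l.length <= c} (finite) and let M = (W → ZMod q) (or W →₀ ZMod q) be the free module on W. Let A be the subring of Module.End (ZMod q) M (or of matrices over W) of the f such that for every word w the coefficient of v in f(w) is 0 unless |v| >= |w|. F k = {f | for every word w the coefficient of v in f(w) is 0 unless |v| >= |w| + k}. F 0 = ⊤, F (c+1) = ⊥, multiplicative. X i : w ↦ w ++ [i] if |w| < c, 0 if |w| = c.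
Then mon X b applied to the empty word is the word b when |b| <= c: mon X (i :: l) = mon X l * X i and X i [] = [i], and inductively mon X l (w) = w ++ l (when the length is <= c). cf a f = the coefficient of a in f([]) for |a| <= c (0 otherwise). cf_word, cf_F follow. q • x = 0. |A| <= |matrices| = q^(|W|^2), B = |W|^2. (For matrices: entry (v,w) = coefficient of v in f(w); A = subring of matrices with entry (v,w) = 0 unless |v| >= |w|; A as a type is a subtype.)
-/

namespace J_exists_free

/-- Words of length at most `c`. -/
abbrev Wd (n c : ℕ) : Type := {l : List (Fin n) // l.length ≤ c}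

theorem finite_wd (n c : ℕ) : Finite (Wd n c) :=
  (List.finite_length_le (Fin n) c).to_subtype

noncomputable instance (n c : ℕ) : Fintype (Wd n c) :=
  @Fintype.ofFinite _ (finite_wd n c)

/-- Matrices which do not shorten words. -/
noncomputable def S (q n c : ℕ) : Subring (Matrix (Wd n c) (Wd n c) (ZMod q)) where
  carrier := {M | ∀ v w, M v w ≠ 0 → w.1.length ≤ v.1.length}
  one_mem' := by
    intro v w h
    by_cases hvw : v = w
    · rw [hvw]
    · exact absurd (Matrix.one_apply_ne hvw) h
  mul_mem' := by
    intro M N hM hN v w h
    rw [Matrix.mul_apply] at h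
    obtain ⟨u, -, hu⟩ := Finset.exists_ne_zero_of_sum_ne_zero h
    exact (hN u w (right_ne_zero_of_mul hu)).trans (hM v u (left_ne_zero_of_mul hu))
  zero_mem' := by
    intro v w h
    exact absurd rfl h
  add_mem' := by
    intro M N hM hN v w h
    rw [Matrix.add_apply] at h
    by_cases h1 : M v w = 0
    · rw [h1, zero_add] at h
      exact hN v w h
    · exact hM v w h1
  neg_mem' := by
    intro M hM v w h
    rw [Matrix.neg_apply] at h
    exact hM v w (fun h0 => h (by rw [h0, neg_zero]))

theorem mem_S {q n c : ℕ} (M : S q n c) (v w : Wd n c) (h : M.1 v w ≠ 0) :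
    w.1.length ≤ v.1.length := M.2 v w h

/-- The filtration by the increase of the length. -/
noncomputable def Fk (q n c k : ℕ) : AddSubgroup (S q n c) where
  carrier := {M | ∀ v w, M.1 v w ≠ 0 → w.1.length + k ≤ v.1.length}
  zero_mem' := by
    intro v w h
    exact absurd rfl h
  add_mem' := by
    intro M N hM hN v w h
    have h' : M.1 v w + N.1 v w ≠ 0 := h
    by_cases h1 : M.1 v w = 0
    · rw [h1, zero_add] at h'
      exact hN v w h'
    · exact hM v w h1
  neg_mem' := by
    intro M hM v w h
    have h' : -(M.1 v w) ≠ 0 := h
    exact hM v w (fun h0 => h' (by rw [h0, neg_zero]))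

theorem mem_Fk {q n c k : ℕ} {M : S q n c} :
    M ∈ Fk q n c k ↔ ∀ v w, M.1 v w ≠ 0 → w.1.length + k ≤ v.1.length := Iff.rfl

/-- The filtration. -/
noncomputable def Ph (q n c : ℕ) : Filt (S q n c) c where
  F := Fk q n c
  anti := by
    intro i M hM v w h
    have := hM v w h
    omega
  top := by
    ext M
    simp only [AddSubgroup.mem_top, iff_true]
    intro v w h
    have := mem_S M v w h
    omega
  mul := by
    intro i j M N hM hN v w h
    have h' : (M.1 * N.1) v w ≠ 0 := h
    rw [Matrix.mul_apply] at h'
    obtain ⟨u, -, hu⟩ := Finset.exists_ne_zero_of_sum_ne_zero h'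
    have h1 := hN u w (right_ne_zero_of_mul hu)
    have h2 := hM v u (left_ne_zero_of_mul hu)
    omega
  bot := by
    ext M
    rw [AddSubgroup.mem_bot]
    constructor
    · intro hM
      apply Subtype.ext
      ext v w
      by_contra h
      have h1 := hM v w h
      have h2 := v.2
      omega
    · rintro rfl
      exact (Fk q n c (c + 1)).zero_mem

/-- Appending a letter. -/
noncomputable def Xm (q n c : ℕ) (i : Fin n) : S q n c :=
  ⟨fun v w => if v.1 = w.1 ++ [i] then 1 else 0, by
    intro v w h
    by_cases hvw : v.1 = w.1 ++ [i]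
    · rw [hvw, List.length_append]
      omega
    · exact absurd (if_neg hvw) h⟩

theorem Xm_apply (q n c : ℕ) (i : Fin n) (v w : Wd n c) :
    (Xm q n c i).1 v w = if v.1 = w.1 ++ [i] then 1 else 0 := rfl

theorem mon_apply (q n c : ℕ) (l : List (Fin n)) (v w : Wd n c) :
    (mon (Xm q n c) l).1 v w = if v.1 = w.1 ++ l then 1 else 0 := by
  induction l generalizing w with
  | nil =>
    change (1 : Matrix (Wd n c) (Wd n c) (ZMod q)) v w = _
    rw [Matrix.one_apply, List.append_nil]
    by_cases h : v = w
    · rw [if_pos h, if_pos (congrArg Subtype.val h)]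
    · rw [if_neg h, if_neg (fun h' => h (Subtype.ext h'))]
  | cons i l ih =>
    change ((mon (Xm q n c) l).1 * (Xm q n c i).1) v w = _
    rw [Matrix.mul_apply]
    by_cases hw : (w.1 ++ [i]).length ≤ c
    · rw [Finset.sum_eq_single (⟨w.1 ++ [i], hw⟩ : Wd n c)]
      · rw [ih, Xm_apply, if_pos rfl, mul_one]
        simp only [List.append_assoc, List.singleton_append]
      · intro u _ hu
        rw [Xm_apply, if_neg (fun h => hu (Subtype.ext h)), mul_zero]
      · intro h
        exact absurd (Finset.mem_univ _) h
    · rw [Finset.sum_eq_zero, if_neg]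
      · intro h
        have h1 := v.2
        rw [h] at h1
        apply hw
        simp only [List.length_append, List.length_cons, List.length_nil] at h1 ⊢
        omega
      · intro u _
        rw [Xm_apply, if_neg, mul_zero]
        intro h
        apply hw
        rw [← h]
        exact u.2

end J_exists_free

/-- TARGET -/
theorem exists_free (n c : ℕ) : ∃ B : ℕ, ∀ q : ℕ, 2 ≤ q → ∃ (A : Type) (_ : Ring A)
    (Φ : Filt A c) (X : Fin n → A), Nonempty (IsFree q n c A Φ X) ∧ (∀ x : A, q • x = 0) ∧
      Finite A ∧ Nat.card A ≤ q ^ B := by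
  refine ⟨Fintype.card (J_exists_free.Wd n c) * Fintype.card (J_exists_free.Wd n c), ?_⟩
  intro q hq
  have hq0 : NeZero q := ⟨by omega⟩
  have hfin : Finite (Matrix (J_exists_free.Wd n c) (J_exists_free.Wd n c) (ZMod q)) := by
    unfold Matrix
    infer_instance
  refine ⟨J_exists_free.S q n c, inferInstance, J_exists_free.Ph q n c, J_exists_free.Xm q n c,
    ⟨?_⟩, ?_, inferInstance, ?_⟩
  · refine
      { mem := ?_
        cf := fun a =>
          { toFun := fun M => if h : a.length ≤ c then M.1 ⟨a, h⟩ ⟨[], Nat.zero_le _⟩ else 0
            map_zero' := by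
              split_ifs
              · rfl
              · rfl
            map_add' := by
              intro M N
              split_ifs
              · rfl
              · rw [add_zero] }
        cf_word := ?_
        cf_F := ?_ }
    · intro i v w h
      by_cases hvw : v.1 = w.1 ++ [i]
      · rw [hvw, List.length_append]
        simp
      · exact absurd (if_neg hvw) h
    · intro a b hab ha
      simp only [AddMonoidHom.coe_mk, ZeroHom.coe_mk]
      rw [dif_pos ha, J_exists_free.mon_apply]
      simp only [List.nil_append]
    · intro a ha x hx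
      simp only [AddMonoidHom.coe_mk, ZeroHom.coe_mk]
      rw [dif_pos ha]
      by_contra h
      have h1 := hx ⟨a, ha⟩ ⟨[], Nat.zero_le _⟩ h
      simp only [List.length_nil] at h1
      omega
  · intro x
    apply Subtype.ext
    ext v w
    change ((q • x : J_exists_free.S q n c).1) v w = 0
    have h1 : ((q • x : J_exists_free.S q n c).1) = q • x.1 := rfl
    rw [h1, Matrix.smul_apply, nsmul_eq_mul, ZMod.natCast_self, zero_mul]
  · calc Nat.card (J_exists_free.S q n c)
        ≤ Nat.card (Matrix (J_exists_free.Wd n c) (J_exists_free.Wd n c) (ZMod q)) :=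
          Nat.card_le_card_of_injective Subtype.val Subtype.val_injective
      _ = q ^ (Fintype.card (J_exists_free.Wd n c) * Fintype.card (J_exists_free.Wd n c)) := by
          unfold Matrix
          rw [Nat.card_fun, Nat.card_fun, Nat.card_zmod, Nat.card_eq_fintype_card, ← pow_mul]

end Pool.Agent.Helper252_Cover
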