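import Pool.Agent.Helper252_Cover.Defs

set_option autoImplicit false

open scoped commutatorElement

namespace Pool.Agent.Helper252_Cover

/-
PROOF OF THE TARGET.
Standard: [γ_i, γ_j] <= γ_(i+j) by induction on j with the three subgroups lemma (Subgroup.commutator_commutator_le_of_... / commutator_commutator_eq_bot_of_rotate in the quotient; look for existing lemmas on Subgroup.lowerCentralSeries in Mathlib.GroupTheory.Nilpotent). gm G 0 = ⊤, gm G (k+1) = ⁅gm G k, ⊤⁆.
-/

namespace J_gm_comm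

theorem three_sub {G : Type} [Group G] (N H1 H2 H3 : Subgroup G) [N.Normal]
    (h1 : ⁅⁅H2, H3⁆, H1⁆ ≤ N) (h2 : ⁅⁅H3, H1⁆, H2⁆ ≤ N) : ⁅⁅H1, H2⁆, H3⁆ ≤ N := by
  have key : ∀ H : Subgroup G, H ≤ N ↔ H.map (QuotientGroup.mk' N) = ⊥ := by
    intro H
    rw [Subgroup.map_eq_bot_iff, QuotientGroup.ker_mk']
  rw [key] at h1 h2 ⊢
  simp only [Subgroup.map_commutator] at h1 h2 ⊢
  exact Subgroup.commutator_commutator_eq_bot_of_rotate h1 h2

theorem gm_succ (G : Type) [Group G] (k : ℕ) : gm G (k + 1) = ⁅gm G k, (⊤ : Subgroup G)⁆ :=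
  Subgroup.lowerCentralSeries_succ _ _

end J_gm_comm

/-- TARGET -/
theorem gm_comm (G : Type) [Group G] (i j : ℕ) : ⁅gm G i, gm G j⁆ ≤ gm G (i + j + 1) := by
  induction j generalizing i with
  | zero =>
    rw [Nat.add_zero, J_gm_comm.gm_succ G i]
    exact Subgroup.commutator_mono le_rfl le_top
  | succ j ih =>
    rw [Subgroup.commutator_comm, J_gm_comm.gm_succ G j]
    refine J_gm_comm.three_sub _ (gm G j) ⊤ (gm G i) ?_ ?_
    · rw [Subgroup.commutator_comm (⊤ : Subgroup G), ← J_gm_comm.gm_succ G i]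
      have h := ih (i + 1)
      have e : i + 1 + j + 1 = i + (j + 1) + 1 := by omega
      rwa [e] at h
    · have h := Subgroup.commutator_mono (ih i) (le_refl (⊤ : Subgroup G))
      rw [← J_gm_comm.gm_succ G (i + j + 1)] at h
      exact h

end Pool.Agent.Helper252_Cover
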