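import Pool.Agent.Helper252_Cover.C11_gm_comm

set_option autoImplicit false

open scoped commutatorElement

namespace Pool.Agent.Helper252_Cover

namespace J_gm_gen

theorem lc_mem {G : Type} [Group G] {n : ℕ} (x : Fin n → G) :
    ∀ (a : List (Fin n)) (k : ℕ), a.length = k + 1 → lc x a ∈ gm G k
  | [], k, h => by simp at h
  | [i], k, h => by
      have hk : k = 0 := by simpa using h.symm
      subst hk
      exact Subgroup.mem_top _
  | i :: j :: l, k, h => by
      obtain ⟨m, rfl⟩ : ∃ m, k = m + 1 := ⟨l.length, by simp at h; omega⟩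
      have h1 : (j :: l).length = m + 1 := by simp at h ⊢; omega
      have h2 := lc_mem x (j :: l) m h1
      exact Subgroup.commutator_mem_commutator h2 (Subgroup.mem_top _)

theorem comm_le {G : Type} [Group G] (N K : Subgroup G) [N.Normal] (S T : Set G)
    (hT : Subgroup.closure T = ⊤) (hK : K ≤ Subgroup.closure S)
    (h : ∀ s ∈ S, ∀ t ∈ T, ⁅s, t⁆ ∈ N) : ⁅K, (⊤ : Subgroup G)⁆ ≤ N := by
  have key : ∀ a b : G, ⁅a, b⁆ ∈ N ↔
      (QuotientGroup.mk' N a) * (QuotientGroup.mk' N b) =
        (QuotientGroup.mk' N b) * (QuotientGroup.mk' N a) := by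
    intro a b
    rw [← commutatorElement_eq_one_iff_mul_comm, ← map_commutatorElement,
      QuotientGroup.mk'_apply, QuotientGroup.eq_one_iff]
  have h1 : ∀ t ∈ T, ∀ y ∈ K, ⁅y, t⁆ ∈ N := by
    intro t ht y hy
    have hle : Subgroup.closure S ≤
        (Subgroup.centralizer {QuotientGroup.mk' N t}).comap (QuotientGroup.mk' N) := by
      rw [Subgroup.closure_le]
      intro s hs
      rw [SetLike.mem_coe, Subgroup.mem_comap, Subgroup.mem_centralizer_iff]
      intro z hz
      rw [Set.mem_singleton_iff] at hz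
      subst hz
      exact ((key s t).1 (h s hs t ht)).symm
    have h2 := hle (hK hy)
    rw [Subgroup.mem_comap, Subgroup.mem_centralizer_iff] at h2
    exact (key y t).2 (h2 _ rfl).symm
  rw [Subgroup.commutator_le]
  intro y hy g _
  have hle : Subgroup.closure T ≤
      (Subgroup.centralizer {QuotientGroup.mk' N y}).comap (QuotientGroup.mk' N) := by
    rw [Subgroup.closure_le]
    intro t ht
    rw [SetLike.mem_coe, Subgroup.mem_comap, Subgroup.mem_centralizer_iff]
    intro z hz
    rw [Set.mem_singleton_iff] at hz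
    subst hz
    exact (key y t).1 (h1 t ht y hy)
  have h2 : g ∈ Subgroup.closure T := by rw [hT]; exact Subgroup.mem_top _
  have h3 := hle h2
  rw [Subgroup.mem_comap, Subgroup.mem_centralizer_iff] at h3
  exact (key y g).2 (h3 _ rfl)

theorem gm_succ_le (G : Type) [Group G] (k : ℕ) : gm G (k + 1) ≤ gm G k :=
  Subgroup.lowerCentralSeries_antitone (⊤ : Subgroup G) (Nat.le_succ k)

theorem normal_of_between {G : Type} [Group G] (k : ℕ) (N : Subgroup G)
    (h1 : gm G (k + 2) ≤ N) (h2 : N ≤ gm G (k + 1)) : N.Normal := by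
  constructor
  intro c hc g
  have h3 : ⁅c, g⁆ ∈ gm G (k + 2) :=
    Subgroup.commutator_mem_commutator (h2 hc) (Subgroup.mem_top _)
  have h4 : g * c * g⁻¹ = ⁅c, g⁆⁻¹ * c := by
    rw [commutatorElement_def]
    group
  rw [h4]
  exact N.mul_mem (N.inv_mem (h1 h3)) hc

end J_gm_gen

/-- TARGET -/
theorem gm_gen {G : Type} [Group G] {n : ℕ} (x : Fin n → G)
    (hx : Subgroup.closure (Set.range x) = ⊤) (k : ℕ) :
    gm G k ≤ Subgroup.closure {y | ∃ a : List (Fin n), a.length = k + 1 ∧ y = lc x a} ⊔
      gm G (k + 1) := by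
  induction k with
  | zero =>
    refine le_trans ?_ le_sup_left
    refine le_trans le_top ?_
    rw [← hx]
    apply Subgroup.closure_mono
    rintro _ ⟨i, rfl⟩
    exact ⟨[i], rfl, rfl⟩
  | succ k ih =>
    set N : Subgroup G :=
      Subgroup.closure {y | ∃ a : List (Fin n), a.length = k + 1 + 1 ∧ y = lc x a} ⊔
        gm G (k + 1 + 1) with hN
    have h1 : gm G (k + 2) ≤ N := le_sup_right
    have h2 : N ≤ gm G (k + 1) := by
      rw [hN]
      refine sup_le ?_ (J_gm_gen.gm_succ_le G (k + 1))
      rw [Subgroup.closure_le]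
      rintro _ ⟨a, ha, rfl⟩
      exact J_gm_gen.lc_mem x a (k + 1) ha
    have hNn : N.Normal := J_gm_gen.normal_of_between k N h1 h2
    have h3 : gm G k ≤ Subgroup.closure
        ({y | ∃ a : List (Fin n), a.length = k + 1 ∧ y = lc x a} ∪ (gm G (k + 1) : Set G)) := by
      rw [Subgroup.closure_union, Subgroup.closure_eq]
      exact ih
    refine J_gm_gen.comm_le N (gm G k) _ (Set.range x) hx h3 ?_
    rintro s hs _ ⟨i, rfl⟩
    rcases hs with ⟨a, ha, rfl⟩ | hs
    · apply Subgroup.mem_sup_left
      apply Subgroup.subset_closure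
      refine ⟨i :: a, by simp [ha], ?_⟩
      cases a with
      | nil => simp at ha
      | cons j l => rfl
    · exact h1 (Subgroup.commutator_mem_commutator hs (Subgroup.mem_top _))

end Pool.Agent.Helper252_Cover
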