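import Pool.Agent.Helper252_Cover.C11_gm_comm

set_option autoImplicit false

open scoped commutatorElement

namespace Pool.Agent.Helper252_Cover

/-
PROOF OF THE TARGET.
M = Additive of the quotient of gm G (k-1) by (gm G k).subgroupOf (gm G (k-1)) (normal; the quotient is commutative since ⁅gm G (k-1), gm G (k-1)⁆ ≤ gm G k). χ a = class of a if a ∈ gm G (k-1), 0 otherwise.
-/

namespace J_exists_chi

theorem gm_antitone (G : Type) [Group G] {i j : ℕ} (h : i ≤ j) : gm G j ≤ gm G i :=
  Subgroup.lowerCentralSeries_antitone _ h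

instance quot_normal (G : Type) [Group G] (k : ℕ) : ((gm G k).subgroupOf (gm G (k - 1))).Normal := by
  have : (gm G k).Normal := inferInstance
  infer_instance

/-- the quotient is commutative -/
theorem quot_comm (G : Type) [Group G] (k : ℕ) (hk : 1 ≤ k)
    (a b : (gm G (k - 1)) ⧸ ((gm G k).subgroupOf (gm G (k - 1)))) : a * b = b * a := by
  induction a using QuotientGroup.induction_on with
  | H x =>
    induction b using QuotientGroup.induction_on with
    | H y =>
      rw [← QuotientGroup.mk_mul, ← QuotientGroup.mk_mul, QuotientGroup.eq, Subgroup.mem_subgroupOf]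
      have h1 : ⁅((y : G))⁻¹, ((x : G))⁻¹⁆ ∈ gm G k := by
        have h2 : ⁅((y : G))⁻¹, ((x : G))⁻¹⁆ ∈ ⁅gm G (k - 1), gm G (k - 1)⁆ :=
          Subgroup.commutator_mem_commutator (inv_mem y.2) (inv_mem x.2)
        exact gm_antitone G (by omega) (gm_comm G (k - 1) (k - 1) h2)
      have h3 : (((x * y)⁻¹ * (y * x) : gm G (k - 1)) : G) = ⁅((y : G))⁻¹, ((x : G))⁻¹⁆ := by
        rw [commutatorElement_def]
        push_cast
        group
      rw [h3]
      exact h1

end J_exists_chi

/-- TARGET -/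
theorem exists_chi (G : Type) [Group G] (k : ℕ) (hk : 1 ≤ k) :
    ∃ (M : Type) (_ : AddCommGroup M) (χ : G → M), IsChi k χ ∧
      ∀ a ∈ gm G (k - 1), χ a = 0 → a ∈ gm G k := by
  classical
  letI : CommGroup ((gm G (k - 1)) ⧸ ((gm G k).subgroupOf (gm G (k - 1)))) :=
    { (inferInstance : Group ((gm G (k - 1)) ⧸ ((gm G k).subgroupOf (gm G (k - 1))))) with
      mul_comm := J_exists_chi.quot_comm G k hk }
  refine ⟨Additive ((gm G (k - 1)) ⧸ ((gm G k).subgroupOf (gm G (k - 1)))), inferInstance,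
    fun a => if h : a ∈ gm G (k - 1) then
      Additive.ofMul (QuotientGroup.mk (⟨a, h⟩ : gm G (k - 1))) else 0, ⟨?_, ?_⟩, ?_⟩
  · intro a ha b hb
    have hab : a * b ∈ gm G (k - 1) := mul_mem ha hb
    simp only [dif_pos ha, dif_pos hb, dif_pos hab]
    rfl
  · intro a ha
    have ha' : a ∈ gm G (k - 1) := J_exists_chi.gm_antitone G (Nat.sub_le k 1) ha
    simp only [dif_pos ha']
    have h1 : (QuotientGroup.mk (⟨a, ha'⟩ : gm G (k - 1)) :
        (gm G (k - 1)) ⧸ ((gm G k).subgroupOf (gm G (k - 1)))) = 1 := by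
      rw [QuotientGroup.eq_one_iff, Subgroup.mem_subgroupOf]
      exact ha
    rw [h1]
    rfl
  · intro a ha h0
    simp only [dif_pos ha] at h0
    have h1 : (QuotientGroup.mk (⟨a, ha⟩ : gm G (k - 1)) :
        (gm G (k - 1)) ⧸ ((gm G k).subgroupOf (gm G (k - 1)))) = 1 := h0
    rw [QuotientGroup.eq_one_iff, Subgroup.mem_subgroupOf] at h1
    exact h1

end Pool.Agent.Helper252_Cover

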