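import Pool.Agent.Helper252_Cover.Defs

set_option autoImplicit false

open scoped commutatorElement

namespace Pool.Agent.Helper252_Cover

/-
PROOF OF THE TARGET.
Induction following the definition of ex. mon X (i :: b) = mon X b * X i by definition, mon X (b ++ [i]) = X i * mon X b by induction on b. Finsupp.sum_mapDomain_index, Finsupp.sum_sub_index, Finset/Finsupp sums times a ring element; the support of a mapDomain is contained in the image of the support.
-/

namespace J_lw_expand

theorem mon_append {A : Type} [Ring A] {n : ℕ} (X : Fin n → A) (b : List (Fin n)) (i : Fin n) :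
    mon X (b ++ [i]) = X i * mon X b := by
  induction b with
  | nil => simp [mon]
  | cons j l ih =>
    rw [List.cons_append]
    change mon X (l ++ [i]) * X j = X i * (mon X l * X j)
    rw [ih, mul_assoc]

theorem sum_sub' {A : Type} [Ring A] {n : ℕ} (X : Fin n → A) (f g : List (Fin n) →₀ ℤ) :
    (f - g).sum (fun b m => m • mon X b) =
      f.sum (fun b m => m • mon X b) - g.sum (fun b m => m • mon X b) := by
  apply Finsupp.sum_sub_index
  intro a b1 b2
  exact sub_smul b1 b2 (mon X a)

theorem sum_cons {A : Type} [Ring A] {n : ℕ} (X : Fin n → A) (f : List (Fin n) →₀ ℤ) (i : Fin n) :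
    (Finsupp.mapDomain (fun b => i :: b) f).sum (fun b m => m • mon X b) =
      f.sum (fun b m => m • mon X b) * X i := by
  rw [Finsupp.sum_mapDomain_index (by intro b; simp) (by intro b m1 m2; exact add_smul m1 m2 _)]
  unfold Finsupp.sum
  rw [Finset.sum_mul]
  refine Finset.sum_congr rfl fun b _ => ?_
  change f b • (mon X b * X i) = _
  rw [smul_mul_assoc]

theorem sum_snoc {A : Type} [Ring A] {n : ℕ} (X : Fin n → A) (f : List (Fin n) →₀ ℤ) (i : Fin n) :
    (Finsupp.mapDomain (fun b => b ++ [i]) f).sum (fun b m => m • mon X b) =
      X i * f.sum (fun b m => m • mon X b) := by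
  rw [Finsupp.sum_mapDomain_index (by intro b; simp) (by intro b m1 m2; exact add_smul m1 m2 _)]
  unfold Finsupp.sum
  rw [Finset.mul_sum]
  refine Finset.sum_congr rfl fun b _ => ?_
  change f b • mon X (b ++ [i]) = X i * (f b • mon X b)
  rw [mon_append, mul_smul_comm]

end J_lw_expand

open J_lw_expand in
/-- TARGET -/
theorem lw_expand {A : Type} [Ring A] {n : ℕ} (X : Fin n → A) (a : List (Fin n)) :
    lw X a = (ex a).sum (fun b m => m • mon X b) ∧ ∀ b ∈ (ex a).support, b.length = a.length := by
  induction a with
  | nil => simp [lw, ex]
  | cons i t ih =>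
    cases t with
    | nil =>
      constructor
      · simp [lw, ex, mon]
      · intro b hb
        have h1 := Finsupp.support_single_subset hb
        rw [Finset.mem_singleton] at h1
        rw [h1]
    | cons j l =>
      obtain ⟨ih1, ih2⟩ := ih
      constructor
      · change lw X (j :: l) * X i - X i * lw X (j :: l) =
          (Finsupp.mapDomain (fun b => i :: b) (ex (j :: l)) -
            Finsupp.mapDomain (fun b => b ++ [i]) (ex (j :: l))).sum (fun b m => m • mon X b)
        rw [sum_sub', sum_cons, sum_snoc, ih1]
      · intro b hb
        change b ∈ (Finsupp.mapDomain (fun b => i :: b) (ex (j :: l)) -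
            Finsupp.mapDomain (fun b => b ++ [i]) (ex (j :: l))).support at hb
        classical
        have h1 := Finsupp.support_sub hb
        rw [Finset.mem_union] at h1
        rcases h1 with h1 | h1
        · have h2 := Finsupp.mapDomain_support h1
          rw [Finset.mem_image] at h2
          obtain ⟨d, hd, rfl⟩ := h2
          have := ih2 d hd
          simp only [List.length_cons] at this ⊢
          omega
        · have h2 := Finsupp.mapDomain_support h1
          rw [Finset.mem_image] at h2
          obtain ⟨d, hd, rfl⟩ := h2
          have := ih2 d hd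
          simp only [List.length_append, List.length_cons, List.length_nil] at this ⊢
          omega

end Pool.Agent.Helper252_Cover
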