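import Pool.Agent.Helper252_Cover.C11_gm_comm

set_option autoImplicit false

open scoped commutatorElement

namespace Pool.Agent.Helper252_Cover

/-
PROOF OF THE TARGET.
For v ∈ G and a list b define lcv v [] = v, lcv v (i :: l) = ⁅lcv v l, x i⁆. Then lc x (i :: b) = ⁅lc x b, x i⁆ for b ≠ [], lc x (b ++ [i]) = lcv (x i) b, lcv v (b ++ [i]) = lcv ⁅v, x i⁆ b. lc x b ∈ gm G (|b| - 1) for b ≠ [], lcv v b ∈ gm G (s + |b|) if v ∈ gm G s.
(S) For s >= 0, v ∈ gm G s, a a list of length j >= 1, χ with IsChi (s + 1 + j) χ: (ex a).sum (fun b m => m • χ (lcv v b)) = χ ⁅v, lc x a⁆. Induction on a. a = [i]: both sides are χ ⁅v, x i⁆. a = i :: a' with a' ≠ [], c' = lc x a': by the definition of ex the left side is Σ_b ex(a')(b) • χ(⁅lcv v b, x i⁆) - Σ_b ex(a')(b) • χ(lcv ⁅v, x i⁆ b).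
χ'(y) := χ ⁅y, x i⁆ satisfies IsChi (s + j) χ' (additivity: ⁅y y', x⁆ = (y ⁅y',x⁆ y⁻¹) ⁅y,x⁆ and y ⁅y',x⁆ y⁻¹ = ⁅y,⁅y',x⁆⁆ ⁅y',x⁆ with ⁅y,⁅y',x⁆⁆ deep enough by gm_comm; note s + j >= 1), so by induction the first sum is χ ⁅⁅v,c'⁆, x i⁆ and the second is χ ⁅⁅v,x i⁆, c'⁆; the difference is χ ⁅v, ⁅c', x i⁆⁆ by the Hall-Witt identity modulo gm G (s+1+j):
[[v,c'],x] - [[v,x],c'] = [v,[c',x]] in the associated Lie ring.
Then dynkin by induction on k: k = 1 clear. a = i :: a', a' ≠ []: the sum is Σ_b ex(a')(b) • χ ⁅lc x b, x i⁆ - Σ_b ex(a')(b) • χ (lcv (x i) b) = (k-1) • χ'(lc x a') - χ ⁅x i, lc x a'⁆ (induction for χ' with k - 1, and (S) with v = x i, s = 0) = (k-1) • χ(lc x a) + χ(lc x a), since χ ⁅x i, c'⁆ = - χ ⁅c', x i⁆. (b in the support of ex(a') has length |a'|, so b ≠ [].)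
-/

namespace J_dynkin

theorem anti {G : Type} [Group G] {i j : ℕ} (h : i ≤ j) : gm G j ≤ gm G i :=
  Subgroup.lowerCentralSeries_antitone _ h

theorem cm {G : Type} [Group G] {i j k : ℕ} {a b : G} (ha : a ∈ gm G i) (hb : b ∈ gm G j)
    (h : k ≤ i + j + 1) : ⁅a, b⁆ ∈ gm G k :=
  anti h (gm_comm G i j (Subgroup.commutator_mem_commutator ha hb))

theorem mem0 {G : Type} [Group G] (a : G) : a ∈ gm G 0 := by
  change a ∈ (⊤ : Subgroup G)
  exact Subgroup.mem_top a

section chi

variable {G M : Type} [Group G] [AddCommGroup M] {k : ℕ} {χ : G → M}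

theorem chi_one (hχ : IsChi k χ) : χ 1 = 0 := hχ.zero 1 (Subgroup.one_mem _)

theorem chi_inv (hχ : IsChi k χ) {a : G} (ha : a ∈ gm G (k - 1)) : χ a⁻¹ = - χ a := by
  have h := hχ.add a⁻¹ (Subgroup.inv_mem _ ha) a ha
  rw [inv_mul_cancel, chi_one hχ] at h
  exact eq_neg_of_add_eq_zero_left h.symm

theorem chi_mul_left (hχ : IsChi k χ) {a b : G} (ha : a ∈ gm G k) (hb : b ∈ gm G (k - 1)) :
    χ (a * b) = χ b := by
  rw [hχ.add a (anti (Nat.sub_le _ _) ha) b hb, hχ.zero a ha, zero_add]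

/-- Conjugation does not change the value. -/
theorem chi_conj (hχ : IsChi k χ) {a : G} (g : G) (ha : a ∈ gm G (k - 1)) :
    χ (g * a * g⁻¹) = χ a := by
  have e : g * a * g⁻¹ = ⁅g, a⁆ * a := by
    rw [commutatorElement_def]; group
  rw [e]
  exact chi_mul_left hχ (cm (mem0 g) ha (by omega)) ha

theorem chi_comm_swap (hχ : IsChi k χ) {i j : ℕ} {a b : G} (hk : k ≤ i + j + 2)
    (ha : a ∈ gm G i) (hb : b ∈ gm G j) : χ ⁅b, a⁆ = - χ ⁅a, b⁆ := by
  rw [← commutatorElement_inv a b]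
  exact chi_inv hχ (cm ha hb (by omega))

theorem chi_comm_left (hχ : IsChi k χ) {i j : ℕ} {a a' b : G} (hk : k ≤ i + j + 2)
    (ha : a ∈ gm G i) (ha' : a' ∈ gm G i) (hb : b ∈ gm G j) :
    χ ⁅a * a', b⁆ = χ ⁅a, b⁆ + χ ⁅a', b⁆ := by
  have e : ⁅a * a', b⁆ = (a * ⁅a', b⁆ * a⁻¹) * ⁅a, b⁆ := by
    rw [commutatorElement_def, commutatorElement_def, commutatorElement_def]; group
  have h1 : ⁅a', b⁆ ∈ gm G (k - 1) := cm ha' hb (by omega)
  have h2 : ⁅a, b⁆ ∈ gm G (k - 1) := cm ha hb (by omega)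
  have h3 : a * ⁅a', b⁆ * a⁻¹ ∈ gm G (k - 1) := by
    have e : a * ⁅a', b⁆ * a⁻¹ = ⁅a, ⁅a', b⁆⁆ * ⁅a', b⁆ := by
      rw [commutatorElement_def a]; group
    rw [e]
    exact Subgroup.mul_mem _ (cm (mem0 a) h1 (by omega)) h1
  rw [e, hχ.add _ h3 _ h2, chi_conj hχ a h1, add_comm]

theorem chi_comm_right (hχ : IsChi k χ) {i j : ℕ} {a b b' : G} (hk : k ≤ i + j + 2)
    (ha : a ∈ gm G i) (hb : b ∈ gm G j) (hb' : b' ∈ gm G j) :
    χ ⁅a, b * b'⁆ = χ ⁅a, b⁆ + χ ⁅a, b'⁆ := by
  rw [chi_comm_swap hχ (i := j) (j := i) (by omega) (Subgroup.mul_mem _ hb hb') ha,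
    chi_comm_left hχ (i := j) (j := i) (by omega) hb hb' ha,
    chi_comm_swap hχ (i := j) (j := i) (by omega) hb ha,
    chi_comm_swap hχ (i := j) (j := i) (by omega) hb' ha, neg_add]

theorem chi_comm_inv_left (hχ : IsChi k χ) {i j : ℕ} {a b : G} (hk : k ≤ i + j + 2)
    (ha : a ∈ gm G i) (hb : b ∈ gm G j) : χ ⁅a⁻¹, b⁆ = - χ ⁅a, b⁆ := by
  have h := chi_comm_left hχ hk (Subgroup.inv_mem _ ha) ha hb
  rw [inv_mul_cancel, commutatorElement_one_left, chi_one hχ] at h
  exact eq_neg_of_add_eq_zero_left h.symm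

/-- Conjugating the second entry by `g` does not change the value. -/
theorem chi_comm_conj (hχ : IsChi k χ) {i j : ℕ} {a b : G} (g : G) (hk : k ≤ i + j + 2)
    (ha : a ∈ gm G i) (hb : b ∈ gm G j) : χ ⁅a, g * b * g⁻¹⁆ = χ ⁅a, b⁆ := by
  have e : g * b * g⁻¹ = ⁅g, b⁆ * b := by
    rw [commutatorElement_def]; group
  have h1 : ⁅g, b⁆ ∈ gm G (j + 1) := cm (mem0 g) hb (by omega)
  rw [e, chi_comm_right hχ hk ha (anti (by omega) h1) hb,
    hχ.zero _ (cm ha h1 (by omega)), zero_add]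

theorem hall_witt {x y z : G} :
    ⁅⁅x, y⁆, y * z * y⁻¹⁆ * ⁅⁅y, z⁆, z * x * z⁻¹⁆ * ⁅⁅z, x⁆, x * y * x⁻¹⁆ = 1 := by
  simp only [commutatorElement_def]
  group

/-- The Jacobi identity. -/
theorem jacobi (hχ : IsChi k χ) {s t u : ℕ} {x y z : G} (hk : k ≤ s + t + u + 3)
    (hx : x ∈ gm G s) (hy : y ∈ gm G t) (hz : z ∈ gm G u) :
    χ ⁅⁅x, y⁆, z⁆ + χ ⁅⁅y, z⁆, x⁆ + χ ⁅⁅z, x⁆, y⁆ = 0 := by
  have c1 : ⁅x, y⁆ ∈ gm G (s + t + 1) := cm hx hy le_rfl
  have c2 : ⁅y, z⁆ ∈ gm G (t + u + 1) := cm hy hz le_rfl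
  have c3 : ⁅z, x⁆ ∈ gm G (u + s + 1) := cm hz hx le_rfl
  have cj : ∀ {j : ℕ} (g b : G), b ∈ gm G j → g * b * g⁻¹ ∈ gm G j := by
    intro j g b hb
    have e : g * b * g⁻¹ = ⁅g, b⁆ * b := by
      rw [commutatorElement_def]; group
    rw [e]
    exact Subgroup.mul_mem _ (cm (mem0 g) hb (by omega)) hb
  have m1 : ⁅⁅x, y⁆, y * z * y⁻¹⁆ ∈ gm G (k - 1) := cm c1 (cj y z hz) (by omega)
  have m2 : ⁅⁅y, z⁆, z * x * z⁻¹⁆ ∈ gm G (k - 1) := cm c2 (cj z x hx) (by omega)
  have m3 : ⁅⁅z, x⁆, x * y * x⁻¹⁆ ∈ gm G (k - 1) := cm c3 (cj x y hy) (by omega)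
  have h := congrArg χ (hall_witt (x := x) (y := y) (z := z))
  rw [chi_one hχ, hχ.add _ (Subgroup.mul_mem _ m1 m2) _ m3, hχ.add _ m1 _ m2,
    chi_comm_conj hχ y (by omega) c1 hz, chi_comm_conj hχ z (by omega) c2 hx,
    chi_comm_conj hχ x (by omega) c3 hy] at h
  exact h

theorem jacobi' (hχ : IsChi k χ) {s t u : ℕ} {v c x : G} (hk : k ≤ s + t + u + 3)
    (hv : v ∈ gm G s) (hc : c ∈ gm G t) (hx : x ∈ gm G u) :
    χ ⁅⁅v, c⁆, x⁆ - χ ⁅⁅v, x⁆, c⁆ = χ ⁅v, ⁅c, x⁆⁆ := by
  have h := jacobi hχ hk hv hc hx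
  have c2 : ⁅c, x⁆ ∈ gm G (t + u + 1) := cm hc hx le_rfl
  have c3 : ⁅v, x⁆ ∈ gm G (s + u + 1) := cm hv hx le_rfl
  rw [← commutatorElement_inv v x, chi_comm_inv_left hχ (by omega) c3 hc,
    chi_comm_swap hχ (i := s) (by omega) hv c2] at h
  rw [← sub_eq_zero, ← h]
  abel

theorem chi' (hχ : IsChi (k + 1) χ) (hk : 1 ≤ k) (x : G) : IsChi k (fun y : G => χ ⁅y, x⁆) where
  add a ha b hb := chi_comm_left hχ (i := k - 1) (j := 0) (by omega) ha hb (mem0 x)
  zero a ha := hχ.zero _ (cm ha (mem0 x) (by omega))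

end chi

/-- Left-normed commutators starting with `v`. -/
def lcv {G : Type} [Group G] {n : ℕ} (x : Fin n → G) (v : G) : List (Fin n) → G
  | [] => v
  | i :: l => ⁅lcv x v l, x i⁆

theorem lcv_append {G : Type} [Group G] {n : ℕ} (x : Fin n → G) (v : G) (i : Fin n)
    (b : List (Fin n)) : lcv x v (b ++ [i]) = lcv x ⁅v, x i⁆ b := by
  induction b with
  | nil => rfl
  | cons j l ih => simp only [List.cons_append, lcv, ih]

theorem lc_cons {G : Type} [Group G] {n : ℕ} (x : Fin n → G) (i : Fin n)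
    (b : List (Fin n)) (hb : b ≠ []) : lc x (i :: b) = ⁅lc x b, x i⁆ := by
  cases b with
  | nil => exact absurd rfl hb
  | cons j l => rfl

theorem lc_append {G : Type} [Group G] {n : ℕ} (x : Fin n → G) (i : Fin n)
    (b : List (Fin n)) : lc x (b ++ [i]) = lcv x (x i) b := by
  induction b with
  | nil => rfl
  | cons j l ih =>
    rw [List.cons_append, lc_cons x j (l ++ [i]) (by simp), ih]
    rfl

theorem lc_mem {G : Type} [Group G] {n : ℕ} (x : Fin n → G) (b : List (Fin n)) :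
    b ≠ [] → lc x b ∈ gm G (b.length - 1) := by
  induction b with
  | nil => intro h; exact absurd rfl h
  | cons j l ih =>
    intro _
    by_cases hl : l = []
    · subst hl
      exact mem0 _
    · rw [lc_cons x j l hl]
      have := List.length_pos_iff.2 hl
      exact cm (ih hl) (mem0 _) (by simp; omega)

theorem ex_sum {n : ℕ} {M : Type} [AddCommGroup M] (F : List (Fin n) → M) (i j : Fin n)
    (l : List (Fin n)) : (ex (i :: j :: l)).sum (fun b m => m • F b) =
      (ex (j :: l)).sum (fun b m => m • F (i :: b)) -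
        (ex (j :: l)).sum (fun b m => m • F (b ++ [i])) := by
  rw [ex, Finsupp.sum_sub_index (by intros; rw [sub_smul]),
    Finsupp.sum_mapDomain_index (by intros; rw [zero_smul]) (by intros; rw [add_smul]),
    Finsupp.sum_mapDomain_index (by intros; rw [zero_smul]) (by intros; rw [add_smul])]

theorem ex_single {n : ℕ} {M : Type} [AddCommGroup M] (F : List (Fin n) → M) (i : Fin n) :
    (ex [i]).sum (fun b m => m • F b) = F [i] := by
  rw [ex, Finsupp.sum_single_index (by rw [zero_smul]), one_smul]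

theorem ex_len {n : ℕ} (a : List (Fin n)) : ∀ b ∈ (ex a).support, b.length = a.length := by
  classical
  induction a with
  | nil => intro b hb; simp [ex] at hb
  | cons i a ih =>
    cases a with
    | nil =>
      intro b hb
      rw [ex] at hb
      have := Finsupp.support_single_subset hb
      rw [Finset.mem_singleton.1 this]
    | cons j l =>
      intro b hb
      rw [ex] at hb
      have h1 := Finsupp.support_sub hb
      rw [Finset.mem_union] at h1
      rcases h1 with h1 | h1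
      · have h2 := Finsupp.mapDomain_support h1
        rw [Finset.mem_image] at h2
        obtain ⟨c, hc, rfl⟩ := h2
        have := ih c hc
        simp only [List.length_cons] at this ⊢
        omega
      · have h2 := Finsupp.mapDomain_support h1
        rw [Finset.mem_image] at h2
        obtain ⟨c, hc, rfl⟩ := h2
        have := ih c hc
        simp only [List.length_append, List.length_cons, List.length_nil] at this ⊢
        omega

theorem ss {G M : Type} [Group G] [AddCommGroup M] {n : ℕ} (x : Fin n → G)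
    (a : List (Fin n)) : ∀ (s : ℕ) (v : G) (χ : G → M), a ≠ [] → v ∈ gm G s →
      IsChi (s + 1 + a.length) χ →
      (ex a).sum (fun b m => m • χ (lcv x v b)) = χ ⁅v, lc x a⁆ := by
  induction a with
  | nil => intro s v χ h; exact absurd rfl h
  | cons i a ih =>
    intro s v χ _ hv hχ
    cases a with
    | nil =>
      rw [ex_single (fun b => χ (lcv x v b))]
      rfl
    | cons j l =>
      rw [ex_sum (fun b => χ (lcv x v b))]
      have hχ' : IsChi (s + 1 + (j :: l).length) (fun y : G => χ ⁅y, x i⁆) := by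
        apply chi' (k := s + 1 + (j :: l).length)
        · simpa [Nat.add_assoc] using hχ
        · omega
      have h1 := ih s v (fun y : G => χ ⁅y, x i⁆) (by simp) hv hχ'
      have h2 := ih (s + 1) ⁅v, x i⁆ χ (by simp) (cm hv (mem0 _) (by omega)) (by
        have e : s + 1 + 1 + (j :: l).length = s + 1 + (i :: j :: l).length := by
          simp only [List.length_cons]; omega
        rw [e]; exact hχ)
      have e1 : (ex (j :: l)).sum (fun b m => m • χ (lcv x v (i :: b))) =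
          (ex (j :: l)).sum (fun b m => m • (fun y : G => χ ⁅y, x i⁆) (lcv x v b)) := rfl
      have e2 : (ex (j :: l)).sum (fun b m => m • χ (lcv x v (b ++ [i]))) =
          (ex (j :: l)).sum (fun b m => m • χ (lcv x ⁅v, x i⁆ b)) := by
        simp only [lcv_append]
      rw [e1, e2, h1, h2, lc_cons x i (j :: l) (by simp)]
      exact jacobi' hχ (s := s) (t := (j :: l).length - 1) (u := 0)
        (by simp only [List.length_cons]; omega) hv (lc_mem x _ (by simp)) (mem0 _)

theorem main {G M : Type} [Group G] [AddCommGroup M] {n : ℕ} (x : Fin n → G)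
    (a : List (Fin n)) : ∀ (χ : G → M), a ≠ [] → IsChi a.length χ →
      (ex a).sum (fun b m => m • χ (lc x b)) = a.length • χ (lc x a) := by
  induction a with
  | nil => intro χ h; exact absurd rfl h
  | cons i a ih =>
    intro χ _ hχ
    cases a with
    | nil =>
      rw [ex_single (fun b => χ (lc x b))]
      simp only [List.length_cons, List.length_nil, zero_add, one_smul]
    | cons j l =>
      rw [ex_sum (fun b => χ (lc x b))]
      have hχ' : IsChi (j :: l).length (fun y : G => χ ⁅y, x i⁆) :=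
        chi' (k := (j :: l).length) hχ (by simp) (x i)
      have h1 := ih (fun y : G => χ ⁅y, x i⁆) (by simp) hχ'
      have e1 : (ex (j :: l)).sum (fun b m => m • χ (lc x (i :: b))) =
          (ex (j :: l)).sum (fun b m => m • (fun y : G => χ ⁅y, x i⁆) (lc x b)) := by
        refine Finset.sum_congr rfl ?_
        intro b hb
        have hl := ex_len _ b hb
        have hb0 : b ≠ [] := by
          intro h
          rw [h] at hl
          simp at hl
        change _ • χ (lc x (i :: b)) = _ • χ ⁅lc x b, x i⁆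
        rw [lc_cons x i b hb0]
      have e2 : (ex (j :: l)).sum (fun b m => m • χ (lc x (b ++ [i]))) =
          (ex (j :: l)).sum (fun b m => m • χ (lcv x (x i) b)) := by
        simp only [lc_append]
      have h2 := ss x (j :: l) 0 (x i) χ (by simp) (mem0 _) (by
        have e : 0 + 1 + (j :: l).length = (i :: j :: l).length := by
          simp only [List.length_cons]; omega
        rw [e]; exact hχ)
      have h3 : χ ⁅x i, lc x (j :: l)⁆ = - χ ⁅lc x (j :: l), x i⁆ :=
        chi_comm_swap hχ (i := (j :: l).length - 1) (j := 0)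
          (by simp only [List.length_cons]; omega) (lc_mem x _ (by simp)) (mem0 _)
      rw [e1, e2, h1, h2, h3, lc_cons x i (j :: l) (by simp), sub_neg_eq_add]
      change _ = ((j :: l).length + 1) • χ ⁅lc x (j :: l), x i⁆
      rw [add_smul, one_smul]

end J_dynkin

/-- TARGET -/
theorem dynkin {G M : Type} [Group G] [AddCommGroup M] {n : ℕ} (x : Fin n → G) (k : ℕ)
    (hk : 1 ≤ k) (χ : G → M) (hχ : IsChi k χ) (a : List (Fin n)) (ha : a.length = k) :
    (ex a).sum (fun b m => m • χ (lc x b)) = k • χ (lc x a) := by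
  subst ha
  exact J_dynkin.main x a χ (by intro h; rw [h] at hk; simp at hk) hχ

end Pool.Agent.Helper252_Cover
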