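import Pool.Agent.Helper252_Cover.Defs

set_option autoImplicit false

open scoped commutatorElement

namespace Pool.Agent.Helper252_Cover

/-
PROOF OF THE TARGET.
Induction on a. [i]: θ(x i) - 1 - X i = 0. a = i :: a' (a' = j :: l): g = θ(lc x a'), h = θ(x i) = 1 + X i. g - 1 = u with u - lw X a' ∈ F (k'+1), k' = |a'|, u ∈ F k'. θ ⁅lc x a', x i⁆ - 1 = (g h - h g) g⁻¹ h⁻¹ = (u X i - X i u) g⁻¹ h⁻¹; g⁻¹ h⁻¹ - 1 ∈ F 1 (for a unit g with g - 1 ∈ F 1: g⁻¹ - 1 = - g⁻¹ (g-1)), u X - X u ∈ F (k'+1), so this is ≡ u X - X u ≡ lw X a' * X i - X i * lw X a' modulo F (k'+2).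
-/

namespace J_lead

theorem Filt_le {A : Type} [Ring A] {c : ℕ} (Φ : Filt A c) {i j : ℕ} (h : i ≤ j) :
    Φ.F j ≤ Φ.F i := by
  induction j, h using Nat.le_induction with
  | base => exact le_rfl
  | succ j _ ih => exact (Φ.anti j).trans ih

/-- one step -/
theorem step {A : Type} [Ring A] {c : ℕ} (Φ : Filt A c) (k : ℕ) (hk : 1 ≤ k) (w X : A)
    (hw : w ∈ Φ.F k) (hX : X ∈ Φ.F 1) (g h : Aˣ) (hh : (h : A) = 1 + X)
    (hg : (g : A) - 1 - w ∈ Φ.F (k + 1)) :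
    w * X - X * w ∈ Φ.F (k + 1) ∧
      ((⁅g, h⁆ : Aˣ) : A) - 1 - (w * X - X * w) ∈ Φ.F (k + 1 + 1) := by
  have hmul := Φ.mul
  have h1 : ∀ z ∈ Φ.F k, z * X - X * z ∈ Φ.F (k + 1) := by
    intro z hz
    refine (Φ.F (k + 1)).sub_mem (hmul k 1 z X hz hX) ?_
    have := hmul 1 k X z hX hz
    rwa [add_comm] at this
  have h2 : ∀ z ∈ Φ.F (k + 1), z * X - X * z ∈ Φ.F (k + 1 + 1) := by
    intro z hz
    refine (Φ.F (k + 1 + 1)).sub_mem (hmul (k + 1) 1 z X hz hX) ?_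
    have := hmul 1 (k + 1) X z hX hz
    rwa [add_comm] at this
  refine ⟨h1 w hw, ?_⟩
  have hu : (g : A) - 1 ∈ Φ.F k := by
    have h3 := (Φ.F k).add_mem (Φ.anti k hg) hw
    rwa [sub_add_cancel] at h3
  have hinv : ∀ v : Aˣ, (v : A) - 1 ∈ Φ.F 1 → ((v⁻¹ : Aˣ) : A) - 1 ∈ Φ.F 1 := by
    intro v hv
    have h3 : ((v⁻¹ : Aˣ) : A) - 1 = -(((v⁻¹ : Aˣ) : A) * ((v : A) - 1)) := by
      rw [mul_sub, Units.inv_mul, mul_one]
      abel
    rw [h3]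
    have h4 := hmul 0 1 ((v⁻¹ : Aˣ) : A) ((v : A) - 1) (by rw [Φ.top]; trivial) hv
    rw [zero_add] at h4
    exact (Φ.F 1).neg_mem h4
  have hg' := hinv g (Filt_le Φ hk hu)
  have hh' := hinv h (by rw [hh, add_sub_cancel_left]; exact hX)
  have hgh : ((g⁻¹ : Aˣ) : A) * ((h⁻¹ : Aˣ) : A) - 1 ∈ Φ.F 1 := by
    have h3 : ((g⁻¹ : Aˣ) : A) * ((h⁻¹ : Aˣ) : A) - 1 =
        ((g⁻¹ : Aˣ) : A) * (((h⁻¹ : Aˣ) : A) - 1) + (((g⁻¹ : Aˣ) : A) - 1) := by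
      rw [mul_sub, mul_one]
      abel
    rw [h3]
    have h4 := hmul 0 1 ((g⁻¹ : Aˣ) : A) (((h⁻¹ : Aˣ) : A) - 1) (by rw [Φ.top]; trivial) hh'
    rw [zero_add] at h4
    exact (Φ.F 1).add_mem h4 hg'
  have hc : ((⁅g, h⁆ : Aˣ) : A) - 1 =
      (((g : A) - 1) * X - X * ((g : A) - 1)) * (((g⁻¹ : Aˣ) : A) * ((h⁻¹ : Aˣ) : A)) := by
    rw [commutatorElement_def, Units.val_mul, Units.val_mul, Units.val_mul]
    have h3 : ((g : A) - 1) * X - X * ((g : A) - 1) = (g : A) * (h : A) - (h : A) * (g : A) := by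
      rw [hh]
      noncomm_ring
    rw [h3, sub_mul]
    have h4 : (h : A) * (g : A) * (((g⁻¹ : Aˣ) : A) * ((h⁻¹ : Aˣ) : A)) = 1 := by
      rw [mul_assoc, ← mul_assoc (g : A), Units.mul_inv, one_mul, Units.mul_inv]
    rw [h4]
    noncomm_ring
  have hfin : ((⁅g, h⁆ : Aˣ) : A) - 1 - (w * X - X * w) =
      (((g : A) - 1) * X - X * ((g : A) - 1)) * (((g⁻¹ : Aˣ) : A) * ((h⁻¹ : Aˣ) : A) - 1) +
      (((g : A) - 1 - w) * X - X * ((g : A) - 1 - w)) := by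
    rw [hc]
    noncomm_ring
  rw [hfin]
  exact (Φ.F (k + 1 + 1)).add_mem (hmul (k + 1) 1 _ _ (h1 _ hu) hgh) (h2 _ hg)

end J_lead

open J_lead in
/-- TARGET -/
theorem lead {A : Type} [Ring A] {c : ℕ} (Φ : Filt A c) {n : ℕ} (X : Fin n → A)
    (hX : ∀ i, X i ∈ Φ.F 1) (G : Type) [Group G] (x : Fin n → G) (θ : G →* Aˣ)
    (hθ : ∀ i, ((θ (x i) : Aˣ) : A) = 1 + X i) (a : List (Fin n)) (ha : 1 ≤ a.length) :
    lw X a ∈ Φ.F a.length ∧ ((θ (lc x a) : Aˣ) : A) - 1 - lw X a ∈ Φ.F (a.length + 1) := by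
  induction a with
  | nil => simp at ha
  | cons i a ih =>
    cases a with
    | nil =>
      constructor
      · exact hX i
      · show ((θ (x i) : Aˣ) : A) - 1 - X i ∈ _
        rw [hθ, add_sub_cancel_left, sub_self]
        exact (Φ.F _).zero_mem
    | cons j l =>
      obtain ⟨h1, h2⟩ := ih (by simp)
      have h3 := step Φ (j :: l).length (by simp) (lw X (j :: l)) (X i) h1 (hX i)
        (θ (lc x (j :: l))) (θ (x i)) (hθ i) h2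
      rw [← map_commutatorElement] at h3
      exact h3

end Pool.Agent.Helper252_Cover
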