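import Pool.Agent.Helper252_Cover.Defs

set_option autoImplicit false

open scoped commutatorElement

namespace Pool.Agent.Helper252_Cover

/-
PROOF OF THE TARGET.
Induction on k. k = 0: hypothesis. gm G (k+1) = ⁅gm G k, ⊤⁆ is generated by ⁅y,g⁆ with θ y - 1 ∈ F (k+1), θ g - 1 ∈ F 1: θ ⁅y,g⁆ - 1 = (θy θg - θg θy) θy⁻¹ θg⁻¹ = ((θy-1)(θg-1) - (θg-1)(θy-1)) θy⁻¹θg⁻¹ ∈ F (k+2). The g with θ g - 1 ∈ F (k+2) form a subgroup (Subgroup.closure_induction).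
-/

namespace J_gm_filt

theorem antile {A : Type} [Ring A] {c : ℕ} (Φ : Filt A c) {i j : ℕ} (h : i ≤ j) :
    Φ.F j ≤ Φ.F i := by
  induction h with
  | refl => exact le_rfl
  | step _ ih => exact (Φ.anti _).trans ih

theorem mulTop {A : Type} [Ring A] {c : ℕ} (Φ : Filt A c) {i : ℕ} {x : A} (hx : x ∈ Φ.F i)
    (y : A) : x * y ∈ Φ.F i := by
  have hy : y ∈ Φ.F 0 := by rw [Φ.top]; exact AddSubgroup.mem_top y
  have := Φ.mul i 0 x y hx hy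
  simpa using this

theorem topMul {A : Type} [Ring A] {c : ℕ} (Φ : Filt A c) {i : ℕ} {x : A} (hx : x ∈ Φ.F i)
    (y : A) : y * x ∈ Φ.F i := by
  have hy : y ∈ Φ.F 0 := by rw [Φ.top]; exact AddSubgroup.mem_top y
  have := Φ.mul 0 i y x hy hx
  simpa using this

/-- The subgroup of elements whose image is congruent to one modulo `F i`. -/
def sub {A : Type} [Ring A] {c : ℕ} (Φ : Filt A c) {G : Type} [Group G] (θ : G →* Aˣ)
    (i : ℕ) : Subgroup G where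
  carrier := {g | ((θ g : Aˣ) : A) - 1 ∈ Φ.F i}
  one_mem' := by
    simp only [Set.mem_setOf_eq, map_one, Units.val_one, sub_self]
    exact (Φ.F i).zero_mem
  mul_mem' := by
    intro a b ha hb
    simp only [Set.mem_setOf_eq] at ha hb ⊢
    have h1 := mulTop Φ ha ((θ b : Aˣ) : A)
    have h2 := (Φ.F i).add_mem h1 hb
    have e : ((θ (a * b) : Aˣ) : A) - 1 =
        (((θ a : Aˣ) : A) - 1) * ((θ b : Aˣ) : A) + (((θ b : Aˣ) : A) - 1) := by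
      rw [map_mul, Units.val_mul]; noncomm_ring
    rw [e]; exact h2
  inv_mem' := by
    intro a ha
    simp only [Set.mem_setOf_eq] at ha ⊢
    have h1 := topMul Φ ha (((θ a)⁻¹ : Aˣ) : A)
    have h2 := (Φ.F i).neg_mem h1
    have e : ((θ a⁻¹ : Aˣ) : A) - 1 =
        -((((θ a)⁻¹ : Aˣ) : A) * (((θ a : Aˣ) : A) - 1)) := by
      rw [map_inv, mul_sub, mul_one, Units.inv_mul]
      abel
    rw [e]; exact h2

theorem comm_mem {A : Type} [Ring A] {c : ℕ} (Φ : Filt A c) {G : Type} [Group G] (θ : G →* Aˣ)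
    {i j : ℕ} {y g : G} (hy : ((θ y : Aˣ) : A) - 1 ∈ Φ.F i)
    (hg : ((θ g : Aˣ) : A) - 1 ∈ Φ.F j) : ((θ ⁅y, g⁆ : Aˣ) : A) - 1 ∈ Φ.F (i + j) := by
  have h1 := Φ.mul i j _ _ hy hg
  have h2 := Φ.mul j i _ _ hg hy
  rw [add_comm j i] at h2
  have h3 := (Φ.F (i + j)).sub_mem h1 h2
  have h4 := mulTop Φ (mulTop Φ h3 (((θ y)⁻¹ : Aˣ) : A)) (((θ g)⁻¹ : Aˣ) : A)
  have e : ((θ ⁅y, g⁆ : Aˣ) : A) - 1 =
      ((((θ y : Aˣ) : A) - 1) * (((θ g : Aˣ) : A) - 1) -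
        (((θ g : Aˣ) : A) - 1) * (((θ y : Aˣ) : A) - 1)) * (((θ y)⁻¹ : Aˣ) : A) *
          (((θ g)⁻¹ : Aˣ) : A) := by
    have e1 : ((((θ y : Aˣ) : A) - 1) * (((θ g : Aˣ) : A) - 1) -
        (((θ g : Aˣ) : A) - 1) * (((θ y : Aˣ) : A) - 1)) =
        ((θ y : Aˣ) : A) * ((θ g : Aˣ) : A) - ((θ g : Aˣ) : A) * ((θ y : Aˣ) : A) := by
      noncomm_ring
    rw [e1, sub_mul, sub_mul]
    have e2 : ((θ g : Aˣ) : A) * ((θ y : Aˣ) : A) * (((θ y)⁻¹ : Aˣ) : A) *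
        (((θ g)⁻¹ : Aˣ) : A) = 1 := by
      rw [mul_assoc ((θ g : Aˣ) : A), Units.mul_inv, mul_one, Units.mul_inv]
    rw [e2, commutatorElement_def, map_mul, map_mul, map_mul, map_inv, map_inv,
      Units.val_mul, Units.val_mul, Units.val_mul]
  rw [e]; exact h4

end J_gm_filt

/-- TARGET -/
theorem gm_filt {A : Type} [Ring A] {c : ℕ} (Φ : Filt A c) (G : Type) [Group G] (θ : G →* Aˣ)
    (hθ : ∀ g, ((θ g : Aˣ) : A) - 1 ∈ Φ.F 1) (k : ℕ) (g : G) (hg : g ∈ gm G k) :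
    ((θ g : Aˣ) : A) - 1 ∈ Φ.F (k + 1) := by
  induction k generalizing g with
  | zero => exact hθ g
  | succ k ih =>
    have hle : gm G (k + 1) ≤ J_gm_filt.sub Φ θ (k + 1 + 1) := by
      change ⁅gm G k, (⊤ : Subgroup G)⁆ ≤ _
      rw [Subgroup.commutator_le]
      intro y hy h _
      exact J_gm_filt.comm_mem Φ θ (ih y hy) (hθ h)
    exact hle hg

end Pool.Agent.Helper252_Cover
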