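import Pool.Agent.Helper252_Cover.C11_gm_comm
import Pool.Agent.Helper252_Cover.C12_gm_gen
import Pool.Agent.Helper252_Cover.C13_exists_chi
import Pool.Agent.Helper252_Cover.C14_lw_expand
import Pool.Agent.Helper252_Cover.C15_dynkin
import Pool.Agent.Helper252_Cover.C16_lead
import Pool.Agent.Helper252_Cover.C17_gm_filt

set_option autoImplicit false

open scoped commutatorElement

namespace Pool.Agent.Helper252_Cover

/-
PROOF OF THE TARGET.
θ y - 1 ∈ F 1 for all y (y in the closure of the x i). Take M, χ from exists_chi for k. Let S be the set of v ∈ gm G (k-1) such that there is τ : List (Fin n) →₀ ℤ supported on lists of length k with (i) θ v - 1 - τ.sum (m • mon X b) ∈ F (k+1) and (ii) k • χ v = τ.sum (m • χ (lc x b)). S is a subgroup ((i): θ(vw) - 1 = (θv-1) + (θw-1) + (θv-1)(θw-1) and θ v - 1 ∈ F k by gm_filt, product ∈ F (2k) ≤ F (k+1); the τ add),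
contains lc x a for |a| = k (τ = ex a: lead, lw_expand, dynkin) and gm G k (τ = 0: gm_filt, χ = 0). By gm_gen (with k-1) S contains gm G (k-1). Let θ v = 1, τ as above for v: then τ.sum (m • mon X b) ∈ F (k+1), so for each a of length k: 0 = cf a (...) = τ a in ZMod (p^N) (cf_F, cf_word), so p^N divides every τ a. p^N • χ(lc x b) = χ((lc x b)^(p^N)) = χ 1 = 0 for |b| = k
(χ is additive on gm G (k-1) ∋ lc x b). Hence k • χ v = 0, and p^N • χ v = χ(v^(p^N)) = 0; k is coprime to p (1 <= k <= c < p), so χ v = 0 and v ∈ gm G k.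
-/

namespace J_magnus_step

theorem anti' {A : Type} [Ring A] {c : ℕ} (Φ : Filt A c) {i j : ℕ} (h : i ≤ j) : Φ.F j ≤ Φ.F i := by
  induction h with
  | refl => exact le_rfl
  | step _ ih => exact (Φ.anti _).trans ih

theorem filt_all {A : Type} [Ring A] {c : ℕ} (Φ : Filt A c) {n : ℕ} (X : Fin n → A)
    (hX : ∀ i, X i ∈ Φ.F 1) (G : Type) [Group G]
    (x : Fin n → G) (hx : Subgroup.closure (Set.range x) = ⊤)
    (θ : G →* Aˣ) (hθ : ∀ i, ((θ (x i) : Aˣ) : A) = 1 + X i) (y : G) :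
    ((θ y : Aˣ) : A) - 1 ∈ Φ.F 1 := by
  have hy : y ∈ Subgroup.closure (Set.range x) := by rw [hx]; trivial
  induction hy using Subgroup.closure_induction with
  | mem z hz =>
    obtain ⟨i, rfl⟩ := hz
    rw [hθ i]
    simpa using hX i
  | one => simp
  | mul a b _ _ ha hb =>
    have e : ((θ (a * b) : Aˣ) : A) - 1 = (((θ a : Aˣ) : A) - 1) + (((θ b : Aˣ) : A) - 1)
        + (((θ a : Aˣ) : A) - 1) * (((θ b : Aˣ) : A) - 1) := by
      rw [map_mul, Units.val_mul]; noncomm_ring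
    rw [e]
    refine (Φ.F 1).add_mem ((Φ.F 1).add_mem ha hb) ?_
    exact anti' Φ (by norm_num : 1 ≤ 1 + 1) (Φ.mul 1 1 _ _ ha hb)
  | inv a _ ha =>
    have e : ((θ a⁻¹ : Aˣ) : A) - 1 = -(((θ a : Aˣ) : A) - 1)
        - (((θ a : Aˣ) : A) - 1) * (((θ a⁻¹ : Aˣ) : A) - 1) := by
      have h1 : ((θ a : Aˣ) : A) * ((θ a⁻¹ : Aˣ) : A) = 1 := by
        rw [← Units.val_mul, ← map_mul]; simp
      have h2 : -(((θ a : Aˣ) : A) - 1) - (((θ a : Aˣ) : A) - 1) * (((θ a⁻¹ : Aˣ) : A) - 1)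
          = ((θ a⁻¹ : Aˣ) : A) - ((θ a : Aˣ) : A) * ((θ a⁻¹ : Aˣ) : A) := by noncomm_ring
      rw [h2, h1]
    rw [e]
    refine (Φ.F 1).sub_mem ((Φ.F 1).neg_mem ha) ?_
    have := Φ.mul 1 0 _ (((θ a⁻¹ : Aˣ) : A) - 1) ha (by rw [Φ.top]; trivial)
    simpa using this

theorem lc_mem {G : Type} [Group G] {n : ℕ} (x : Fin n → G) :
    ∀ (a : List (Fin n)), lc x a ∈ gm G (a.length - 1)
  | [] => by simp [lc]
  | [i] => by simp [lc, gm]
  | i :: j :: l => by
    have ih := lc_mem x (j :: l)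
    have h2 : lc x (i :: j :: l) = ⁅lc x (j :: l), x i⁆ := rfl
    rw [h2]
    have h3 : (i :: j :: l).length - 1 = (j :: l).length - 1 + 0 + 1 := by simp
    rw [h3]
    exact gm_comm G _ 0 (Subgroup.commutator_mem_commutator ih (by simp [gm]))

theorem chi_one {G M : Type} [Group G] [AddCommGroup M] {k : ℕ} {χ : G → M} (h : IsChi k χ) :
    χ 1 = 0 := h.zero 1 (one_mem _)

theorem chi_inv {G M : Type} [Group G] [AddCommGroup M] {k : ℕ} {χ : G → M} (h : IsChi k χ)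
    (a : G) (ha : a ∈ gm G (k - 1)) : χ a⁻¹ = - χ a := by
  have := h.add a ha a⁻¹ (inv_mem ha)
  rw [mul_inv_cancel, chi_one h] at this
  exact (neg_eq_of_add_eq_zero_right this.symm).symm

theorem chi_pow {G M : Type} [Group G] [AddCommGroup M] {k : ℕ} {χ : G → M} (h : IsChi k χ)
    (a : G) (ha : a ∈ gm G (k - 1)) (m : ℕ) : χ (a ^ m) = m • χ a := by
  induction m with
  | zero => simp [chi_one h]
  | succ m ih => rw [pow_succ, h.add _ (pow_mem ha m) _ ha, ih, succ_nsmul]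

/-- `v` has a word expansion at level `k`. -/
def PP {A : Type} [Ring A] {c : ℕ} (Φ : Filt A c) {n : ℕ} (X : Fin n → A) {G M : Type} [Group G]
    [AddCommGroup M] (x : Fin n → G) (θ : G →* Aˣ) (k : ℕ) (χ : G → M) (v : G) : Prop :=
  ∃ τ : List (Fin n) →₀ ℤ, (∀ b ∈ τ.support, b.length = k) ∧
    ((θ v : Aˣ) : A) - 1 - τ.sum (fun b m => m • mon X b) ∈ Φ.F (k + 1) ∧
    k • χ v = τ.sum (fun b m => m • χ (lc x b))

theorem PP_mul {A : Type} [Ring A] {c : ℕ} (Φ : Filt A c) {n : ℕ} (X : Fin n → A) {G M : Type}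
    [Group G] [AddCommGroup M] (x : Fin n → G) (θ : G →* Aˣ) (k : ℕ) (hk : 1 ≤ k) (χ : G → M)
    (hχ : IsChi k χ) (v w : G) (hv : v ∈ gm G (k - 1)) (hw : w ∈ gm G (k - 1))
    (hv' : ((θ v : Aˣ) : A) - 1 ∈ Φ.F k) (hw' : ((θ w : Aˣ) : A) - 1 ∈ Φ.F k)
    (h1 : PP Φ X x θ k χ v) (h2 : PP Φ X x θ k χ w) : PP Φ X x θ k χ (v * w) := by
  classical
  obtain ⟨τ, hτ, hτ1, hτ2⟩ := h1
  obtain ⟨σ, hσ, hσ1, hσ2⟩ := h2
  refine ⟨τ + σ, ?_, ?_, ?_⟩
  · intro b hb
    rcases Finset.mem_union.mp (Finsupp.support_add hb) with h | h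
    · exact hτ b h
    · exact hσ b h
  · rw [Finsupp.sum_add_index' (by simp) (by intros; rw [add_smul])]
    have e : ((θ (v * w) : Aˣ) : A) - 1 - (τ.sum (fun b m => m • mon X b)
        + σ.sum (fun b m => m • mon X b)) = (((θ v : Aˣ) : A) - 1 - τ.sum (fun b m => m • mon X b))
        + (((θ w : Aˣ) : A) - 1 - σ.sum (fun b m => m • mon X b))
        + (((θ v : Aˣ) : A) - 1) * (((θ w : Aˣ) : A) - 1) := by
      rw [map_mul, Units.val_mul]; noncomm_ring
    rw [e]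
    refine (Φ.F _).add_mem ((Φ.F _).add_mem hτ1 hσ1) ?_
    exact anti' Φ (by omega : k + 1 ≤ k + k) (Φ.mul k k _ _ hv' hw')
  · rw [Finsupp.sum_add_index' (by simp) (by intros; rw [add_smul]), hχ.add v hv w hw, smul_add,
      hτ2, hσ2]

theorem PP_inv {A : Type} [Ring A] {c : ℕ} (Φ : Filt A c) {n : ℕ} (X : Fin n → A) {G M : Type}
    [Group G] [AddCommGroup M] (x : Fin n → G) (θ : G →* Aˣ) (k : ℕ) (hk : 1 ≤ k) (χ : G → M)
    (hχ : IsChi k χ) (v : G) (hv : v ∈ gm G (k - 1))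
    (hv' : ((θ v : Aˣ) : A) - 1 ∈ Φ.F k) (hw' : ((θ v⁻¹ : Aˣ) : A) - 1 ∈ Φ.F k)
    (h1 : PP Φ X x θ k χ v) : PP Φ X x θ k χ v⁻¹ := by
  classical
  obtain ⟨τ, hτ, hτ1, hτ2⟩ := h1
  have hneg : ∀ {B : Type} [AddCommGroup B] (f : List (Fin n) → B),
      (-τ).sum (fun b m => m • f b) = - τ.sum (fun b m => m • f b) := by
    intro B _ f
    rw [Finsupp.sum_neg_index (by simp)]
    simp [Finsupp.sum]
  refine ⟨-τ, ?_, ?_, ?_⟩
  · intro b hb
    rw [Finsupp.support_neg] at hb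
    exact hτ b hb
  · rw [hneg]
    have e : ((θ v⁻¹ : Aˣ) : A) - 1 - - τ.sum (fun b m => m • mon X b)
        = -(((θ v : Aˣ) : A) - 1 - τ.sum (fun b m => m • mon X b))
        - (((θ v : Aˣ) : A) - 1) * (((θ v⁻¹ : Aˣ) : A) - 1) := by
      have h1 : ((θ v : Aˣ) : A) * ((θ v⁻¹ : Aˣ) : A) = 1 := by
        rw [← Units.val_mul, ← map_mul]; simp
      have h2 : (((θ v : Aˣ) : A) - 1) * (((θ v⁻¹ : Aˣ) : A) - 1)
          = ((θ v : Aˣ) : A) * ((θ v⁻¹ : Aˣ) : A) - ((θ v : Aˣ) : A) - ((θ v⁻¹ : Aˣ) : A) + 1 := by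
        noncomm_ring
      rw [h2, h1]; abel
    rw [e]
    refine (Φ.F _).sub_mem ((Φ.F _).neg_mem hτ1) ?_
    exact anti' Φ (by omega : k + 1 ≤ k + k) (Φ.mul k k _ _ hv' hw')
  · rw [hneg, chi_inv hχ v hv, smul_neg, hτ2]

theorem PP_all {A : Type} [Ring A] {c : ℕ} (Φ : Filt A c) {n : ℕ} (X : Fin n → A)
    (hX : ∀ i, X i ∈ Φ.F 1) {G M : Type}
    [Group G] [AddCommGroup M] (x : Fin n → G) (hx : Subgroup.closure (Set.range x) = ⊤)
    (θ : G →* Aˣ) (hθ : ∀ i, ((θ (x i) : Aˣ) : A) = 1 + X i) (k : ℕ) (hk : 1 ≤ k) (χ : G → M)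
    (hχ : IsChi k χ) (v : G) (hv : v ∈ gm G (k - 1)) : PP Φ X x θ k χ v := by
  classical
  have hall := filt_all Φ X hX G x hx θ hθ
  have hF : ∀ w ∈ gm G (k - 1), ((θ w : Aˣ) : A) - 1 ∈ Φ.F k := by
    intro w hw
    have := gm_filt Φ G θ hall (k - 1) w hw
    rwa [Nat.sub_add_cancel hk] at this
  let S : Subgroup G :=
    { carrier := {w | w ∈ gm G (k - 1) ∧ PP Φ X x θ k χ w}
      mul_mem' := by
        intro a b ha hb
        exact ⟨mul_mem ha.1 hb.1, PP_mul Φ X x θ k hk χ hχ a b ha.1 hb.1 (hF a ha.1) (hF b hb.1)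
          ha.2 hb.2⟩
      one_mem' := by
        refine ⟨one_mem _, 0, by simp, by simp, ?_⟩
        simp [chi_one hχ]
      inv_mem' := by
        intro a ha
        exact ⟨inv_mem ha.1, PP_inv Φ X x θ k hk χ hχ a ha.1 (hF a ha.1) (hF _ (inv_mem ha.1))
          ha.2⟩ }
  have h1 : Subgroup.closure {y | ∃ a : List (Fin n), a.length = k - 1 + 1 ∧ y = lc x a} ≤ S := by
    rw [Subgroup.closure_le]
    rintro y ⟨a, ha, rfl⟩
    have hak : a.length = k := by omega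
    have hmem := lc_mem x a
    rw [hak] at hmem
    refine ⟨hmem, ex a, ?_, ?_, ?_⟩
    · intro b hb
      rw [← hak]
      exact (lw_expand X a).2 b hb
    · rw [← (lw_expand X a).1]
      have := (lead Φ X hX G x θ hθ a (by omega)).2
      rwa [hak] at this
    · exact (dynkin x k hk χ hχ a hak).symm
  have h2 : gm G (k - 1 + 1) ≤ S := by
    intro w hw
    have hw' : w ∈ gm G k := by rwa [Nat.sub_add_cancel hk] at hw
    refine ⟨Subgroup.lowerCentralSeries_antitone _ (Nat.le_succ _) hw, 0, by simp, ?_, ?_⟩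
    · have := gm_filt Φ G θ hall k w hw'
      simpa using this
    · simp [hχ.zero w hw']
  have h3 := (gm_gen x hx (k - 1)).trans (sup_le h1 h2) hv
  exact h3.2

end J_magnus_step

/-- TARGET -/
theorem magnus_step {A : Type} [Ring A] {c : ℕ} (Φ : Filt A c) (p N n : ℕ) (hp : p.Prime)
    (hc : c < p) (X : Fin n → A) (hX : IsFree (p ^ N) n c A Φ X) (G : Type) [Group G]
    (x : Fin n → G) (hx : Subgroup.closure (Set.range x) = ⊤) (hexp : ∀ y : G, y ^ (p ^ N) = 1)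
    (θ : G →* Aˣ) (hθ : ∀ i, ((θ (x i) : Aˣ) : A) = 1 + X i) (k : ℕ) (hk : 1 ≤ k) (hkc : k ≤ c)
    (v : G) (hv : v ∈ gm G (k - 1)) (hθv : θ v = 1) : v ∈ gm G k := by
  classical
  obtain ⟨M, _, χ, hχ, hχ2⟩ := exists_chi G k hk
  apply hχ2 v hv
  obtain ⟨τ, hτ, hτ1, hτ2⟩ := J_magnus_step.PP_all Φ X hX.mem x hx θ hθ k hk χ hχ v hv
  have hsum : τ.sum (fun b m => m • mon X b) ∈ Φ.F (k + 1) := by
    rw [hθv] at hτ1
    simpa using hτ1
  have hcoef : ∀ a ∈ τ.support, ((p ^ N : ℕ) : ℤ) ∣ τ a := by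
    intro a ha
    have hak := hτ a ha
    have h0 := hX.cf_F a (by omega) _ (by rw [hak]; exact hsum)
    rw [map_finsuppSum] at h0
    have h1 : (τ.sum fun b m => hX.cf a (m • mon X b)) = ((τ a : ℤ) : ZMod (p ^ N)) := by
      rw [Finsupp.sum, Finset.sum_eq_single a]
      · rw [map_zsmul, hX.cf_word a a rfl (by omega)]
        simp
      · intro b hb hba
        rw [map_zsmul, hX.cf_word a b (by rw [hak, hτ b hb]) (by omega), if_neg (Ne.symm hba)]
        simp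
      · intro h; exact absurd ha h
    rw [h1] at h0
    exact (ZMod.intCast_zmod_eq_zero_iff_dvd _ _).mp h0
  have hkχ : k • χ v = 0 := by
    rw [hτ2, Finsupp.sum]
    refine Finset.sum_eq_zero ?_
    intro b hb
    obtain ⟨t, ht⟩ := hcoef b hb
    have hbm := J_magnus_step.lc_mem x b
    rw [hτ b hb] at hbm
    have h5 := J_magnus_step.chi_pow hχ _ hbm (p ^ N)
    rw [hexp, J_magnus_step.chi_one hχ] at h5
    change τ b • χ (lc x b) = 0
    rw [ht, mul_comm, mul_smul, natCast_zsmul, ← h5, smul_zero]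
  have hpχ : (p ^ N) • χ v = 0 := by
    rw [← J_magnus_step.chi_pow hχ v hv, hexp, J_magnus_step.chi_one hχ]
  have hcop : Nat.Coprime k (p ^ N) := by
    apply Nat.Coprime.pow_right
    rw [Nat.coprime_comm]
    rw [Nat.Prime.coprime_iff_not_dvd hp]
    intro hd
    exact absurd (Nat.le_of_dvd hk hd) (by omega)
  have hd : addOrderOf (χ v) ∣ 1 := by
    rw [← hcop.gcd_eq_one]
    exact Nat.dvd_gcd (addOrderOf_dvd_of_nsmul_eq_zero hkχ) (addOrderOf_dvd_of_nsmul_eq_zero hpχ)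
  exact AddMonoid.addOrderOf_eq_one_iff.mp (Nat.dvd_one.mp hd)

end Pool.Agent.Helper252_Cover

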