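import Pool.Agent.Helper252_Cover.Defs

set_option autoImplicit false

open scoped commutatorElement

namespace Pool.Agent.Helper252_Cover

/-
PROOF OF THE TARGET.
Strong form: for every finite p-group of order p^n there are n generators. Induction: build x i greedily: if closure{x_0..x_(i-1)} ≠ ⊤ choose x_i outside it, otherwise x_i = 1; the order of the closure is multiplied by at least p each time (orders of subgroups are powers of p, proper inclusion), so after n steps it is ⊤.
-/

namespace J_exists_gens

theorem step (p n : ℕ) (hp : p.Prime) (H : Type) [Group H] (hH : Nat.card H = p ^ n) (m : ℕ) :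
    ∃ x : Fin m → H, Subgroup.closure (Set.range x) = ⊤ ∨
      p ^ m ≤ Nat.card (Subgroup.closure (Set.range x)) := by
  have hpos : 0 < Nat.card H := by rw [hH]; exact pow_pos hp.pos n
  have : Finite H := Nat.finite_of_card_ne_zero hpos.ne'
  induction m with
  | zero => exact ⟨Fin.elim0, Or.inr (by
      rw [pow_zero]
      exact Nat.card_pos)⟩
  | succ m ih =>
    obtain ⟨x, hx⟩ := ih
    have hsub : ∀ h : H, Subgroup.closure (Set.range x) ≤
        Subgroup.closure (Set.range (Fin.snoc x h : Fin (m + 1) → H)) := by
      intro h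
      refine Subgroup.closure_mono ?_
      rintro y ⟨i, rfl⟩
      exact ⟨Fin.castSucc i, by simp⟩
    have hlast : ∀ h : H, h ∈
        Subgroup.closure (Set.range (Fin.snoc x h : Fin (m + 1) → H)) := by
      intro h
      refine Subgroup.subset_closure ⟨Fin.last m, by simp⟩
    by_cases ht : Subgroup.closure (Set.range x) = ⊤
    · refine ⟨Fin.snoc x 1, Or.inl ?_⟩
      rw [eq_top_iff, ← ht]
      exact hsub 1
    · have hx' := hx.resolve_left ht
      obtain ⟨h, hh⟩ : ∃ h : H, h ∉ Subgroup.closure (Set.range x) := by
        by_contra hc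
        push Not at hc
        exact ht (eq_top_iff.mpr fun y _ => hc y)
      refine ⟨Fin.snoc x h, Or.inr ?_⟩
      obtain ⟨a, -, ha⟩ := (Nat.dvd_prime_pow hp).mp
        (hH ▸ Subgroup.card_subgroup_dvd_card (Subgroup.closure (Set.range x)))
      obtain ⟨b, -, hb⟩ := (Nat.dvd_prime_pow hp).mp
        (hH ▸ Subgroup.card_subgroup_dvd_card
          (Subgroup.closure (Set.range (Fin.snoc x h : Fin (m + 1) → H))))
      have hle : Nat.card (Subgroup.closure (Set.range x)) ≤
          Nat.card (Subgroup.closure (Set.range (Fin.snoc x h : Fin (m + 1) → H))) :=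
        Subgroup.card_le_of_le (hsub h)
      have hne : Nat.card (Subgroup.closure (Set.range x)) ≠
          Nat.card (Subgroup.closure (Set.range (Fin.snoc x h : Fin (m + 1) → H))) := by
        intro he
        have := Subgroup.eq_of_le_of_card_ge (hsub h) he.symm.le
        exact hh (this ▸ hlast h)
      have hlt := lt_of_le_of_ne hle hne
      rw [ha, hb] at hlt
      rw [ha] at hx'
      rw [hb]
      have hab : a < b := (Nat.pow_lt_pow_iff_right hp.one_lt).mp hlt
      have hma : m ≤ a := (Nat.pow_le_pow_iff_right hp.one_lt).mp hx'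
      exact Nat.pow_le_pow_right hp.pos (by omega)

end J_exists_gens

/-- TARGET -/
theorem exists_gens (p n : ℕ) (hp : p.Prime) (H : Type) [Group H] (hH : Nat.card H = p ^ n) :
    ∃ x : Fin n → H, Subgroup.closure (Set.range x) = ⊤ := by
  have hpos : 0 < Nat.card H := by rw [hH]; exact pow_pos hp.pos n
  have : Finite H := Nat.finite_of_card_ne_zero hpos.ne'
  obtain ⟨x, hx⟩ := J_exists_gens.step p n hp H hH n
  refine ⟨x, ?_⟩
  rcases hx with hx | hx
  · exact hx
  · refine Subgroup.eq_top_of_le_card _ ?_
    rw [hH]
    exact hx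

end Pool.Agent.Helper252_Cover
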