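import Pool.Agent.Helper252_Cover.C10_exists_free
import Pool.Agent.Helper252_Cover.C24_exists_gens
import Pool.Agent.Helper252_Cover.C05_pow_eq_one
import Pool.Agent.Helper252_Cover.C18_magnus_step

set_option autoImplicit false

open scoped commutatorElement

namespace Pool.Agent.Helper252_Cover

/-
PROOF OF THE TARGET.
c = N = n. exists_gens gives h : Fin n → H with closure(range h) = ⊤. exists_free n n with q = p^n gives A, Φ, X, |A| <= (p^n)^B'. 1 + X i is a unit U i (X i nilpotent: X i^(n+1) ∈ F (n+1) = ⊥). P = subgroup of Aˣ × H generated by the (U i, h i), x i these generators as elements of P, θ and π the projections. θ y - 1 ∈ F 1 for y ∈ P (subgroup closure; g⁻¹ - 1 = -g⁻¹(g-1)). y^(p^n) = 1 in P by pow_eq_one and Lagrange in H. π is onto.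
Injective: θ v = 1 → v ∈ gm P k for k = 0, 1, ..., n by magnus_step, and π maps gm P n into gm H n = ⊥ (H has order p^n: it is nilpotent and the lower central series decreases strictly until it is trivial, |gm H k| <= p^(n-k)), so π v = 1 and v = 1. B = n B'.
-/

namespace J_exists_linear

theorem gm_bot (p n : ℕ) (hp : p.Prime) (H : Type) [Group H] (hH : Nat.card H = p ^ n) :
    gm H n = ⊥ := by
  have := Fact.mk hp
  have : Finite H := Nat.finite_of_card_ne_zero (by rw [hH]; exact pow_ne_zero _ hp.ne_zero)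
  have hpg : IsPGroup p H := IsPGroup.of_card hH
  have hnil : Group.IsNilpotent H := hpg.isNilpotent
  obtain ⟨N, hN⟩ := Subgroup.nilpotent_iff_lowerCentralSeries.1 hnil
  have key : ∀ k, gm H (k + 1) = gm H k → gm H k = ⊥ := by
    intro k hk
    have h1 : ∀ m, gm H (k + m) = gm H k := by
      intro m
      induction m with
      | zero => rfl
      | succ m ih =>
        have h2 : gm H (k + (m + 1)) = ⁅gm H (k + m), ⊤⁆ := rfl
        rw [h2, ih]
        exact hk
    have h2 := h1 N
    rw [← h2, eq_bot_iff, ← hN]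
    exact Subgroup.lowerCentralSeries_antitone _ (Nat.le_add_left _ _)
  have hcard : ∀ k, k ≤ n → Nat.card (gm H k) ≤ p ^ (n - k) := by
    intro k
    induction k with
    | zero =>
      intro _
      rw [Nat.sub_zero, ← hH]
      exact Subgroup.card_le_card_group _
    | succ k ih =>
      intro hk
      have ih' := ih (by omega)
      by_cases hb : gm H k = ⊥
      · have h3 : gm H (k + 1) = ⊥ := by
          rw [eq_bot_iff, ← hb]
          exact Subgroup.lowerCentralSeries_antitone _ (Nat.le_succ _)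
        rw [h3, Subgroup.card_bot]
        exact Nat.one_le_pow _ _ hp.pos
      · have hle : gm H (k + 1) ≤ gm H k :=
          Subgroup.lowerCentralSeries_antitone _ (Nat.le_succ _)
        obtain ⟨a, ha, hca⟩ := (Nat.dvd_prime_pow hp).1
          (hH ▸ Subgroup.card_subgroup_dvd_card (gm H k))
        obtain ⟨b, hbb, hcb⟩ := (Nat.dvd_prime_pow hp).1
          (hH ▸ Subgroup.card_subgroup_dvd_card (gm H (k + 1)))
        have hcl : Nat.card (gm H (k + 1)) < Nat.card (gm H k) := by
          by_contra hcon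
          exact hb (key k (Subgroup.eq_of_le_of_card_ge hle (not_lt.1 hcon)))
        rw [hca] at ih' hcl
        rw [hcb] at hcl ⊢
        have e1 : b < a := (Nat.pow_lt_pow_iff_right hp.one_lt).1 hcl
        have e2 : a ≤ n - k := (Nat.pow_le_pow_iff_right hp.one_lt).1 ih'
        exact Nat.pow_le_pow_right hp.pos (by omega)
  have h := hcard n le_rfl
  rw [Nat.sub_self, pow_zero] at h
  exact Subgroup.card_le_one_iff_eq_bot _ |>.1 h

theorem pow_mem {A : Type} [Ring A] {c : ℕ} (Φ : Filt A c) {x : A} (hx : x ∈ Φ.F 1) (m : ℕ) :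
    x ^ m ∈ Φ.F m := by
  induction m with
  | zero => rw [Φ.top]; exact AddSubgroup.mem_top _
  | succ m ih => rw [pow_succ]; exact Φ.mul _ _ _ _ ih hx

theorem pow_zero' {A : Type} [Ring A] {c : ℕ} (Φ : Filt A c) {x : A} (hx : x ∈ Φ.F 1) :
    x ^ (c + 1) = 0 := by
  have h := pow_mem Φ hx (c + 1)
  rw [Φ.bot] at h
  exact AddSubgroup.mem_bot.1 h

/-- the units congruent to one -/
def cong {A : Type} [Ring A] {c : ℕ} (Φ : Filt A c) : Subgroup Aˣ where
  carrier := {g | (g : A) - 1 ∈ Φ.F 1}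
  one_mem' := by
    simp [AddSubgroup.zero_mem]
  mul_mem' := by
    intro a b ha hb
    simp only [Set.mem_ofPred_eq] at *
    have h1 : ((a * b : Aˣ) : A) - 1 = ((a : A) - 1) * b + ((b : A) - 1) := by
      push_cast
      noncomm_ring
    rw [h1]
    have h2 : ((a : A) - 1) * b ∈ Φ.F (1 + 0) := Φ.mul _ _ _ _ ha (by
      rw [Φ.top]; exact AddSubgroup.mem_top _)
    exact AddSubgroup.add_mem _ h2 hb
  inv_mem' := by
    intro a ha
    simp only [Set.mem_ofPred_eq] at *
    have h1 : ((a⁻¹ : Aˣ) : A) - 1 = -(((a⁻¹ : Aˣ) : A) * ((a : A) - 1)) := by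
      rw [mul_sub, Units.inv_mul, mul_one]
      abel
    rw [h1]
    have h2 : ((a⁻¹ : Aˣ) : A) * ((a : A) - 1) ∈ Φ.F (0 + 1) := Φ.mul _ _ _ _ (by
      rw [Φ.top]; exact AddSubgroup.mem_top _) ha
    exact AddSubgroup.neg_mem _ (by simpa using h2)

end J_exists_linear

/-- TARGET -/
theorem exists_linear (n : ℕ) (hn : 1 ≤ n) : ∃ B : ℕ, ∀ (p : ℕ), p.Prime → n < p →
    ∀ (H : Type) [Group H], Nat.card H = p ^ n →
    ∃ (A : Type) (_ : Ring A) (Φ : Filt A n), (∀ x : A, (p ^ n) • x = 0) ∧ Finite A ∧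
      Nat.card A ≤ p ^ B ∧ ∃ (P : Type) (_ : Group P) (θ : P →* Aˣ) (π : P →* H),
        Function.Injective θ ∧ Function.Surjective π ∧
        ∀ y : P, ((θ y : Aˣ) : A) - 1 ∈ Φ.F 1 := by
  obtain ⟨B', hB'⟩ := exists_free n n
  refine ⟨n * B', ?_⟩
  intro p hp hnp H _ hH
  obtain ⟨h, hh⟩ := exists_gens p n hp H hH
  have hq : 2 ≤ p ^ n := le_trans hp.two_le (Nat.le_self_pow (by omega) p)
  obtain ⟨A, _, Φ, X, ⟨hX⟩, hq0, hfin, hcard⟩ := hB' (p ^ n) hq
  rw [← pow_mul] at hcard
  refine ⟨A, inferInstance, Φ, hq0, hfin, hcard, ?_⟩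
  have hU : ∀ i, IsUnit (1 + X i) := fun i =>
    IsNilpotent.isUnit_one_add ⟨n + 1, J_exists_linear.pow_zero' Φ (hX.mem i)⟩
  let U : Fin n → Aˣ := fun i => (hU i).unit
  have hUv : ∀ i, ((U i : Aˣ) : A) = 1 + X i := fun i => (hU i).unit_spec
  let S : Subgroup (Aˣ × H) := Subgroup.closure (Set.range fun i => (U i, h i))
  let x : Fin n → S := fun i => ⟨(U i, h i), Subgroup.subset_closure ⟨i, rfl⟩⟩
  have hx : Subgroup.closure (Set.range x) = ⊤ := by
    have h1 : Set.range x = (Subtype.val : S → Aˣ × H) ⁻¹' (Set.range fun i => (U i, h i)) := by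
      ext y
      constructor
      · rintro ⟨i, rfl⟩
        exact ⟨i, rfl⟩
      · rintro ⟨i, hi⟩
        exact ⟨i, Subtype.ext hi⟩
    rw [h1]
    exact Subgroup.closure_closure_coe_preimage
  let θ : S →* Aˣ := (MonoidHom.fst Aˣ H).comp S.subtype
  let π : S →* H := (MonoidHom.snd Aˣ H).comp S.subtype
  have hθ1 : ∀ y : S, ((θ y : Aˣ) : A) - 1 ∈ Φ.F 1 := by
    have h1 : (⊤ : Subgroup S) ≤ (J_exists_linear.cong Φ).comap θ := by
      rw [← hx, Subgroup.closure_le]
      rintro _ ⟨i, rfl⟩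
      change ((U i : Aˣ) : A) - 1 ∈ Φ.F 1
      rw [hUv, add_sub_cancel_left]
      exact hX.mem i
    exact fun y => h1 (Subgroup.mem_top y)
  have hexp : ∀ y : S, y ^ (p ^ n) = 1 := by
    intro y
    apply Subtype.ext
    apply Prod.ext
    · change (θ y) ^ (p ^ n) = 1
      apply Units.ext
      have h2 := pow_eq_one p n n hp hnp hq0 (((θ y : Aˣ) : A) - 1)
        (J_exists_linear.pow_zero' Φ (hθ1 y))
      rw [add_sub_cancel] at h2
      push_cast
      exact h2
    · change (π y) ^ (p ^ n) = 1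
      rw [← hH]
      exact pow_card_eq_one'
  refine ⟨S, inferInstance, θ, π, ?_, ?_, hθ1⟩
  · rw [injective_iff_map_eq_one]
    intro v hv
    have h1 : ∀ k, k ≤ n → v ∈ gm S k := by
      intro k
      induction k with
      | zero => intro _; exact Subgroup.mem_top v
      | succ k ih =>
        intro hk
        exact magnus_step Φ p n n hp hnp X hX S x hx hexp θ (fun i => hUv i) (k + 1) (by omega) hk
          v (ih (by omega)) hv
    have h2 : π v ∈ (gm S n).map π := Subgroup.mem_map_of_mem _ (h1 n le_rfl)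
    have h3 : π v ∈ gm H n := by
      rw [Subgroup.map_lowerCentralSeries] at h2
      exact Subgroup.lowerCentralSeries_mono n le_top h2
    rw [J_exists_linear.gm_bot p n hp H hH, Subgroup.mem_bot] at h3
    exact Subtype.ext (Prod.ext hv h3)
  · rw [← MonoidHom.range_eq_top, eq_top_iff, ← hh, Subgroup.closure_le]
    rintro _ ⟨i, rfl⟩
    exact ⟨x i, rfl⟩

end Pool.Agent.Helper252_Cover
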