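import Pool.Agent.Helper252_Cover.Defs

set_option autoImplicit false

open scoped commutatorElement

namespace Pool.Agent.Helper252_Cover

/-
PROOF OF THE TARGET.
Basic facts by induction on k: DegLE k is closed under sums, negatives, left multiplication by a constant ring element and right multiplication by a constant, and monotone in k (DegLE k f → DegLE (k+1) f). Then induction on k + l (for all f, g): if k = 0 then f is constant (f y = f (1 * y) = f 1), if l = 0 then g is constant. Otherwise the difference of f g at h is (∂f) g + f (∂g) + (∂f)(∂g), where ∂f(y) = f(y h) - f(y) has degree <= k-1, ∂g degree <= l-1; by induction each summand has degree <= k + l - 1.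
-/

namespace J_deg_mul

theorem dadd {P A : Type} [Group P] [Ring A] (k : ℕ) : ∀ (f g : P → A), DegLE k f → DegLE k g →
    DegLE k (fun y => f y + g y) := by
  induction k with
  | zero =>
    intro f g hf hg x h
    simp only [DegLE] at hf hg
    show f (x * h) + g (x * h) = f x + g x
    rw [hf, hg]
  | succ k ih =>
    intro f g hf hg h
    have := ih _ _ (hf h) (hg h)
    have e : (fun y => (f (y * h) - f y) + (g (y * h) - g y)) =
        (fun y => (f (y * h) + g (y * h)) - (f y + g y)) := by
      funext y; abel
    rw [e] at this
    exact this

theorem dmulL {P A : Type} [Group P] [Ring A] (c : A) (k : ℕ) : ∀ (f : P → A), DegLE k f →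
    DegLE k (fun y => c * f y) := by
  induction k with
  | zero =>
    intro f hf x h
    simp only [DegLE] at hf
    show c * f (x * h) = c * f x
    rw [hf]
  | succ k ih =>
    intro f hf h
    have := ih _ (hf h)
    have e : (fun y => c * (f (y * h) - f y)) =
        (fun y => (c * f (y * h)) - (c * f y)) := by
      funext y; rw [mul_sub]
    rw [e] at this
    exact this

theorem dmulR {P A : Type} [Group P] [Ring A] (c : A) (k : ℕ) : ∀ (f : P → A), DegLE k f →
    DegLE k (fun y => f y * c) := by
  induction k with
  | zero =>
    intro f hf x h
    simp only [DegLE] at hf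
    show f (x * h) * c = f x * c
    rw [hf]
  | succ k ih =>
    intro f hf h
    have := ih _ (hf h)
    have e : (fun y => (f (y * h) - f y) * c) =
        (fun y => (f (y * h) * c) - (f y * c)) := by
      funext y; rw [sub_mul]
    rw [e] at this
    exact this

theorem dmono {P A : Type} [Group P] [Ring A] (k : ℕ) : ∀ (f : P → A), DegLE k f →
    DegLE (k + 1) f := by
  induction k with
  | zero =>
    intro f hf h x h'
    simp only [DegLE] at hf
    show f (x * h' * h) - f (x * h') = f (x * h) - f x
    rw [hf, hf, hf]
  | succ k ih =>
    intro f hf h
    exact ih _ (hf h)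

theorem const_of_zero {P A : Type} [Group P] [Ring A] (f : P → A) (hf : DegLE 0 f) (y : P) :
    f y = f 1 := by
  have := hf 1 y
  rwa [one_mul] at this

theorem main {P A : Type} [Group P] [Ring A] (n : ℕ) : ∀ (k l : ℕ) (f g : P → A), k + l = n →
    DegLE k f → DegLE l g → DegLE n (fun y => f y * g y) := by
  induction n with
  | zero =>
    intro k l f g hkl hf hg x h
    obtain rfl : k = 0 := by omega
    obtain rfl : l = 0 := by omega
    simp only [DegLE] at hf hg
    show f (x * h) * g (x * h) = f x * g x
    rw [hf, hg]
  | succ n ih =>
    intro k l f g hkl hf hg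
    rcases k with _ | k
    · obtain rfl : l = n + 1 := by omega
      have e : (fun y => f y * g y) = (fun y => f 1 * g y) := by
        funext y; rw [const_of_zero f hf y]
      rw [e]
      exact dmulL (f 1) (n + 1) g hg
    · rcases l with _ | l
      · obtain rfl : k = n := by omega
        have e : (fun y => f y * g y) = (fun y => f y * g 1) := by
          funext y; rw [const_of_zero g hg y]
        rw [e]
        exact dmulR (g 1) (k + 1) f hf
      · intro h
        have h1 : DegLE n (fun y => (f (y * h) - f y) * g y) :=
          ih k (l + 1) _ _ (by omega) (hf h) hg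
        have h2 : DegLE n (fun y => f y * (g (y * h) - g y)) :=
          ih (k + 1) l _ _ (by omega) hf (hg h)
        have h3 : DegLE n (fun y => (f (y * h) - f y) * (g (y * h) - g y)) :=
          ih (k + 1) l _ _ (by omega) (dmono k _ (hf h)) (hg h)
        have h4 := dadd n _ _ (dadd n _ _ h1 h2) h3
        have e : (fun y => (f (y * h) - f y) * g y + f y * (g (y * h) - g y) +
            (f (y * h) - f y) * (g (y * h) - g y)) =
            (fun y => f (y * h) * g (y * h) - f y * g y) := by
          funext y; noncomm_ring
        rw [e] at h4
        exact h4

end J_deg_mul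

/-- TARGET -/
theorem deg_mul {P A : Type} [Group P] [Ring A] (k l : ℕ) (f g : P → A) (hf : DegLE k f)
    (hg : DegLE l g) : DegLE (k + l) (fun y => f y * g y) := by
  exact J_deg_mul.main (k + l) k l f g rfl hf hg

end Pool.Agent.Helper252_Cover
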