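import Pool.Agent.Helper252_Cover.Defs

set_option autoImplicit false

open scoped commutatorElement

namespace Pool.Agent.Helper252_Cover

/-
PROOF OF THE TARGET.
More generally for i <= c and b ∈ Φ.F i the function y ↦ θ y * b has DegLE (c - i), by induction on c - i: θ(y h) b - θ(y) b = θ(y) ((θ h - 1) b) with (θ h - 1) b ∈ F (i+1); for i = c this is 0 as F (c+1) = ⊥, so the function satisfies f (g h) = f g. Take i = 0, b = 1.
-/

namespace J_deg_lin

lemma gen {P A : Type} [Group P] [Ring A] {c : ℕ} (Φ : Filt A c) (θ : P →* Aˣ)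
    (hθ : ∀ y : P, ((θ y : Aˣ) : A) - 1 ∈ Φ.F 1) (k : ℕ) :
    ∀ (i : ℕ) (b : A), i + k = c → b ∈ Φ.F i →
      DegLE k (fun y : P => ((θ y : Aˣ) : A) * b) := by
  induction k with
  | zero =>
    intro i b hi hb
    have hi' : i = c := by omega
    subst hi'
    intro g h
    have h1 : (((θ h : Aˣ) : A) - 1) * b ∈ Φ.F (1 + i) := Φ.mul 1 i _ _ (hθ h) hb
    rw [Nat.add_comm 1 i, Φ.bot, AddSubgroup.mem_bot] at h1
    have h2 : ((θ (g * h) : Aˣ) : A) * b - ((θ g : Aˣ) : A) * b =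
        ((θ g : Aˣ) : A) * ((((θ h : Aˣ) : A) - 1) * b) := by
      rw [map_mul, Units.val_mul]
      noncomm_ring
    rw [h1, mul_zero] at h2
    exact sub_eq_zero.mp h2
  | succ k ih =>
    intro i b hi hb h
    have h1 : (((θ h : Aˣ) : A) - 1) * b ∈ Φ.F (1 + i) := Φ.mul 1 i _ _ (hθ h) hb
    have h3 := ih (1 + i) ((((θ h : Aˣ) : A) - 1) * b) (by omega) h1
    have h2 : (fun g : P => ((θ (g * h) : Aˣ) : A) * b - ((θ g : Aˣ) : A) * b) =
        fun g : P => ((θ g : Aˣ) : A) * ((((θ h : Aˣ) : A) - 1) * b) := by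
      funext g
      rw [map_mul, Units.val_mul]
      noncomm_ring
    show DegLE k (fun g : P => ((θ (g * h) : Aˣ) : A) * b - ((θ g : Aˣ) : A) * b)
    rw [h2]
    exact h3

end J_deg_lin

/-- TARGET -/
theorem deg_lin {P A : Type} [Group P] [Ring A] {c : ℕ} (Φ : Filt A c) (θ : P →* Aˣ)
    (hθ : ∀ y : P, ((θ y : Aˣ) : A) - 1 ∈ Φ.F 1) :
    DegLE c (fun y : P => ((θ y : Aˣ) : A)) := by
  have h1 : (1 : A) ∈ Φ.F 0 := by rw [Φ.top]; exact AddSubgroup.mem_top _
  have h2 := J_deg_lin.gen Φ θ hθ c 0 1 (by omega) h1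
  simpa using h2

end Pool.Agent.Helper252_Cover

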