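import Pool.Agent.Helper252_Cover.C20_deg_mul
import Pool.Agent.Helper252_Cover.C21_deg_lin

set_option autoImplicit false

open scoped commutatorElement

namespace Pool.Agent.Helper252_Cover

namespace J_deg_lg

variable {P W : Type} [Group P] [AddCommGroup W]

theorem zero_fun (k : ℕ) : DegLE k (fun _ : P => (0 : W)) := by
  induction k with
  | zero => intro g h; rfl
  | succ k ih =>
    intro h
    simpa using ih

theorem succ_of (k : ℕ) : ∀ f : P → W, DegLE k f → DegLE (k + 1) f := by
  induction k with
  | zero =>
    intro f hf h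
    have : (fun g => f (g * h) - f g) = fun _ => (0 : W) := by
      ext g
      rw [hf g h, sub_self]
    rw [this]
    exact zero_fun 0
  | succ k ih =>
    intro f hf h
    exact ih _ (hf h)

theorem mono {k l : ℕ} (hkl : k ≤ l) (f : P → W) (hf : DegLE k f) : DegLE l f := by
  induction l, hkl using Nat.le_induction with
  | base => exact hf
  | succ l _ ih => exact succ_of l f ih

theorem add_of (k : ℕ) : ∀ f g : P → W, DegLE k f → DegLE k g → DegLE k (fun y => f y + g y) := by
  induction k with
  | zero =>
    intro f g hf hg a b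
    show f (a * b) + g (a * b) = f a + g a
    rw [hf a b, hg a b]
  | succ k ih =>
    intro f g hf hg h
    have := ih _ _ (hf h) (hg h)
    refine (congrArg (DegLE k) ?_).mp this
    ext y
    exact (add_sub_add_comm _ _ _ _).symm

theorem smul_of (n : ℤ) (k : ℕ) : ∀ f : P → W, DegLE k f → DegLE k (fun y => n • f y) := by
  induction k with
  | zero =>
    intro f hf a b
    show n • f (a * b) = n • f a
    rw [hf a b]
  | succ k ih =>
    intro f hf h
    have := ih _ (hf h)
    refine (congrArg (DegLE k) ?_).mp this
    ext y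
    rw [smul_sub]

theorem const_fun (k : ℕ) (w : W) : DegLE k (fun _ : P => w) :=
  mono (Nat.zero_le k) _ (fun _ _ => rfl)

theorem sum_of {ι : Type} (s : Finset ι) (k : ℕ) (f : ι → P → W) (hf : ∀ i ∈ s, DegLE k (f i)) :
    DegLE k (fun y => ∑ i ∈ s, f i y) := by
  classical
  induction s using Finset.induction_on with
  | empty => simpa using zero_fun k
  | insert a s ha ih =>
    have h1 := add_of k _ _ (hf a (Finset.mem_insert_self a s))
      (ih (fun i hi => hf i (Finset.mem_insert_of_mem hi)))
    simpa [Finset.sum_insert ha] using h1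

theorem pow_of {P A : Type} [Group P] [Ring A] (c : ℕ) (u : P → A) (hu : DegLE c u) (i : ℕ) :
    DegLE (i * c) (fun y => u y ^ i) := by
  induction i with
  | zero =>
    simp only [pow_zero]
    exact const_fun _ _
  | succ i ih =>
    have := deg_mul _ _ _ _ ih hu
    rw [Nat.succ_mul]
    simpa only [pow_succ] using this

end J_deg_lg

/-
PROOF OF THE TARGET.
u(y) = θ y - 1 has DegLE c (deg_lin, subtract a constant), u^i has DegLE (i c) by deg_mul and induction (DegLE 0 for the constant 1), i c <= c c for i <= c, monotonicity of DegLE in k, integer multiples and finite sums.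
-/

/-- TARGET -/
theorem deg_lg {P A : Type} [Group P] [Ring A] {c : ℕ} (Φ : Filt A c) (p N : ℕ) (θ : P →* Aˣ)
    (hθ : ∀ y : P, ((θ y : Aˣ) : A) - 1 ∈ Φ.F 1) :
    DegLE (c * c) (fun y : P => lg p N c (((θ y : Aˣ) : A) - 1)) := by
  have hu : DegLE c (fun y : P => ((θ y : Aˣ) : A) - 1) := by
    have h1 := J_deg_lg.add_of c _ _ (deg_lin Φ θ hθ) (J_deg_lg.const_fun (P := P) c (-1 : A))
    simpa only [sub_eq_add_neg] using h1
  unfold lg
  apply J_deg_lg.sum_of
  intro i hi
  apply J_deg_lg.smul_of
  refine J_deg_lg.mono (Nat.mul_le_mul_right c (Finset.mem_Icc.1 hi).2) _ ?_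
  exact J_deg_lg.pow_of c _ hu i

end Pool.Agent.Helper252_Cover
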