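import Pool.Agent.Helper252_Cover.C09_lg_add
import Pool.Agent.Helper252_Cover.C06_lg_inj
import Pool.Agent.Helper252_Cover.C22_deg_lg

set_option autoImplicit false

open scoped commutatorElement

namespace Pool.Agent.Helper252_Cover

/-
PROOF OF THE TARGET.
K from lg_add (c <= K). Write λ(y) = lg p N c (θ y - 1) for y ∈ P. (1) R = {λ(y) | y ∈ ker π} is an additive subgroup of A: lg_add for the subgroup (ker π).map θ of Aˣ (closed under subtraction, contains λ(1) = 0). (2) Consider the ring A × A with the filtration F k × F k (Filt (A × A) c), the group G2 = {(θ y, θ z) | π y = π z} ≤ (A × A)ˣ (image of the subgroup {(y,z) | π y = π z} of P × P under a homomorphism to (A×A)ˣ; MulEquiv.prodUnits).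
lg is computed componentwise. By lg_add the set {(λ y, λ z) | π y = π z} is closed under subtraction. (3) Claim: π y = π z ↔ λ y - λ z ∈ R. →: (λ y, λ z) - (λ z, λ z) = (λ y - λ z, 0) = (λ a, λ b) with π a = π b, λ b = 0 = λ 1, so θ b = 1 (lg_inj) and b = 1, a ∈ ker π. ←: λ y - λ z = λ a with a ∈ ker π; (λ a, 0) = (λ a, λ 1) and -(λ z, λ z) = (0,0) - (λ z, λ z), so (λ y, λ z) = (λ a, 0) - (-(λ z, λ z)) is in the set:
= (λ y', λ z') with π y' = π z'; by lg_inj and injectivity of θ y' = y, z' = z. So ι (π y) = class of λ y in A ⧸ R is well defined and injective (π surjective). DegLE (c*c) for y ↦ λ y (deg_lg), preserved by the additive map A → A ⧸ R, and DegLE k (ι ∘ π) → DegLE k ι since π is surjective (induction on k).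
-/

namespace J_exists_iota

theorem map_lg {A B : Type} [Ring A] [Ring B] (φ : A →+* B) (p N c : ℕ) (u : A) :
    φ (lg p N c u) = lg p N c (φ u) := by
  unfold lg
  rw [map_sum]
  refine Finset.sum_congr rfl (fun i _ => ?_)
  rw [map_zsmul, map_pow]

theorem lg_zero {A : Type} [Ring A] (p N c : ℕ) : lg p N c (0 : A) = 0 := by
  unfold lg
  refine Finset.sum_eq_zero (fun i hi => ?_)
  rw [Finset.mem_Icc] at hi
  rw [zero_pow (by omega), smul_zero]

/-- filtration of the square -/
def filt2 {A : Type} [Ring A] {c : ℕ} (Φ : Filt A c) : Filt (A × A) c where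
  F k := (Φ.F k).prod (Φ.F k)
  anti i := by
    intro x hx
    rw [AddSubgroup.mem_prod] at hx ⊢
    exact ⟨Φ.anti i hx.1, Φ.anti i hx.2⟩
  top := by rw [Φ.top, AddSubgroup.top_prod_top]
  mul i j x y hx hy := by
    rw [AddSubgroup.mem_prod] at hx hy ⊢
    exact ⟨Φ.mul i j _ _ hx.1 hy.1, Φ.mul i j _ _ hx.2 hy.2⟩
  bot := by
    ext x
    rw [AddSubgroup.mem_prod, Φ.bot, AddSubgroup.mem_bot, AddSubgroup.mem_bot, AddSubgroup.mem_bot]
    constructor
    · rintro ⟨h1, h2⟩
      exact Prod.ext h1 h2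
    · rintro rfl
      exact ⟨rfl, rfl⟩

theorem degLE_map {P W W' : Type} [Group P] [AddCommGroup W] [AddCommGroup W'] (φ : W →+ W') :
    ∀ (k : ℕ) (f : P → W), DegLE k f → DegLE k (fun g => φ (f g)) := by
  intro k
  induction k with
  | zero =>
    intro f hf g h
    show φ (f (g * h)) = φ (f g)
    rw [hf g h]
  | succ k ih =>
    intro f hf h
    have h1 := ih _ (hf h)
    have h2 : (fun g => φ (f (g * h) - f g)) = fun g => φ (f (g * h)) - φ (f g) := by
      funext g
      rw [map_sub]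
    rw [h2] at h1
    exact h1

theorem degLE_desc {P H W : Type} [Group P] [Group H] [AddCommGroup W] (π : P →* H)
    (hπ : Function.Surjective π) :
    ∀ (k : ℕ) (f : H → W), DegLE k (fun y => f (π y)) → DegLE k f := by
  intro k
  induction k with
  | zero =>
    intro f hf g h
    obtain ⟨y, rfl⟩ := hπ g
    obtain ⟨z, rfl⟩ := hπ h
    rw [← map_mul]
    exact hf y z
  | succ k ih =>
    intro f hf h
    obtain ⟨z, rfl⟩ := hπ h
    apply ih
    have h1 := hf z
    have h2 : (fun g => f (π (g * z)) - f (π g)) = fun y => f (π y * π z) - f (π y) := by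
      funext g
      rw [map_mul]
    rw [h2] at h1
    exact h1

end J_exists_iota

open J_exists_iota in
/-- TARGET -/
theorem exists_iota (c : ℕ) (hc1 : 1 ≤ c) : ∃ K : ℕ, ∀ (p N : ℕ), p.Prime → K < p →
    ∀ (A : Type) [Ring A] (Φ : Filt A c), (∀ x : A, (p ^ N) • x = 0) →
    ∀ (P H : Type) [Group P] [Group H] (θ : P →* Aˣ) (π : P →* H), Function.Injective θ →
      Function.Surjective π → (∀ y : P, ((θ y : Aˣ) : A) - 1 ∈ Φ.F 1) →
      ∃ (R : AddSubgroup A) (ι : H → A ⧸ R), Function.Injective ι ∧ DegLE (c * c) ι := by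
  obtain ⟨K, hcK, hK⟩ := lg_add c hc1
  refine ⟨K, ?_⟩
  intro p N hp hKp A _ Φ hA P H _ _ θ π hθ hπ hF
  have hcp : c < p := by omega
  set lam : P → A := fun y => lg p N c (((θ y : Aˣ) : A) - 1) with hlam
  have lam_inj : ∀ y z, lam y = lam z → y = z := by
    intro y z hyz
    have h1 := lg_inj Φ p N hp hcp hA _ _ (hF y) (hF z) hyz
    apply hθ
    apply Units.ext
    exact sub_left_injective h1
  have lam_one : lam 1 = 0 := by
    show lg p N c (((θ 1 : Aˣ) : A) - 1) = 0
    rw [map_one, Units.val_one, sub_self, lg_zero]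
  -- the set of pairs
  let ψ : P × P →* (A × A)ˣ := (MulEquiv.prodUnits (M := A) (N := A)).symm.toMonoidHom.comp (θ.prodMap θ)
  have hψ : ∀ y z : P, ((ψ (y, z) : (A × A)ˣ) : A × A) = (((θ y : Aˣ) : A), ((θ z : Aˣ) : A)) :=
    fun y z => rfl
  have hlg2 : ∀ y z : P, lg p N c (((ψ (y, z) : (A × A)ˣ) : A × A) - 1) = (lam y, lam z) := by
    intro y z
    apply Prod.ext
    · have h1 := map_lg (RingHom.fst A A) p N c (((ψ (y, z) : (A × A)ˣ) : A × A) - 1)
      exact h1
    · have h1 := map_lg (RingHom.snd A A) p N c (((ψ (y, z) : (A × A)ˣ) : A × A) - 1)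
      exact h1
  have S2 : ∀ y z y' z' : P, π y = π z → π y' = π z' →
      ∃ u v : P, π u = π v ∧ lam u = lam y - lam y' ∧ lam v = lam z - lam z' := by
    intro y z y' z' h1 h2
    let E : Subgroup (P × P) := MonoidHom.eqLocus (π.comp (MonoidHom.fst P P))
      (π.comp (MonoidHom.snd P P))
    obtain ⟨k, hk, hk2⟩ := hK p N hp hKp (A × A) (filt2 Φ)
      (fun x => Prod.ext (hA x.1) (hA x.2)) (E.map ψ)
      (by
        rintro g ⟨⟨a, b⟩, -, rfl⟩
        show _ ∈ (Φ.F 1).prod (Φ.F 1)
        rw [AddSubgroup.mem_prod]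
        exact ⟨hF a, hF b⟩)
      (ψ (y, z)) ⟨(y, z), h1, rfl⟩ (ψ (y', z')) ⟨(y', z'), h2, rfl⟩
    obtain ⟨⟨u, v⟩, huv, rfl⟩ := hk
    rw [hlg2, hlg2, hlg2] at hk2
    refine ⟨u, v, huv, ?_, ?_⟩
    · exact congrArg Prod.fst hk2
    · exact congrArg Prod.snd hk2
  -- the subgroup
  have hsub : ∀ a b : P, π a = 1 → π b = 1 → ∃ y, π y = 1 ∧ lam y = lam a - lam b := by
    intro a b ha hb
    obtain ⟨u, v, h1, h2, h3⟩ := S2 a 1 b 1 (by rw [ha, map_one]) (by rw [hb, map_one])
    have h4 : v = 1 := lam_inj _ _ (by rw [h3, lam_one, sub_self])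
    exact ⟨u, by rw [h1, h4, map_one], h2⟩
  let R : AddSubgroup A :=
    { carrier := {x | ∃ a : P, π a = 1 ∧ lam a = x}
      add_mem' := by
        rintro x y ⟨a, ha, rfl⟩ ⟨b, hb, rfl⟩
        obtain ⟨b', hb', h1⟩ := hsub 1 b (map_one π) hb
        obtain ⟨u, hu, h2⟩ := hsub a b' ha hb'
        exact ⟨u, hu, by rw [h2, h1, lam_one]; abel⟩
      zero_mem' := ⟨1, map_one π, lam_one⟩
      neg_mem' := by
        rintro x ⟨a, ha, rfl⟩
        obtain ⟨b', hb', h1⟩ := hsub 1 a (map_one π) ha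
        exact ⟨b', hb', by rw [h1, lam_one, zero_sub]⟩ }
  have key : ∀ y z : P, π y = π z ↔ lam y - lam z ∈ R := by
    intro y z
    constructor
    · intro h
      obtain ⟨u, v, h1, h2, h3⟩ := S2 y z z z h rfl
      have h4 : v = 1 := lam_inj _ _ (by rw [h3, lam_one, sub_self])
      exact ⟨u, by rw [h1, h4, map_one], h2⟩
    · rintro ⟨a, ha, h⟩
      obtain ⟨u, v, h1, h2, h3⟩ := S2 1 1 z z rfl rfl
      obtain ⟨u', v', h1', h2', h3'⟩ := S2 a 1 u v (by rw [ha, map_one]) h1
      have e1 : u' = y := lam_inj _ _ (by rw [h2', h2, h, lam_one]; abel)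
      have e2 : v' = z := lam_inj _ _ (by rw [h3', h3, lam_one]; abel)
      rw [← e1, ← e2]
      exact h1'
  let ι : H → A ⧸ R := fun h => ((lam (hπ h).choose : A) : A ⧸ R)
  have hι : ∀ y : P, ι (π y) = ((lam y : A) : A ⧸ R) := by
    intro y
    show ((lam (hπ (π y)).choose : A) : A ⧸ R) = _
    rw [QuotientAddGroup.eq]
    have h1 := (key y (hπ (π y)).choose).mp (hπ (π y)).choose_spec.symm
    have h2 : -lam (hπ (π y)).choose + lam y = lam y - lam (hπ (π y)).choose := by abel
    rw [h2]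
    exact h1
  refine ⟨R, ι, ?_, ?_⟩
  · intro h1 h2 h
    obtain ⟨y, rfl⟩ := hπ h1
    obtain ⟨z, rfl⟩ := hπ h2
    rw [hι, hι, QuotientAddGroup.eq] at h
    have h3 : lam y - lam z ∈ R := by
      have h4 := R.neg_mem h
      have h5 : -(-lam y + lam z) = lam y - lam z := by abel
      rw [h5] at h4
      exact h4
    exact (key y z).mpr h3
  · apply degLE_desc π hπ
    have h1 : (fun y => ι (π y)) = fun y => QuotientAddGroup.mk' R (lam y) := by
      funext y
      exact hι y
    rw [h1]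
    exact degLE_map (QuotientAddGroup.mk' R) _ _ (deg_lg Φ p N θ hF)

end Pool.Agent.Helper252_Cover
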