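import Pool.Agent.Helper252_Cover.Defs

set_option autoImplicit false

open scoped commutatorElement

namespace Pool.Agent.Helper252_Cover

/-
PROOF OF THE TARGET.
Induction on k. k = 0: f (g h) = f g for all g, h means f constant, so at most |W| functions. k+1: the map f ↦ (f 1, (y ↦ f (y x_i) - f y)_i) into W × (Fin n → {f // DegLE k f}) is injective: if f, f' have the same image then g = f - f' satisfies g(y x_i) = g(y) for all y, i; the set {h | ∀ y, g(y h) = g y} is a submonoid containing the x i, closed under inverses, so it is everything, g is constant = g 1 = 0. So the number is at most |W| (|W|^((n+1)^k))^n <= |W|^((n+1)^(k+1)) since 1 + n (n+1)^k <= (n+1)^(k+1) (|W| >= 1).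
-/

namespace J_card_deg

theorem ext_of_gens {n : ℕ} {P W : Type} [Group P] [AddCommGroup W] (x : Fin n → P)
    (hx : Subgroup.closure (Set.range x) = ⊤) (f f' : P → W) (h1 : f 1 = f' 1)
    (hb : ∀ i g, f (g * x i) - f g = f' (g * x i) - f' g) : f = f' := by
  let H : Subgroup P :=
    { carrier := {h | ∀ y, f (y * h) - f' (y * h) = f y - f' y}
      one_mem' := by
        intro y
        rw [mul_one]
      mul_mem' := by
        intro a b ha hb y
        have e1 := hb (y * a)
        have e2 := ha y
        rw [mul_assoc] at e1
        rw [e1, e2]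
      inv_mem' := by
        intro a ha y
        have e1 := ha (y * a⁻¹)
        rw [inv_mul_cancel_right] at e1
        exact e1.symm }
  have hH : H = ⊤ := by
    rw [eq_top_iff, ← hx, Subgroup.closure_le]
    rintro _ ⟨i, rfl⟩ y
    have e1 := hb i y
    show f (y * x i) - f' (y * x i) = f y - f' y
    rw [sub_eq_sub_iff_add_eq_add] at e1 ⊢
    rw [add_comm (f y)]
    rw [e1]
  funext y
  have hy : y ∈ H := by
    rw [hH]
    exact Subgroup.mem_top y
  have e1 : f (1 * y) - f' (1 * y) = f 1 - f' 1 := hy 1
  rw [one_mul, h1, sub_self] at e1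
  exact sub_eq_zero.1 e1

end J_card_deg

/-- TARGET -/
theorem card_deg (n k : ℕ) (P W : Type) [Group P] [Finite P] [AddCommGroup W] [Finite W]
    (x : Fin n → P) (hx : Subgroup.closure (Set.range x) = ⊤) :
    Nat.card {f : P → W // DegLE k f} ≤ Nat.card W ^ ((n + 1) ^ k) := by
  have hW : 0 < Nat.card W := Nat.card_pos
  induction k with
  | zero =>
      rw [pow_zero, pow_one]
      refine Nat.card_le_card_of_injective (fun f : {f : P → W // DegLE 0 f} => f.1 1) ?_
      intro f g h
      apply Subtype.ext
      funext y
      have h1 := f.2 1 y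
      have h2 := g.2 1 y
      rw [one_mul] at h1 h2
      rw [h1, h2]
      exact h
  | succ k ih =>
      have h1 : Nat.card {f : P → W // DegLE (k + 1) f} ≤
          Nat.card (W × (Fin n → {f : P → W // DegLE k f})) := by
        refine Nat.card_le_card_of_injective
          (fun f : {f : P → W // DegLE (k + 1) f} =>
            ((f.1 1, fun i => ⟨fun g => f.1 (g * x i) - f.1 g, f.2 (x i)⟩) :
              W × (Fin n → {f : P → W // DegLE k f}))) ?_
        intro f f' h
        have ha : f.1 1 = f'.1 1 := congrArg Prod.fst h
        have hb : ∀ i g, f.1 (g * x i) - f.1 g = f'.1 (g * x i) - f'.1 g := by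
          intro i g
          have h2 := congrFun (congrArg Prod.snd h) i
          have h3 := congrArg Subtype.val h2
          exact congrFun h3 g
        exact Subtype.ext (J_card_deg.ext_of_gens x hx f.1 f'.1 ha hb)
      refine h1.trans ?_
      rw [Nat.card_prod, Nat.card_fun, Nat.card_fin]
      calc Nat.card W * Nat.card {f : P → W // DegLE k f} ^ n
          ≤ Nat.card W * (Nat.card W ^ ((n + 1) ^ k)) ^ n :=
            Nat.mul_le_mul_left _ (Nat.pow_le_pow_left ih n)
        _ = Nat.card W ^ (1 + (n + 1) ^ k * n) := by
            rw [pow_add, pow_one, pow_mul]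
        _ ≤ Nat.card W ^ ((n + 1) ^ (k + 1)) := by
            refine Nat.pow_le_pow_right hW ?_
            have h2 : 1 ≤ (n + 1) ^ k := Nat.one_le_pow _ _ (by omega)
            calc 1 + (n + 1) ^ k * n ≤ (n + 1) ^ k + (n + 1) ^ k * n := by omega
              _ = (n + 1) ^ (k + 1) := by ring

end Pool.Agent.Helper252_Cover
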