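import Pool.Agent.Helper252_Cover.C25_card_deg

set_option autoImplicit false

open scoped commutatorElement

namespace Pool.Agent.Helper252_Cover

/-
PROOF OF THE TARGET.
M = the additive subgroup {φ : H → W | DegLE k φ} of H → W (closed under addition and negation by induction on k); W is finite (Nat.card W = p^b > 0). |M| divides |H → W| = p^(b |H|), so |M| = p^e, and p^e <= (p^b)^((n+1)^k) by card_deg gives e <= b (n+1)^k. Action: (f h φ)(y) = φ(y h); DegLE k is preserved (∂_g of y ↦ φ(y h) at y is (∂_(h⁻¹ g h) φ)(y h), induction on k), f (h h') = f h ∘ f h', each f h is an additive bijection.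
Injective: if f h = 1 then ι(y h) = ι(y) (ι ∈ M), so h = 1.
-/

namespace J_exists_module

theorem deg_zero {P W : Type} [Group P] [AddCommGroup W] :
    ∀ k : ℕ, DegLE k (0 : P → W)
  | 0 => by
      intro g h
      rfl
  | k + 1 => by
      intro h
      have := deg_zero (P := P) (W := W) k
      convert this using 1
      funext g
      simp

theorem deg_add {P W : Type} [Group P] [AddCommGroup W] :
    ∀ (k : ℕ) (f f' : P → W), DegLE k f → DegLE k f' → DegLE k (f + f')
  | 0, f, f', hf, hf' => by
      intro g h
      have h1 : f (g * h) = f g := hf g h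
      have h2 : f' (g * h) = f' g := hf' g h
      simp [h1, h2]
  | k + 1, f, f', hf, hf' => by
      intro h
      have := deg_add k _ _ (hf h) (hf' h)
      convert this using 1
      funext g
      simp only [Pi.add_apply]
      abel

theorem deg_neg {P W : Type} [Group P] [AddCommGroup W] :
    ∀ (k : ℕ) (f : P → W), DegLE k f → DegLE k (-f)
  | 0, f, hf => by
      intro g h
      have h1 : f (g * h) = f g := hf g h
      simp [h1]
  | k + 1, f, hf => by
      intro h
      have := deg_neg k _ (hf h)
      convert this using 1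
      funext g
      simp only [Pi.neg_apply]
      abel

theorem deg_shift {P W : Type} [Group P] [AddCommGroup W] :
    ∀ (k : ℕ) (f : P → W) (h : P), DegLE k f → DegLE k (fun y => f (y * h))
  | 0, f, h, hf => by
      intro g g'
      have h1 : f (g * (g' * h)) = f g := hf g (g' * h)
      have h2 : f (g * h) = f g := hf g h
      show f (g * g' * h) = f (g * h)
      rw [mul_assoc, h1, h2]
  | k + 1, f, h, hf => by
      intro g
      have := deg_shift k _ h (hf (h⁻¹ * g * h))
      convert this using 1
      funext y
      have e : y * g * h = y * h * (h⁻¹ * g * h) := by group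
      show f (y * g * h) - f (y * h) = f (y * h * (h⁻¹ * g * h)) - f (y * h)
      rw [e]

/-- The functions of degree at most `k`. -/
def Md (k : ℕ) (P W : Type) [Group P] [AddCommGroup W] : AddSubgroup (P → W) where
  carrier := {f | DegLE k f}
  zero_mem' := deg_zero k
  add_mem' := fun {f f'} hf hf' => deg_add k f f' hf hf'
  neg_mem' := fun {f} hf => deg_neg k f hf

/-- The action by right translation. -/
def act (k : ℕ) (P W : Type) [Group P] [AddCommGroup W] (h : P) (φ : Md k P W) : Md k P W :=
  ⟨fun y => φ.1 (y * h), deg_shift k φ.1 h φ.2⟩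

theorem act_mul (k : ℕ) (P W : Type) [Group P] [AddCommGroup W] (h h' : P) (φ : Md k P W) :
    act k P W (h * h') φ = act k P W h (act k P W h' φ) := by
  apply Subtype.ext
  funext y
  show φ.1 (y * (h * h')) = φ.1 (y * h * h')
  rw [mul_assoc]

theorem act_one (k : ℕ) (P W : Type) [Group P] [AddCommGroup W] (φ : Md k P W) :
    act k P W 1 φ = φ := by
  apply Subtype.ext
  funext y
  show φ.1 (y * 1) = φ.1 y
  rw [mul_one]

/-- The homomorphism. -/
def hm (k : ℕ) (P W : Type) [Group P] [AddCommGroup W] : P →* Equiv.Perm (Md k P W) where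
  toFun h :=
    { toFun := act k P W h
      invFun := act k P W h⁻¹
      left_inv := fun φ => by rw [← act_mul, inv_mul_cancel, act_one]
      right_inv := fun φ => by rw [← act_mul, mul_inv_cancel, act_one] }
  map_one' := by
    ext1 φ
    exact act_one k P W φ
  map_mul' h h' := by
    ext1 φ
    exact act_mul k P W h h' φ

end J_exists_module

open J_exists_module in
/-- TARGET -/
theorem exists_module (p n b k : ℕ) (hp : p.Prime) (H W : Type) [Group H] [Finite H]
    [AddCommGroup W] (hW : Nat.card W = p ^ b) (x : Fin n → H)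
    (hx : Subgroup.closure (Set.range x) = ⊤) (ι : H → W) (hι : Function.Injective ι)
    (hd : DegLE k ι) : ∃ (M : Type) (_ : AddCommGroup M) (e : ℕ),
      Nat.card M = p ^ e ∧ e ≤ b * (n + 1) ^ k ∧
      ∃ f : H →* Equiv.Perm M, Function.Injective f ∧ ∀ h a b, f h (a + b) = f h a + f h b := by
  have hW0 : Nat.card W ≠ 0 := by
    rw [hW]
    exact pow_ne_zero _ hp.ne_zero
  have : Finite W := Nat.finite_of_card_ne_zero hW0
  have hdvd : Nat.card (Md k H W) ∣ Nat.card (H → W) := AddSubgroup.card_addSubgroup_dvd_card _
  have hfun : Nat.card (H → W) = p ^ (b * Nat.card H) := by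
    rw [Nat.card_fun, hW, pow_mul]
  rw [hfun] at hdvd
  obtain ⟨e, -, he⟩ := (Nat.dvd_prime_pow hp).1 hdvd
  have hle : Nat.card (Md k H W) ≤ Nat.card W ^ ((n + 1) ^ k) := card_deg n k H W x hx
  rw [he, hW, ← pow_mul] at hle
  refine ⟨Md k H W, inferInstance, e, he, (Nat.pow_le_pow_iff_right hp.one_lt).1 hle,
    hm k H W, ?_, ?_⟩
  · rw [injective_iff_map_eq_one]
    intro h h1
    have h2 : hm k H W h ⟨ι, hd⟩ = ⟨ι, hd⟩ := by
      rw [h1]
      rfl
    have h3 : ι (1 * h) = ι 1 := congrFun (congrArg Subtype.val h2) 1
    have h4 := hι h3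
    simpa using h4
  · intro h a b
    rfl

end Pool.Agent.Helper252_Cover
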