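import Pool.Agent.Helper252_Cover.Defs

set_option autoImplicit false

open scoped commutatorElement

namespace Pool.Agent.Helper252_Cover

/-
PROOF OF THE TARGET.
For e : Fin B → Fin (B+1) let M_e = (i : Fin B) → ZMod (p^(e i)) and let A_e be the subgroup of Equiv.Perm M_e of the additive bijections. G = ∏ over e of A_e (Pi type, a group). |A_e| <= |M_e|^B <= (p^(B B))^B (an additive map is determined by the images of the B standard generators Pi.single i 1), so |G| <= p^(B^3 (B+1)^B) =: p^F. Given M with |M| = p^b, b <= B: the structure theorem (AddCommGroup.equiv_directSum_zmod_of_finite, all primes are p for the nontrivial factors; at most b nontrivial factors, exponents <= b;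
pad with trivial factors ZMod (p^0)) gives an additive isomorphism M ≃+ M_e for some e. Conjugating f h by it gives an element of A_e; put 1 in the other components.
-/

namespace J_exists_universal

/-- the model abelian p-groups -/
abbrev Mod (p k : ℕ) (e : Fin k → ℕ) : Type := (j : Fin k) → ZMod (p ^ (e j))

/-- the additive bijections -/
def Lin (M : Type) [AddCommGroup M] : Subgroup (Equiv.Perm M) where
  carrier := {f | ∀ a b, f (a + b) = f a + f b}
  one_mem' := fun a b => rfl
  mul_mem' := by
    intro f g hf hg a b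
    show f (g (a + b)) = f (g a) + f (g b)
    rw [hg, hf]
  inv_mem' := by
    intro f hf a b
    apply f.injective
    rw [hf]
    simp

theorem lin_ext {p k : ℕ} {e : Fin k → ℕ} (f g : Lin (Mod p k e))
    (h : ∀ j, f.1 (Pi.single j 1) = g.1 (Pi.single j 1)) : f = g := by
  have key : AddMonoidHom.mk' f.1 f.2 = AddMonoidHom.mk' g.1 g.2 := by
    apply AddMonoidHom.functions_ext
    intro j x
    have hx : x = (x.cast : ℤ) • (1 : ZMod (p ^ (e j))) := by simp
    have hs : (Pi.single j x : Mod p k e) = (x.cast : ℤ) • (Pi.single j 1 : Mod p k e) := by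
      rw [← Pi.single_smul, ← hx]
    rw [hs, map_zsmul, map_zsmul]
    congr 1
    exact h j
  apply Subtype.ext
  apply Equiv.ext
  intro x
  exact congrArg (fun F => F x) key

theorem finite_mod {p : ℕ} (hp : p.Prime) (k : ℕ) (e : Fin k → ℕ) : Finite (Mod p k e) := by
  have : NeZero p := ⟨hp.ne_zero⟩
  infer_instance

theorem card_mod (p k : ℕ) (e : Fin k → ℕ) : Nat.card (Mod p k e) = p ^ (∑ j, e j) := by
  rw [Nat.card_pi]
  simp only [Nat.card_zmod]
  rw [Finset.prod_pow_eq_pow_sum]

theorem finite_aut {p : ℕ} (hp : p.Prime) (k : ℕ) (e : Fin k → ℕ) : Finite (Lin (Mod p k e)) := by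
  have := finite_mod hp k e
  infer_instance

theorem card_aut {p : ℕ} (hp : p.Prime) (k : ℕ) (e : Fin k → ℕ) :
    Nat.card (Lin (Mod p k e)) ≤ (p ^ (∑ j, e j)) ^ k := by
  have := finite_mod hp k e
  have h := Nat.card_le_card_of_injective
    (fun (f : Lin (Mod p k e)) (j : Fin k) => f.1 (Pi.single j 1)) (by
      intro f g hfg
      exact lin_ext f g (fun j => congrFun hfg j))
  rw [Nat.card_fun, card_mod, Nat.card_fin] at h
  exact h

end J_exists_universal

/-- TARGET -/
theorem exists_universal (B : ℕ) : ∃ F : ℕ, ∀ (p : ℕ), p.Prime →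
    ∃ (G : Type) (_ : Group G), Finite G ∧ Nat.card G ≤ p ^ F ∧
      ∀ (M : Type) [AddCommGroup M] (b : ℕ), b ≤ B → Nat.card M = p ^ b →
        ∀ (H : Type) [Group H] (f : H →* Equiv.Perm M), Function.Injective f →
          (∀ h a b, f h (a + b) = f h a + f h b) → ∃ g : H →* G, Function.Injective g := by
  classical
  let I : Type := Σ k : Fin (B + 1), (Fin k → Fin (B + 1))
  refine ⟨B ^ 3 * Fintype.card I, ?_⟩
  intro p hp
  let GG : I → Type := fun i =>
    J_exists_universal.Lin (J_exists_universal.Mod p i.1 (fun j => (i.2 j : ℕ)))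
  let inst : ∀ i, Group (GG i) := fun i => inferInstanceAs (Group
    (J_exists_universal.Lin (J_exists_universal.Mod p i.1 (fun j => (i.2 j : ℕ)))))
  have hfin : ∀ i, Finite (GG i) := fun i => J_exists_universal.finite_aut hp _ _
  refine ⟨(i : I) → GG i, inferInstance, inferInstance, ?_, ?_⟩
  · rw [Nat.card_pi, pow_mul, ← Finset.card_univ, ← Finset.prod_const]
    apply Finset.prod_le_prod'
    intro i _
    refine (J_exists_universal.card_aut hp _ _).trans ?_
    rw [← pow_mul]
    apply Nat.pow_le_pow_right hp.pos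
    have hk : (i.1 : ℕ) ≤ B := Nat.lt_succ_iff.mp i.1.2
    have hsum : ∑ j, (i.2 j : ℕ) ≤ B * B := by
      calc ∑ j, (i.2 j : ℕ) ≤ ∑ _j : Fin i.1, B :=
            Finset.sum_le_sum (fun j _ => Nat.lt_succ_iff.mp (i.2 j).2)
        _ = i.1 * B := by simp
        _ ≤ B * B := Nat.mul_le_mul_right _ hk
    calc (∑ j, (i.2 j : ℕ)) * (i.1 : ℕ) ≤ (B * B) * B := Nat.mul_le_mul hsum hk
      _ = B ^ 3 := by ring
  · intro M _ b hb hcard H _ f hf hadd
    have : Finite M := Nat.finite_of_card_ne_zero (by rw [hcard]; exact (pow_pos hp.pos _).ne')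
    obtain ⟨ι, hι, n, hn, ⟨φ⟩⟩ := AddCommGroup.equiv_directSum_zmod_of_finite' M
    have φ1 : M ≃+ ((i : ι) → ZMod (n i)) := φ.trans (DirectSum.addEquivProd _)
    have hc : ∏ i, n i = p ^ b := by
      rw [← hcard, Nat.card_congr φ1.toEquiv, Nat.card_pi]
      simp only [Nat.card_zmod]
    have hex : ∀ i, ∃ e, e ≤ b ∧ n i = p ^ e := fun i =>
      (Nat.dvd_prime_pow hp).mp (hc ▸ Finset.dvd_prod_of_mem n (Finset.mem_univ i))
    choose e he hne using hex
    obtain rfl : n = fun i => p ^ (e i) := funext hne
    have hsum : ∑ i, e i = b := by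
      rw [Finset.prod_pow_eq_pow_sum] at hc
      exact Nat.pow_right_injective hp.two_le hc
    have hpos : ∀ i, 1 ≤ e i := by
      intro i
      by_contra h
      have h0 : e i = 0 := by omega
      have := hn i
      simp only [h0, pow_zero] at this
      omega
    have hk : Fintype.card ι ≤ B := by
      calc Fintype.card ι = ∑ _i : ι, 1 := by simp
        _ ≤ ∑ i, e i := Finset.sum_le_sum (fun i _ => hpos i)
        _ ≤ B := by rw [hsum]; exact hb
    let σ := Fintype.equivFin ι
    let i0 : I := ⟨⟨Fintype.card ι, Nat.lt_succ_iff.mpr hk⟩,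
      fun j => ⟨e (σ.symm j), Nat.lt_succ_iff.mpr ((he _).trans hb)⟩⟩
    let φ2 : ((i : ι) → ZMod (p ^ (e i))) ≃+ J_exists_universal.Mod p i0.1 (fun j => (i0.2 j : ℕ)) :=
      (LinearEquiv.piCongrLeft' ℤ (fun i => ZMod (p ^ (e i))) σ).toAddEquiv
    let ψ := φ1.trans φ2
    let F0 : H →* Equiv.Perm (J_exists_universal.Mod p i0.1 (fun j => (i0.2 j : ℕ))) :=
      { toFun := fun h => (ψ.toEquiv.symm.trans (f h)).trans ψ.toEquiv
        map_one' := by
          ext x
          simp
        map_mul' := by
          intro a c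
          ext x
          simp }
    have hF0 : Function.Injective F0 := by
      intro a c hac
      apply hf
      ext x
      have := congrArg (fun g : Equiv.Perm _ => g (ψ x)) hac
      simpa [F0] using this
    let F1 : H →* GG i0 := F0.codRestrict
      (J_exists_universal.Lin (J_exists_universal.Mod p i0.1 (fun j => (i0.2 j : ℕ)))) (by
        intro h a c
        show ψ (f h (ψ.symm (a + c))) = ψ (f h (ψ.symm a)) + ψ (f h (ψ.symm c))
        rw [map_add, hadd, map_add])
    have hF1 : Function.Injective F1 := by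
      intro a c hac
      apply hF0
      exact congrArg Subtype.val hac
    refine ⟨(MonoidHom.mulSingle GG i0).comp F1, ?_⟩
    exact (Pi.mulSingle_injective i0).comp hF1

end Pool.Agent.Helper252_Cover
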