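import Pool.Agent.Helper252_Cover.C19_exists_linear
import Pool.Agent.Helper252_Cover.C23_exists_iota
import Pool.Agent.Helper252_Cover.C24_exists_gens
import Pool.Agent.Helper252_Cover.C26_exists_module
import Pool.Agent.Helper252_Cover.C27_exists_universal

set_option autoImplicit false

open scoped commutatorElement

namespace Pool.Agent.Helper252_Cover

/-
PROOF OF THE TARGET.
Let B₁ be from exists_linear n, K₀ from exists_iota n, B₂ = B₁ (n+1)^(n n), F from exists_universal B₂, K = max n K₀. For p > K let G be the group of exists_universal. For H of order p^n: exists_linear gives A, Φ, P, θ, π; exists_iota (N = n, c = n) gives R, ι : H → A ⧸ R injective with DegLE (n*n). A is a finite abelian group with p^n • x = 0, so |A| is a power of p and |A ⧸ R| = p^b with p^b <= |A| <= p^B₁, b <= B₁.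
exists_gens gives x. exists_module (k = n*n) gives M, |M| = p^e, e <= b (n+1)^(n*n) <= B₂ and H →* Perm M; exists_universal gives an injective H →* G. (H is finite since its Nat.card is p^n > 0.)
-/

/-- TARGET -/
theorem cover_large (n : ℕ) (hn : 1 ≤ n) : ∃ K F : ℕ, ∀ (p : ℕ), p.Prime → K < p →
    ∃ (G : Type) (_ : Group G), Finite G ∧ IsCover (p ^ n) G ∧ Nat.card G ≤ p ^ F := by
  obtain ⟨B₁, hB₁⟩ := exists_linear n hn
  obtain ⟨K₀, hK₀⟩ := exists_iota n hn
  obtain ⟨F, hF⟩ := exists_universal (B₁ * (n + 1) ^ (n * n))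
  refine ⟨max n K₀, F, fun p hp hKp => ?_⟩
  obtain ⟨G, hG, hGfin, hGcard, hGuniv⟩ := hF p hp
  refine ⟨G, hG, hGfin, ?_, hGcard⟩
  intro H _ hH
  have hpos : 0 < Nat.card H := by rw [hH]; exact pow_pos hp.pos n
  have : Finite H := Nat.finite_of_card_ne_zero hpos.ne'
  obtain ⟨A, hA, Φ, hAp, hAfin, hAcard, P, hP, θ, π, hθ, hπ, hθF⟩ :=
    hB₁ p hp (lt_of_le_of_lt (le_max_left _ _) hKp) H hH
  obtain ⟨R, ι, hι, hdeg⟩ := hK₀ p n hp (lt_of_le_of_lt (le_max_right _ _) hKp) A Φ hAp P H θ π
    hθ hπ hθF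
  obtain ⟨x, hx⟩ := exists_gens p n hp H hH
  -- the order of the quotient is a power of p
  have hAA : ∃ a : ℕ, Nat.card A = p ^ a := by
    have := Fact.mk hp
    have hpg : IsPGroup p (Multiplicative A) := by
      intro y
      exact ⟨n, by
        have := hAp (Multiplicative.toAdd y)
        exact this⟩
    obtain ⟨a, ha⟩ := hpg.exists_card_eq
    exact ⟨a, ha⟩
  obtain ⟨a, ha⟩ := hAA
  have hdvd : Nat.card (A ⧸ R) ∣ p ^ a := by
    rw [← ha]
    exact AddSubgroup.card_quotient_dvd_card R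
  obtain ⟨b, hba, hb⟩ := (Nat.dvd_prime_pow hp).mp hdvd
  have haB : a ≤ B₁ := by
    rw [ha] at hAcard
    exact (Nat.pow_le_pow_iff_right hp.one_lt).mp hAcard
  obtain ⟨M, hM, e, hMe, he, f, hf, hfadd⟩ := exists_module p n b (n * n) hp H (A ⧸ R) hb x hx ι
    hι hdeg
  exact hGuniv M e (he.trans (Nat.mul_le_mul (hba.trans haB) le_rfl)) hMe H f hf hfadd

end Pool.Agent.Helper252_Cover
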