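import Pool.Agent.Helper252_Cover.C28_cover_large

set_option autoImplicit false

open scoped commutatorElement

namespace Pool.Agent.Helper252_Cover

/-
PROOF OF THE TARGET.
F n = max (F_large n) (n * K_n^n), where K_n, F_large n come from cover_large n (choice; for n = 0 anything). For p > K_n use cover_large. For p <= K_n take G = Equiv.Perm (Fin (p^n)): Cayley (MulAction.toPermHom of the regular action, transported along H ≃ Fin (p^n)) gives the embedding, |G| = (p^n)! <= (p^n)^(p^n) = p^(n p^n) <= p^(n K_n^n).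
-/

namespace J_cover_all

theorem perm_cover (N : ℕ) (hN : N ≠ 0) : IsCover N (Equiv.Perm (Fin N)) := by
  intro H _ hH
  have hfin : Finite H := Nat.finite_of_card_ne_zero (by rw [hH]; exact hN)
  let e : H ≃ Fin N := Finite.equivFinOfCardEq hH
  refine ⟨(e.permCongrHom).toMonoidHom.comp (MulAction.toPermHom H H), ?_⟩
  intro a b hab
  have h1 : e.permCongrHom (MulAction.toPermHom H H a) = e.permCongrHom (MulAction.toPermHom H H b) := hab
  have h2 := e.permCongrHom.injective h1
  exact MulAction.toPerm_injective h2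

theorem card_bound (p n : ℕ) : Nat.card (Equiv.Perm (Fin (p ^ n))) ≤ p ^ (n * p ^ n) := by
  rw [Nat.card_eq_fintype_card, Fintype.card_perm, Fintype.card_fin]
  calc (p ^ n).factorial ≤ (p ^ n) ^ (p ^ n) := Nat.factorial_le_pow _
    _ = p ^ (n * p ^ n) := by rw [← pow_mul]

end J_cover_all

open J_cover_all in
/-- TARGET -/
theorem cover_all : ∃ F : ℕ → ℕ, ∀ (p : ℕ), p.Prime → ∀ n : ℕ, 1 ≤ n →
    ∃ (G : Type) (_ : Group G), Finite G ∧ IsCover (p ^ n) G ∧ Nat.card G ≤ p ^ F n := by
  classical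
  have h : ∀ n : ℕ, ∃ m : ℕ, ∀ p : ℕ, p.Prime → 1 ≤ n →
      ∃ (G : Type) (_ : Group G), Finite G ∧ IsCover (p ^ n) G ∧ Nat.card G ≤ p ^ m := by
    intro n
    by_cases hn : 1 ≤ n
    · obtain ⟨K, F, hKF⟩ := cover_large n hn
      refine ⟨max F (n * K ^ n), fun p hp _ => ?_⟩
      by_cases hpK : K < p
      · obtain ⟨G, iG, h1, h2, h3⟩ := hKF p hp hpK
        exact ⟨G, iG, h1, h2, h3.trans (Nat.pow_le_pow_right hp.pos (le_max_left _ _))⟩
      · push Not at hpK
        refine ⟨Equiv.Perm (Fin (p ^ n)), inferInstance, inferInstance,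
          perm_cover _ (pow_ne_zero _ hp.ne_zero), (card_bound p n).trans ?_⟩
        refine Nat.pow_le_pow_right hp.pos (le_trans ?_ (le_max_right _ _))
        exact Nat.mul_le_mul_left _ (Nat.pow_le_pow_left hpK n)
    · exact ⟨0, fun p _ h => absurd h hn⟩
  choose F hF using h
  exact ⟨F, fun p hp n hn => hF n p hp hn⟩

end Pool.Agent.Helper252_Cover
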