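import Pool.Agent.Helper252_Cover.C29_cover_all

set_option autoImplicit false

open scoped commutatorElement

namespace Pool.Agent.Helper252_Cover

/-
PROOF OF THE TARGET.
Nat.sInf_le applied to the group of cover_all.
-/

/-- TARGET -/
theorem minCover_le : ∃ F : ℕ → ℕ, ∀ (p : ℕ), p.Prime → ∀ n : ℕ, 1 ≤ n →
    minCover (p ^ n) ≤ p ^ F n := by
  obtain ⟨F, hF⟩ := cover_all
  refine ⟨F, fun p hp n hn => ?_⟩
  obtain ⟨G, inst, hfin, hcov, hcard⟩ := hF p hp n hn
  have h : Nat.card G ∈ {k : ℕ | ∃ (G : Type) (_ : Group G), Finite G ∧ IsCover (p ^ n) G ∧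
      Nat.card G = k} := ⟨G, inst, hfin, hcov, rfl⟩
  exact (Nat.sInf_le h).trans hcard


end Pool.Agent.Helper252_Cover
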