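import Mathlib

/-!
# Definitions for the bound on the orders of minimum `p^n`-covers
-/

set_option autoImplicit false

open scoped commutatorElement

namespace Pool.Agent.Helper252_Cover

/-- `G` contains a copy of every group of order `N`. -/
def IsCover (N : ℕ) (G : Type) [Group G] : Prop :=
  ∀ (H : Type) [Group H], Nat.card H = N → ∃ f : H →* G, Function.Injective f

/-- The order of a minimum cover: the least order of a finite group containing a copy of every
group of order `N`. -/
noncomputable def minCover (N : ℕ) : ℕ :=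
  sInf {k : ℕ | ∃ (G : Type) (_ : Group G), Finite G ∧ IsCover N G ∧ Nat.card G = k}

/-- A multiplicative filtration of a ring with `F 0` everything and `F (c + 1) = 0`. -/
structure Filt (A : Type) [Ring A] (c : ℕ) where
  F : ℕ → AddSubgroup A
  anti : ∀ i, F (i + 1) ≤ F i
  top : F 0 = ⊤
  mul : ∀ i j x y, x ∈ F i → y ∈ F j → x * y ∈ F (i + j)
  bot : F (c + 1) = ⊥

/-- `f` is a polynomial function of degree at most `D` with coefficients `a`. -/
def HasCoeff {A : Type} [AddCommGroup A] (D : ℕ) (a f : ℕ → A) : Prop :=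
  ∀ t : ℕ, f t = ∑ j ∈ Finset.range (D + 1), (t ^ j) • a j

/-- An inverse of `i` modulo `p ^ N`. -/
def iv (p N i : ℕ) : ℤ := Int.gcdA i (p ^ N : ℕ)

/-- The truncated logarithm of `1 + u`. -/
def lg {A : Type} [Ring A] (p N c : ℕ) (u : A) : A :=
  ∑ i ∈ Finset.Icc 1 c, ((-1 : ℤ) ^ (i + 1) * iv p N i) • u ^ i

/-- `g 1 ^ t * g 2 ^ (t ^ 2) * ... * g D ^ (t ^ D)`. -/
def tp {G : Type} [Group G] (g : ℕ → G) (t : ℕ) : ℕ → G
  | 0 => 1
  | D + 1 => tp g t D * g (D + 1) ^ (t ^ (D + 1))

/-- Functions on a group which vanish under `k + 1` differences. -/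
def DegLE {P W : Type} [Group P] [AddCommGroup W] : ℕ → (P → W) → Prop
  | 0, f => ∀ g h, f (g * h) = f g
  | k + 1, f => ∀ h, DegLE k (fun g => f (g * h) - f g)

/-- Left-normed commutators; the head of the list is the last entry. -/
def lc {G : Type} [Group G] {n : ℕ} (x : Fin n → G) : List (Fin n) → G
  | [] => 1
  | [i] => x i
  | i :: j :: l => ⁅lc x (j :: l), x i⁆

/-- Monomials; the head of the list is the last letter. -/
def mon {A : Type} [Ring A] {n : ℕ} (X : Fin n → A) : List (Fin n) → A
  | [] => 1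
  | i :: l => mon X l * X i

/-- Left-normed Lie monomials; the head of the list is the last entry. -/
def lw {A : Type} [Ring A] {n : ℕ} (X : Fin n → A) : List (Fin n) → A
  | [] => 0
  | [i] => X i
  | i :: j :: l => lw X (j :: l) * X i - X i * lw X (j :: l)

/-- The expansion of a left-normed Lie monomial in monomials. -/
noncomputable def ex {n : ℕ} : List (Fin n) → (List (Fin n) →₀ ℤ)
  | [] => 0
  | [i] => Finsupp.single [i] 1
  | i :: j :: l => Finsupp.mapDomain (fun b => i :: b) (ex (j :: l)) -
      Finsupp.mapDomain (fun b => b ++ [i]) (ex (j :: l))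

/-- The lower central series; `gm G 0 = ⊤`. -/
abbrev gm (G : Type) [Group G] (k : ℕ) : Subgroup G := Subgroup.lowerCentralSeries (⊤ : Subgroup G) k

/-- `χ` is additive on `gm G (k - 1)` and vanishes on `gm G k`. -/
structure IsChi {G M : Type} [Group G] [AddCommGroup M] (k : ℕ) (χ : G → M) : Prop where
  add : ∀ a ∈ gm G (k - 1), ∀ b ∈ gm G (k - 1), χ (a * b) = χ a + χ b
  zero : ∀ a ∈ gm G k, χ a = 0

/-- The elements `X i` generate freely, up to weight `c`. -/
structure IsFree (q n c : ℕ) (A : Type) [Ring A] (Φ : Filt A c) (X : Fin n → A) where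
  mem : ∀ i, X i ∈ Φ.F 1
  cf : List (Fin n) → A →+ ZMod q
  cf_word : ∀ a b : List (Fin n), a.length = b.length → a.length ≤ c →
    cf a (mon X b) = if a = b then 1 else 0
  cf_F : ∀ a : List (Fin n), a.length ≤ c → ∀ x ∈ Φ.F (a.length + 1), cf a x = 0

end Pool.Agent.Helper252_Cover
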